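import Pool.Agent.H56.TI.Defs

/-!
# TI TiS: multiplication by a type I function of small level

`S m = ∑_{n ≤ Q, n ∣ m} g n` for `m ≥ 1`, `|g n| ≤ 3^ω(n) ≤ n^2` (`3 ≤ p^2`): `1[n ∣ m] = (1/n) ∑_{r<n} ee(mr/n)`, so
`Bs (S Phi) H i α = ∑_{n ≤ Q} (g n/n) ∑_{r<n} Bs Phi H i (α - r/n)`, `‖..‖ ≤ ∑_{n ≤ Q} n^2 B ≤ Q³ B`.
-/

set_option autoImplicit false

namespace Pool.Agent.H56.TI

open Finset
open Pool.Agent.H91.PK (ee)
open Pool.Agent.H35.W (pb)
open Pool.Agent.H53.MID (Bs nz)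

private theorem TiS_add (s t : ℝ) : ee (s + t) = ee s * ee t := by
  unfold ee
  rw [← Complex.exp_add]
  congr 1
  push_cast
  ring

private theorem TiS_pow (s : ℝ) (r : ℕ) : ee (s * r) = ee s ^ r := by
  unfold ee
  rw [← Complex.exp_nat_mul]
  congr 1
  push_cast
  ring

private theorem TiS_one_iff {n m : ℕ} (hn : 1 ≤ n) : ee ((m : ℝ) / n) = 1 ↔ n ∣ m := by
  have hn0 : (n : ℂ) ≠ 0 := by
    have : n ≠ 0 := by omega
    exact_mod_cast this
  have hpi : (2 * (Real.pi : ℂ) * Complex.I) ≠ 0 := by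
    simp [Real.pi_ne_zero]
  unfold ee
  rw [Complex.exp_eq_one_iff]
  constructor
  · rintro ⟨z, hz⟩
    have h1 : (2 * (Real.pi : ℂ) * Complex.I) * ((m : ℂ) / n) =
        (2 * (Real.pi : ℂ) * Complex.I) * z := by
      have h2 : 2 * (Real.pi : ℂ) * (((m : ℝ) / n : ℝ) : ℂ) * Complex.I =
          z * (2 * (Real.pi : ℂ) * Complex.I) := hz
      push_cast at h2
      linear_combination h2
    have h2 := mul_left_cancel₀ hpi h1
    rw [div_eq_iff hn0] at h2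
    have h3 : (m : ℤ) = z * n := by exact_mod_cast h2
    have h4 : (n : ℤ) ∣ (m : ℤ) := ⟨z, by rw [h3, mul_comm]⟩
    exact_mod_cast h4
  · rintro ⟨k, rfl⟩
    refine ⟨k, ?_⟩
    push_cast
    field_simp

private theorem TiS_orth {n : ℕ} (hn : 1 ≤ n) (m : ℕ) :
    (if n ∣ m then (1 : ℂ) else 0) = (1 / (n : ℂ)) * ∑ r ∈ range n, ee ((m : ℝ) * (r / n)) := by
  have hn0 : (n : ℂ) ≠ 0 := by
    have : n ≠ 0 := by omega
    exact_mod_cast this
  have h1 : ∀ r ∈ range n, ee ((m : ℝ) * (r / n)) = ee ((m : ℝ) / n) ^ r := by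
    intro r _
    rw [← TiS_pow]
    congr 1
    ring
  rw [sum_congr rfl h1]
  by_cases h : n ∣ m
  · rw [if_pos h, (TiS_one_iff hn).2 h]
    simp only [one_pow, sum_const, card_range, nsmul_eq_mul, mul_one]
    field_simp
  · rw [if_neg h]
    have h2 : ee ((m : ℝ) / n) ≠ 1 := fun h' => h ((TiS_one_iff hn).1 h')
    have h3 : ee ((m : ℝ) / n) ^ n = 1 := by
      rw [← TiS_pow]
      have hn' : (n : ℝ) ≠ 0 := by
        have : n ≠ 0 := by omega
        exact_mod_cast this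
      rw [div_mul_cancel₀ _ hn']
      have h4 := (TiS_one_iff (n := 1) (m := m) le_rfl).2 (one_dvd m)
      rwa [Nat.cast_one, div_one] at h4
    rw [geom_sum_eq h2, h3, sub_self, zero_div, mul_zero]

private theorem TiS_three (n : ℕ) (hn : 1 ≤ n) : (3 : ℝ) ^ n.primeFactors.card ≤ (n : ℝ) ^ 2 := by
  have h1 : 3 ^ n.primeFactors.card ≤ ∏ p ∈ n.primeFactors, p ^ 2 := by
    rw [← prod_const]
    refine prod_le_prod' fun p hp => ?_
    have h2 := (Nat.prime_of_mem_primeFactors hp).two_le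
    nlinarith
  have h2 : ∏ p ∈ n.primeFactors, p ^ 2 = (∏ p ∈ n.primeFactors, p) ^ 2 := prod_pow _ _ _
  have h3 : ∏ p ∈ n.primeFactors, p ≤ n := Nat.le_of_dvd (by omega) (Nat.prod_primeFactors_dvd n)
  have h4 : 3 ^ n.primeFactors.card ≤ n ^ 2 := by
    rw [h2] at h1
    exact h1.trans (Nat.pow_le_pow_left h3 2)
  exact_mod_cast h4

theorem ti_S (P Q H i : ℕ) (w g S : ℕ → ℝ) (B : ℝ) (hg : ∀ n, |g n| ≤ 3 ^ n.primeFactors.card)
    (hS : ∀ m, 1 ≤ m → S m = ∑ n ∈ (Icc 1 Q).filter (fun n => n ∣ m), g n) (hi : 1 ≤ i)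
    (hB : ∀ α : ℝ, ‖Bs (Phi P w) H i α‖ ≤ B) (α : ℝ) :
    ‖Bs (fun m => S m * Phi P w m) H i α‖ ≤ (Q : ℝ) ^ 3 * B := by
  have hB0 : 0 ≤ B := (norm_nonneg _).trans (hB 0)
  have key : Bs (fun m => S m * Phi P w m) H i α =
      ∑ n ∈ Icc 1 Q, (g n : ℂ) * ((1 / (n : ℂ)) *
        ∑ r ∈ range n, Bs (Phi P w) H i (α - r / n)) := by
    unfold Bs
    have h1 : ∀ n ∈ Icc 1 Q, (g n : ℂ) * ((1 / (n : ℂ)) * ∑ r ∈ range n,
        ∑ m ∈ Ico (i * H) ((i + 1) * H), (Phi P w m : ℂ) * ee (-(m * (α - r / n)))) =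
        ∑ m ∈ Ico (i * H) ((i + 1) * H), (if n ∣ m then (g n : ℂ) else 0) *
          ((Phi P w m : ℂ) * ee (-(m * α))) := by
      intro n hn
      rw [sum_comm, mul_sum, mul_sum]
      refine sum_congr rfl fun m _ => ?_
      have h2 := TiS_orth (mem_Icc.1 hn).1 m
      have h3 : ∀ r ∈ range n, (Phi P w m : ℂ) * ee (-(m * (α - r / n))) =
          ((Phi P w m : ℂ) * ee (-(m * α))) * ee ((m : ℝ) * (r / n)) := by
        intro r _
        rw [mul_assoc, ← TiS_add]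
        congr 2
        ring
      rw [sum_congr rfl h3, ← mul_sum]
      have h4 : (if n ∣ m then (g n : ℂ) else 0) = (g n : ℂ) * (if n ∣ m then (1 : ℂ) else 0) := by
        split_ifs
        · rw [mul_one]
        · rw [mul_zero]
      rw [h4, h2]
      ring
    rw [sum_congr rfl h1, sum_comm]
    refine sum_congr rfl fun m hm => ?_
    have hm1 : 1 ≤ m := by
      rw [mem_Ico] at hm
      rcases Nat.eq_zero_or_pos H with h0 | h0
      · rw [h0, mul_zero, mul_zero] at hm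
        omega
      · have : 1 ≤ i * H := Nat.mul_pos hi h0
        omega
    rw [← sum_mul, ← sum_filter]
    push_cast
    rw [hS m hm1]
    push_cast
    ring
  rw [key]
  have hQ : ∑ _n ∈ Icc 1 Q, (Q : ℝ) ^ 2 * B = (Q : ℝ) ^ 3 * B := by
    rw [sum_const, Nat.card_Icc, nsmul_eq_mul]
    simp only [Nat.add_sub_cancel]
    ring
  rw [← hQ]
  refine norm_sum_le_of_le _ fun n hn => ?_
  obtain ⟨hn1, hnQ⟩ := mem_Icc.1 hn
  have hn0 : (0 : ℝ) < n := by exact_mod_cast hn1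
  rw [norm_mul, norm_mul, norm_div, norm_one, Complex.norm_natCast, Complex.norm_real,
    Real.norm_eq_abs]
  have h1 : ‖∑ r ∈ range n, Bs (Phi P w) H i (α - r / n)‖ ≤ n * B := by
    have h4 : ‖∑ r ∈ range n, Bs (Phi P w) H i (α - r / n)‖ ≤ ∑ _r ∈ range n, B :=
      norm_sum_le_of_le _ fun r _ => hB (α - (r : ℝ) / n)
    rwa [sum_const, card_range, nsmul_eq_mul] at h4
  have h2 : 1 / (n : ℝ) * ‖∑ r ∈ range n, Bs (Phi P w) H i (α - r / n)‖ ≤ B := by
    rw [div_mul_eq_mul_div, one_mul, div_le_iff₀ hn0, mul_comm]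
    exact h1
  have h3 : |g n| ≤ (Q : ℝ) ^ 2 :=
    ((hg n).trans (TiS_three n hn1)).trans (pow_le_pow_left₀ hn0.le (by exact_mod_cast hnQ) 2)
  exact mul_le_mul h3 h2 (by positivity) (by positivity)

end Pool.Agent.H56.TI
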