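import Pool.Agent.H56.TI.BlkTri
import Pool.Agent.H56.TI.TiS

/-!
# TI Blk: the theorem for blocks

Let `δ1 = min(e0, e, 1)/40`, `δ = δ1/2`.  `K = ⌊H N^(-2δ1)⌋`, `J = ⌈K N^(2δ1)⌉`, `η = K N^(-δ1)`, `X = 20N`, `b = k + 1` (`phi_abs`, `P ≥ N^(e0/2)`, `40N < P^(k+1)`, `k = ⌈4/e0⌉`): `26 K² b ≤ η J` for large `N`.
`bad_le`: `#badx ≤ C K² J (20N + P⁴)/(K⁴ N^(-4δ1)) ≤ 4 C N^(8δ1) (20N + P⁴)/H ≤ N^(1-8δ1)` (`P⁴ ≤ N^(1-e) H`, `H ≥ N^e0`; `P² ≤ N`).  The blocks with `#(badx ∩ I) > H N^(-4δ1)`: at most `N^(1-4δ1)/H` (the blocks are disjoint).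
On the others `blk_tri` (`(i+1)H + K ≤ 20N`): `‖Bs‖ ≤ H N^(-δ1) + b H N^(-4δ1) + 4 b H N^(-2δ1) ≤ H N^(-δ)`.
-/

set_option autoImplicit false

namespace Pool.Agent.H56.TI

open Finset
open Pool.Agent.H91.PK (ee)
open Pool.Agent.H35.W (pb)
open Pool.Agent.H53.MID (Bs nz)

open Classical in
/-- the bad blocks of `Phi` -/
noncomputable def badT (P : ℕ) (w : ℕ → ℝ) (N H : ℕ) (δ : ℝ) : Finset ℕ :=
  (Icc 1 (16 * N / H)).filter (fun i => ∃ α : ℝ, (H : ℝ) * (N : ℝ) ^ (-δ) < ‖Bs (Phi P w) H i α‖)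

/-- the sum over disjoint blocks -/
private theorem Blk_disj (B G : Finset ℕ) (H : ℕ) (T : ℝ)
    (hG : ∀ i ∈ G, T ≤ ((B.filter (fun x => i * H ≤ x ∧ x < (i + 1) * H)).card : ℝ)) :
    (G.card : ℝ) * T ≤ B.card := by
  have h1 : (G.card : ℝ) * T ≤
      ∑ i ∈ G, ((B.filter (fun x => i * H ≤ x ∧ x < (i + 1) * H)).card : ℝ) := by
    rw [← nsmul_eq_mul]
    exact card_nsmul_le_sum _ _ _ hG
  refine h1.trans ?_
  rw [← Nat.cast_sum, ← card_biUnion]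
  · exact_mod_cast card_le_card (biUnion_subset.2 fun i _ => filter_subset _ _)
  · intro i _ j _ hij
    rw [Function.onFun, Finset.disjoint_left]
    intro x hx hx'
    rw [mem_filter] at hx hx'
    rcases lt_or_gt_of_ne hij with h | h
    · have h2 : (i + 1) * H ≤ j * H := Nat.mul_le_mul_right _ h
      omega
    · have h2 : (j + 1) * H ≤ i * H := Nat.mul_le_mul_right _ h
      omega

/-- the arithmetic of the number of the bad centres -/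
private theorem Blk_num1 {Bx K J S H C y η : ℝ} (hK : 1 ≤ K) (hS : 0 ≤ S) (hC : 0 < C)
    (hy : 1 ≤ y) (hBx : 0 ≤ Bx) (hη : η = K / y ^ 2) (hJ : J ≤ 2 * K * y ^ 4)
    (hH : H ≤ 2 * y ^ 4 * K) (h : Bx * η ^ 4 ≤ C * K ^ 2 * J * S) :
    Bx * H ≤ 4 * C * S * y ^ 16 := by
  have hK0 : 0 < K := by linarith
  have hy0 : 0 < y := by linarith
  have h1 : Bx * K ^ 4 ≤ C * K ^ 2 * J * S * y ^ 8 := by
    have e : Bx * K ^ 4 = Bx * η ^ 4 * y ^ 8 := by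
      rw [hη]
      field_simp
    rw [e]
    exact mul_le_mul_of_nonneg_right h (by positivity)
  have h2 : C * K ^ 2 * J * S * y ^ 8 ≤ C * K ^ 2 * (2 * K * y ^ 4) * S * y ^ 8 := by
    gcongr
  have h3 : Bx * K * K ^ 3 ≤ 2 * C * S * y ^ 12 * K ^ 3 := by
    calc Bx * K * K ^ 3 = Bx * K ^ 4 := by ring
      _ ≤ C * K ^ 2 * (2 * K * y ^ 4) * S * y ^ 8 := h1.trans h2
      _ = 2 * C * S * y ^ 12 * K ^ 3 := by ring
  have h4 : Bx * K ≤ 2 * C * S * y ^ 12 := le_of_mul_le_mul_right h3 (by positivity)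
  calc Bx * H ≤ Bx * (2 * y ^ 4 * K) := mul_le_mul_of_nonneg_left hH hBx
    _ = 2 * y ^ 4 * (Bx * K) := by ring
    _ ≤ 2 * y ^ 4 * (2 * C * S * y ^ 12) := mul_le_mul_of_nonneg_left h4 (by positivity)
    _ = 4 * C * S * y ^ 16 := by ring

/-- the arithmetic of the number of the bad blocks -/
private theorem Blk_num2 {Bt Bx n P4 ne H C y : ℝ} (hC : 0 < C) (hyC : 84 * C ≤ y) (hy : 1 ≤ y)
    (hn : 0 ≤ n) (hBt : 0 ≤ Bt) (hH : y ^ 80 ≤ H) (hne : y ^ 80 ≤ ne) (hP0 : 0 ≤ P4)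
    (hP : P4 * ne ≤ n * H) (h1 : Bx * H ≤ 4 * C * (20 * n + P4) * y ^ 16)
    (h2 : Bt * (H / y ^ 8) ≤ Bx) : Bt ≤ n / y / H := by
  have hy0 : 0 < y := by linarith
  have hH0 : 0 < H := lt_of_lt_of_le (by positivity) hH
  have h3 : (20 * n + P4) * y ^ 80 ≤ 21 * n * H := by
    have h4 : P4 * y ^ 80 ≤ n * H := (mul_le_mul_of_nonneg_left hne hP0).trans hP
    have h5 : n * y ^ 80 ≤ n * H := mul_le_mul_of_nonneg_left hH hn
    linarith [h4, h5]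
  have h6 : Bt * H * H ≤ Bx * H * y ^ 8 := by
    have h7 : Bt * (H / y ^ 8) * (H * y ^ 8) ≤ Bx * (H * y ^ 8) :=
      mul_le_mul_of_nonneg_right h2 (by positivity)
    have e : Bt * (H / y ^ 8) * (H * y ^ 8) = Bt * H * H := by
      field_simp
    rw [e] at h7
    linarith [h7]
  have h8 : Bt * H * H ≤ 4 * C * (20 * n + P4) * y ^ 24 := by
    calc Bt * H * H ≤ Bx * H * y ^ 8 := h6
      _ ≤ 4 * C * (20 * n + P4) * y ^ 16 * y ^ 8 := mul_le_mul_of_nonneg_right h1 (by positivity)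
      _ = 4 * C * (20 * n + P4) * y ^ 24 := by ring
  have h9 : Bt * H * y ^ 56 * (H * y ^ 24) ≤ 84 * C * n * (H * y ^ 24) := by
    calc Bt * H * y ^ 56 * (H * y ^ 24) = Bt * H * H * y ^ 80 := by ring
      _ ≤ 4 * C * (20 * n + P4) * y ^ 24 * y ^ 80 := mul_le_mul_of_nonneg_right h8 (by positivity)
      _ = 4 * C * y ^ 24 * ((20 * n + P4) * y ^ 80) := by ring
      _ ≤ 4 * C * y ^ 24 * (21 * n * H) := mul_le_mul_of_nonneg_left h3 (by positivity)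
      _ = 84 * C * n * (H * y ^ 24) := by ring
  have h10 : Bt * H * y ^ 56 ≤ 84 * C * n := le_of_mul_le_mul_right h9 (by positivity)
  have h11 : 84 * C ≤ y ^ 55 := hyC.trans (le_self_pow₀ hy (by norm_num))
  have h12 : 84 * C * (Bt * H * y) ≤ 84 * C * n := by
    calc 84 * C * (Bt * H * y) ≤ y ^ 55 * (Bt * H * y) :=
          mul_le_mul_of_nonneg_right h11 (by positivity)
      _ = Bt * H * y ^ 56 := by ring
      _ ≤ 84 * C * n := h10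
  have h13 : Bt * H * y ≤ n := le_of_mul_le_mul_left h12 (by positivity)
  rw [le_div_iff₀ hH0, le_div_iff₀ hy0]
  exact h13

/-- the arithmetic of a good block -/
private theorem Blk_num3 {H y b cnt K η : ℝ} (hy : 1 ≤ y) (hyb : 1 + 5 * b ≤ y) (hb : 0 ≤ b)
    (hH : 0 ≤ H) (hK0 : 0 < K) (hη : η = K / y ^ 2) (hcnt : cnt ≤ H / y ^ 8)
    (hK : K ≤ H / y ^ 4) : H * η / K + b * cnt + 4 * K * b ≤ H * y⁻¹ := by
  have hy0 : 0 < y := by linarith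
  have e1 : H * η / K = H / y ^ 2 := by
    rw [hη]
    field_simp
  have h1 : H / y ^ 8 ≤ H / y ^ 2 :=
    div_le_div_of_nonneg_left hH (by positivity) (pow_le_pow_right₀ hy (by norm_num))
  have h2 : H / y ^ 4 ≤ H / y ^ 2 :=
    div_le_div_of_nonneg_left hH (by positivity) (pow_le_pow_right₀ hy (by norm_num))
  have h3 : b * cnt ≤ b * (H / y ^ 2) := mul_le_mul_of_nonneg_left (hcnt.trans h1) hb
  have h4 : 4 * K * b ≤ 4 * b * (H / y ^ 2) := by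
    have : K * b ≤ H / y ^ 2 * b := mul_le_mul_of_nonneg_right (hK.trans h2) hb
    linarith
  rw [e1]
  calc H / y ^ 2 + b * cnt + 4 * K * b ≤ H / y ^ 2 + b * (H / y ^ 2) + 4 * b * (H / y ^ 2) := by
        linarith
    _ = (1 + 5 * b) * (H / y ^ 2) := by ring
    _ ≤ y * (H / y ^ 2) := mul_le_mul_of_nonneg_right hyb (by positivity)
    _ = H * y⁻¹ := by
        field_simp

/-- MAIN THEOREM: local Fourier uniformity of type I sums beyond `H` -/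
theorem ti_lfu (e0 e : ℝ) (he0 : 0 < e0) (he : 0 < e) : ∃ δ : ℝ, 0 < δ ∧ ∃ N0 : ℕ, ∀ N : ℕ, N0 ≤ N →
    ∀ (H P : ℕ) (w : ℕ → ℝ), (N : ℝ) ^ e0 ≤ H → H ^ 2 ≤ N → H ≤ P ^ 2 → (P : ℝ) ^ 4 * (N : ℝ) ^ e ≤ N * H →
      (∀ p, |w p| ≤ 1) → ((badT P w N H δ).card : ℝ) ≤ (N : ℝ) ^ (1 - δ) / H := by
  classical
  obtain ⟨C, hC, hbad⟩ := bad_le
  obtain ⟨k, hk⟩ : ∃ k : ℕ, k = ⌈4 / e0⌉₊ := ⟨_, rfl⟩
  have hk4 : 4 ≤ e0 * ((k : ℝ) + 1) := by
    have h1 : 4 / e0 ≤ k := by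
      rw [hk]
      exact Nat.le_ceil _
    rw [div_le_iff₀ he0] at h1
    rw [mul_add, mul_one, mul_comm e0]
    linarith
  obtain ⟨b, hb⟩ : ∃ b : ℝ, b = (k : ℝ) + 1 := ⟨_, rfl⟩
  have hb0 : 0 ≤ b := by
    rw [hb]
    positivity
  obtain ⟨δ, hδ⟩ : ∃ δ : ℝ, δ = min (min e0 e) 1 / 80 := ⟨_, rfl⟩
  have hm0 : 0 < min (min e0 e) 1 := lt_min (lt_min he0 he) one_pos
  have hδ0 : 0 < δ := by
    rw [hδ]
    positivity
  have hδe0 : δ * 80 ≤ e0 := by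
    have h1 : min (min e0 e) 1 ≤ e0 := (min_le_left _ _).trans (min_le_left _ _)
    rw [hδ]
    linarith
  have hδe : δ * 80 ≤ e := by
    have h1 : min (min e0 e) 1 ≤ e := (min_le_left _ _).trans (min_le_right _ _)
    rw [hδ]
    linarith
  obtain ⟨N0, hN0⟩ : ∃ N0 : ℕ, ∀ N : ℕ, N0 ≤ N → 31 * b + 84 * C + 50 ≤ (N : ℝ) ^ δ := by
    have h1 := (tendsto_rpow_atTop hδ0).comp (tendsto_natCast_atTop_atTop (R := ℝ))
    obtain ⟨N0, h2⟩ := Filter.eventually_atTop.1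
      (h1.eventually_ge_atTop (31 * b + 84 * C + 50))
    exact ⟨N0, fun N hN => h2 N hN⟩
  refine ⟨δ, hδ0, max N0 50, fun N hN H P w hH hH2 hHP hP4 hw => ?_⟩
  have hNN0 : N0 ≤ N := (le_max_left _ _).trans hN
  have hN50 : 50 ≤ N := (le_max_right _ _).trans hN
  have hn50 : (50 : ℝ) ≤ N := by exact_mod_cast hN50
  have hn1 : (1 : ℝ) ≤ N := by linarith
  have hn0 : (0 : ℝ) < N := by linarith
  obtain ⟨y, hy⟩ : ∃ y : ℝ, y = (N : ℝ) ^ δ := ⟨_, rfl⟩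
  have hyA : 31 * b + 84 * C + 50 ≤ y := by
    rw [hy]
    exact hN0 N hNN0
  have hy50 : 50 ≤ y := by linarith
  have hy1 : 1 ≤ y := by linarith
  have hy0 : 0 < y := by linarith
  have hy80 : y ^ 80 = (N : ℝ) ^ (δ * 80) := by
    rw [hy, Real.rpow_mul hn0.le]
    exact_mod_cast (Real.rpow_natCast ((N : ℝ) ^ δ) 80).symm
  have hyH : y ^ 80 ≤ H := by
    rw [hy80]
    exact (Real.rpow_le_rpow_of_exponent_le hn1 hδe0).trans hH
  have hye : y ^ 80 ≤ (N : ℝ) ^ e := by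
    rw [hy80]
    exact Real.rpow_le_rpow_of_exponent_le hn1 hδe
  have hyneg : (N : ℝ) ^ (-δ) = y⁻¹ := by
    rw [hy]
    exact Real.rpow_neg hn0.le δ
  have hy1d : (N : ℝ) ^ (1 - δ) = N / y := by
    rw [hy, Real.rpow_sub hn0, Real.rpow_one]
  have hH50 : (50 : ℝ) ≤ y ^ 80 := hy50.trans (le_self_pow₀ hy1 (by norm_num))
  have hH400 : (400 : ℝ) ≤ H := by
    have h1 : y ^ 2 ≤ y ^ 80 := pow_le_pow_right₀ hy1 (by norm_num)
    have h2 : (50 : ℝ) ^ 2 ≤ y ^ 2 := pow_le_pow_left₀ (by norm_num) hy50 2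
    have h3 : (400 : ℝ) ≤ 50 ^ 2 := by norm_num
    exact h3.trans (h2.trans (h1.trans hyH))
  have hH400' : 400 ≤ H := by exact_mod_cast hH400
  have hH0 : (0 : ℝ) < H := by linarith
  have hHN : H ≤ N := (Nat.le_self_pow two_ne_zero H).trans hH2
  have hHn : (H : ℝ) ≤ N := by exact_mod_cast hHN
  -- the primes
  have hP20 : 20 ≤ P := by
    by_contra h1
    push Not at h1
    have h2 : P ^ 2 ≤ 19 ^ 2 := Nat.pow_le_pow_left (by omega) 2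
    omega
  have hPN : P ^ 2 ≤ N := by
    have h1 : (P : ℝ) ^ 4 ≤ N * H := by
      have h2 : (P : ℝ) ^ 4 * 1 ≤ (P : ℝ) ^ 4 * (N : ℝ) ^ e :=
        mul_le_mul_of_nonneg_left (Real.one_le_rpow hn1 he.le) (by positivity)
      linarith
    have h2 : (P : ℝ) ^ 4 ≤ (N : ℝ) ^ 2 := by
      rw [pow_two]
      exact h1.trans (mul_le_mul_of_nonneg_left hHn hn0.le)
    have h3 : (P ^ 2) ^ 2 ≤ N ^ 2 := by
      have h4 : ((P : ℝ) ^ 2) ^ 2 ≤ (N : ℝ) ^ 2 := by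
        rw [← pow_mul]
        exact h2
      exact_mod_cast h4
    exact (Nat.pow_le_pow_iff_left (by norm_num)).1 h3
  have hPk : 40 * N < P ^ (k + 1) := by
    have h1 : (N : ℝ) ^ 4 ≤ ((P : ℝ) ^ (k + 1)) ^ 2 := by
      have h2 : (N : ℝ) ^ e0 ≤ (P : ℝ) ^ 2 := hH.trans (by exact_mod_cast hHP)
      have h3 : ((N : ℝ) ^ e0) ^ (k + 1) ≤ ((P : ℝ) ^ 2) ^ (k + 1) :=
        pow_le_pow_left₀ (by positivity) h2 _
      have h4 : ((N : ℝ) ^ e0) ^ (k + 1) = (N : ℝ) ^ (e0 * ((k : ℝ) + 1)) := by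
        rw [Real.rpow_mul hn0.le]
        exact_mod_cast (Real.rpow_natCast ((N : ℝ) ^ e0) (k + 1)).symm
      have h5 : (N : ℝ) ^ (4 : ℝ) ≤ (N : ℝ) ^ (e0 * ((k : ℝ) + 1)) :=
        Real.rpow_le_rpow_of_exponent_le hn1 hk4
      have h6 : (N : ℝ) ^ (4 : ℝ) = (N : ℝ) ^ 4 := by
        exact_mod_cast Real.rpow_natCast (N : ℝ) 4
      rw [← h6]
      refine h5.trans ?_
      rw [← h4]
      refine h3.trans (le_of_eq ?_)
      rw [← pow_mul, ← pow_mul, mul_comm]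
    have h2 : (N ^ 2) ^ 2 ≤ (P ^ (k + 1)) ^ 2 := by
      have h3 : ((N : ℝ) ^ 2) ^ 2 ≤ ((P : ℝ) ^ (k + 1)) ^ 2 := by
        rw [← pow_mul]
        exact h1
      exact_mod_cast h3
    have h3 : N ^ 2 ≤ P ^ (k + 1) := (Nat.pow_le_pow_iff_left (by norm_num)).1 h2
    refine lt_of_lt_of_le ?_ h3
    rw [pow_two]
    exact Nat.mul_lt_mul_of_pos_right (by omega) (by omega)
  have hphi : ∀ m, 1 ≤ m → m ≤ 2 * (20 * N) → |Phi P w m| ≤ b := by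
    intro m hm hm'
    rw [hb]
    exact phi_abs P k m w hw (by omega) hm (by omega)
  -- the parameters
  obtain ⟨K, hKd⟩ : ∃ K : ℕ, K = ⌊(H : ℝ) / y ^ 4⌋₊ := ⟨_, rfl⟩
  have hy4 : 0 < y ^ 4 := by positivity
  have hy41 : 1 ≤ y ^ 4 := one_le_pow₀ hy1
  have hHy : 1 ≤ (H : ℝ) / y ^ 4 := by
    rw [le_div_iff₀ hy4, one_mul]
    exact (pow_le_pow_right₀ hy1 (by norm_num)).trans hyH
  have hKle : (K : ℝ) ≤ H / y ^ 4 := by
    rw [hKd]
    exact Nat.floor_le (by positivity)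
  have hK1 : 1 ≤ K := by
    rw [hKd]
    exact Nat.le_floor (by exact_mod_cast hHy)
  have hK1' : (1 : ℝ) ≤ K := by exact_mod_cast hK1
  have hK0 : (0 : ℝ) < K := by linarith
  have hKge : (H : ℝ) ≤ 2 * y ^ 4 * K := by
    have h1 : (H : ℝ) / y ^ 4 < K + 1 := by
      rw [hKd]
      exact Nat.lt_floor_add_one _
    rw [div_lt_iff₀ hy4] at h1
    have h2 : ((K : ℝ) + 1) * y ^ 4 ≤ (2 * K) * y ^ 4 :=
      mul_le_mul_of_nonneg_right (by linarith) hy4.le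
    linarith
  have hKH' : (K : ℝ) ≤ H := hKle.trans (div_le_self hH0.le hy41)
  have hKH : K ≤ H := by exact_mod_cast hKH'
  obtain ⟨J, hJd⟩ : ∃ J : ℕ, J = ⌈(K : ℝ) * y ^ 4⌉₊ := ⟨_, rfl⟩
  have hJge : (K : ℝ) * y ^ 4 ≤ J := by
    rw [hJd]
    exact Nat.le_ceil _
  have hJle : (J : ℝ) ≤ 2 * K * y ^ 4 := by
    have h1 : (J : ℝ) < K * y ^ 4 + 1 := by
      rw [hJd]
      exact Nat.ceil_lt_add_one (by positivity)
    have h2 : 1 ≤ (K : ℝ) * y ^ 4 := one_le_mul_of_one_le_of_one_le hK1' hy41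
    linarith
  have hKJ : K ≤ J := by
    have h1 : (K : ℝ) ≤ K * y ^ 4 := le_mul_of_one_le_right hK0.le hy41
    exact_mod_cast h1.trans hJge
  obtain ⟨η, hη⟩ : ∃ η : ℝ, η = K / y ^ 2 := ⟨_, rfl⟩
  have hη0 : 0 < η := by
    rw [hη]
    positivity
  have h26 : 26 * (K : ℝ) ^ 2 * b ≤ η * J := by
    have h1 : η * (K * y ^ 4) ≤ η * J := mul_le_mul_of_nonneg_left hJge hη0.le
    have h2 : η * (K * y ^ 4) = (K : ℝ) ^ 2 * y ^ 2 := by
      rw [hη]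
      field_simp
    have h3 : 26 * b ≤ y ^ 2 := by
      have h4 : 26 * b ≤ y := by linarith
      exact h4.trans (le_self_pow₀ hy1 two_ne_zero)
    calc 26 * (K : ℝ) ^ 2 * b = (K : ℝ) ^ 2 * (26 * b) := by ring
      _ ≤ (K : ℝ) ^ 2 * y ^ 2 := mul_le_mul_of_nonneg_left h3 (by positivity)
      _ = η * (K * y ^ 4) := h2.symm
      _ ≤ η * J := h1
  -- the bad centres
  have hbx := hbad P K J (20 * N) w η b hP20 hK1 hKJ (hKH.trans hHP) (by omega)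
    ((Nat.pow_le_pow_left hKH 2).trans (by omega)) hw hη0 hb0 hphi h26
  push_cast at hbx
  have hnum1 : ((badx P K w η (20 * N)).card : ℝ) * H ≤
      4 * C * (20 * N + (P : ℝ) ^ 4) * y ^ 16 :=
    Blk_num1 hK1' (by positivity) hC hy1 (Nat.cast_nonneg _) hη hJle hKge hbx
  -- the bad blocks
  have hcount : ((badT P w N H δ).card : ℝ) * (H / y ^ 8) ≤
      ((badx P K w η (20 * N)).card : ℝ) := by
    refine Blk_disj _ _ H _ fun i hi => ?_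
    unfold badT at hi
    rw [mem_filter, mem_Icc] at hi
    obtain ⟨⟨hi1, hi2⟩, α, hα⟩ := hi
    by_contra hcon
    push Not at hcon
    have hiH : i * H ≤ 16 * N := (Nat.mul_le_mul_right _ hi2).trans (Nat.div_mul_le_self _ _)
    have h1 := blk_tri P K H i (20 * N) w α η b hK1 hKH hi1 (by rw [add_mul]; omega) hη0.le hb0
      (fun m hm hm' => hphi m hm (by omega))
    have h2 := Blk_num3 (b := b) hy1 (by linarith) hb0 hH0.le hK0 hη hcon.le hKle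
    rw [hyneg] at hα
    linarith
  rw [hy1d]
  exact Blk_num2 hC (by linarith) hy1 hn0.le (Nat.cast_nonneg _) hyH hye (by positivity) hP4
    hnum1 hcount

end Pool.Agent.H56.TI
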