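import Pool.Agent.H56.TI.Spc

/-!
# TI Diag: the diagonal part of `T4`

`q1 = q3`: `Tj K J q1 q2 q1 q4 = ∑_j fej(x1)² fej(x2) fej(x4) ≤ K² ∑_j fej(x1) fej(x2) ≤ 2 J K² Wk K (nz(x1 - x2))` (`fej_le`, `fej_grid2`), the other factor is `fej X (x2 - x4)`:
sum over `q4` (`spc_fej`, `β = x2`) `≤ 100 X`, over `q1` (`spc_wk`, `β = x2`) `≤ 100 P²`, over `q2` (`fr_card`) `≤ 2P²`: total `≤ 2·10^4·2 J K² P⁴ X`.
`q2 = q4` is the same by symmetry (exchange `(q1, q3)` and `(q2, q4)`; `fej X (x1 - x3)`).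
-/

set_option autoImplicit false

namespace Pool.Agent.H56.TI

open Finset
open Pool.Agent.H91.PK (ee)
open Pool.Agent.H35.W (pb)
open Pool.Agent.H53.MID (Bs nz)

private theorem Diag_Tj (K J : ℕ) (hK : 1 ≤ K) (hJ : K ≤ J) (q1 q2 q3 q4 : ℕ × ℕ) :
    Tj K J q1 q2 q3 q4 ≤ 2 * J * (K : ℝ) ^ 2 * Wk K (nz (xf q1 - xf q2)) := by
  unfold Tj
  calc ∑ j ∈ range J, fej K (xf q1 - j / J) * fej K (xf q2 - j / J) * fej K (xf q3 - j / J) * fej K (xf q4 - j / J)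
      ≤ ∑ j ∈ range J, (fej K (xf q1 - j / J) * fej K (xf q2 - j / J)) * (K : ℝ) ^ 2 := by
        refine Finset.sum_le_sum fun j _ => ?_
        have h1 := fej_nonneg K (xf q1 - j / J)
        have h2 := fej_nonneg K (xf q2 - j / J)
        have h3 := fej_nonneg K (xf q3 - j / J)
        have h4 := fej_nonneg K (xf q4 - j / J)
        have h3' := fej_le K (xf q3 - j / J)
        have h4' := fej_le K (xf q4 - j / J)
        have h5 : fej K (xf q3 - j / J) * fej K (xf q4 - j / J) ≤ (K : ℝ) * K :=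
          mul_le_mul h3' h4' h4 (Nat.cast_nonneg K)
        calc fej K (xf q1 - j / J) * fej K (xf q2 - j / J) * fej K (xf q3 - j / J) * fej K (xf q4 - j / J)
            = (fej K (xf q1 - j / J) * fej K (xf q2 - j / J)) *
                (fej K (xf q3 - j / J) * fej K (xf q4 - j / J)) := by ring
          _ ≤ (fej K (xf q1 - j / J) * fej K (xf q2 - j / J)) * ((K : ℝ) * K) :=
              mul_le_mul_of_nonneg_left h5 (mul_nonneg h1 h2)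
          _ = (fej K (xf q1 - j / J) * fej K (xf q2 - j / J)) * (K : ℝ) ^ 2 := by ring
    _ = (∑ j ∈ range J, fej K (xf q1 - j / J) * fej K (xf q2 - j / J)) * (K : ℝ) ^ 2 := by
        rw [Finset.sum_mul]
    _ ≤ (2 * J * Wk K (nz (xf q1 - xf q2))) * (K : ℝ) ^ 2 :=
        mul_le_mul_of_nonneg_right (fej_grid2 K J hK hJ _ _) (sq_nonneg _)
    _ = 2 * J * (K : ℝ) ^ 2 * Wk K (nz (xf q1 - xf q2)) := by ring

private theorem Diag_main (P K J X : ℕ) (hP : 1 ≤ P) (hK : 1 ≤ K) (hKP : K ≤ P ^ 2) :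
    ∑ q1 ∈ FR P, ∑ q2 ∈ FR P, (2 * J * (K : ℝ) ^ 2 * Wk K (nz (xf q1 - xf q2))) * (100 * X) ≤
    40000 * (K : ℝ) ^ 2 * J * P ^ 4 * X := by
  have h1 : ∀ q1 ∈ FR P, ∑ q2 ∈ FR P, (2 * J * (K : ℝ) ^ 2 * Wk K (nz (xf q1 - xf q2))) * (100 * X) ≤
      20000 * (K : ℝ) ^ 2 * J * P ^ 2 * X := by
    intro q1 _
    have h2 := spc_wk P K hP hK hKP (xf q1)
    calc ∑ q2 ∈ FR P, (2 * J * (K : ℝ) ^ 2 * Wk K (nz (xf q1 - xf q2))) * (100 * X)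
        = (200 * J * (K : ℝ) ^ 2 * X) * ∑ q2 ∈ FR P, Wk K (nz (xf q1 - xf q2)) := by
          rw [Finset.mul_sum]
          exact Finset.sum_congr rfl fun q _ => by ring
      _ ≤ (200 * J * (K : ℝ) ^ 2 * X) * (100 * P ^ 2) :=
          mul_le_mul_of_nonneg_left h2 (by positivity)
      _ = 20000 * (K : ℝ) ^ 2 * J * P ^ 2 * X := by ring
  calc ∑ q1 ∈ FR P, ∑ q2 ∈ FR P, (2 * J * (K : ℝ) ^ 2 * Wk K (nz (xf q1 - xf q2))) * (100 * X)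
      ≤ ∑ q1 ∈ FR P, 20000 * (K : ℝ) ^ 2 * J * P ^ 2 * X := Finset.sum_le_sum h1
    _ = ((FR P).card : ℝ) * (20000 * (K : ℝ) ^ 2 * J * P ^ 2 * X) := by
        rw [Finset.sum_const, nsmul_eq_mul]
    _ ≤ (2 * P ^ 2 : ℝ) * (20000 * (K : ℝ) ^ 2 * J * P ^ 2 * X) := by
        refine mul_le_mul_of_nonneg_right ?_ (by positivity)
        exact_mod_cast fr_card P
    _ = 40000 * (K : ℝ) ^ 2 * J * P ^ 4 * X := by ring

private theorem Diag_A (P K J X : ℕ) (hP : 1 ≤ P) (hK : 1 ≤ K) (hJ : K ≤ J) (hKP : K ≤ P ^ 2) (hX : P ^ 2 ≤ X) :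
    ∑ q1 ∈ FR P, ∑ q2 ∈ FR P, ∑ q4 ∈ FR P, Tj K J q1 q2 q1 q4 * fej X (xf q1 + xf q2 - xf q1 - xf q4) ≤
    40000 * (K : ℝ) ^ 2 * J * P ^ 4 * X := by
  refine le_trans ?_ (Diag_main P K J X hP hK hKP)
  refine Finset.sum_le_sum fun q1 _ => Finset.sum_le_sum fun q2 _ => ?_
  have hw : 0 ≤ 2 * J * (K : ℝ) ^ 2 * Wk K (nz (xf q1 - xf q2)) :=
    mul_nonneg (by positivity) (wk_nonneg K _)
  calc ∑ q4 ∈ FR P, Tj K J q1 q2 q1 q4 * fej X (xf q1 + xf q2 - xf q1 - xf q4)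
      ≤ ∑ q4 ∈ FR P, (2 * J * (K : ℝ) ^ 2 * Wk K (nz (xf q1 - xf q2))) * fej X (xf q2 - xf q4) := by
        refine Finset.sum_le_sum fun q4 _ => ?_
        have e : xf q1 + xf q2 - xf q1 - xf q4 = xf q2 - xf q4 := by ring
        rw [e]
        exact mul_le_mul_of_nonneg_right (Diag_Tj K J hK hJ q1 q2 q1 q4) (fej_nonneg X _)
    _ = (2 * J * (K : ℝ) ^ 2 * Wk K (nz (xf q1 - xf q2))) * ∑ q4 ∈ FR P, fej X (xf q2 - xf q4) := by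
        rw [Finset.mul_sum]
    _ ≤ (2 * J * (K : ℝ) ^ 2 * Wk K (nz (xf q1 - xf q2))) * (100 * X) :=
        mul_le_mul_of_nonneg_left (spc_fej P X hP hX (xf q2)) hw

private theorem Diag_B (P K J X : ℕ) (hP : 1 ≤ P) (hK : 1 ≤ K) (hJ : K ≤ J) (hKP : K ≤ P ^ 2) (hX : P ^ 2 ≤ X) :
    ∑ q1 ∈ FR P, ∑ q2 ∈ FR P, ∑ q3 ∈ FR P, Tj K J q1 q2 q3 q2 * fej X (xf q1 + xf q2 - xf q3 - xf q2) ≤
    40000 * (K : ℝ) ^ 2 * J * P ^ 4 * X := by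
  refine le_trans ?_ (Diag_main P K J X hP hK hKP)
  refine Finset.sum_le_sum fun q1 _ => Finset.sum_le_sum fun q2 _ => ?_
  have hw : 0 ≤ 2 * J * (K : ℝ) ^ 2 * Wk K (nz (xf q1 - xf q2)) :=
    mul_nonneg (by positivity) (wk_nonneg K _)
  calc ∑ q3 ∈ FR P, Tj K J q1 q2 q3 q2 * fej X (xf q1 + xf q2 - xf q3 - xf q2)
      ≤ ∑ q3 ∈ FR P, (2 * J * (K : ℝ) ^ 2 * Wk K (nz (xf q1 - xf q2))) * fej X (xf q1 - xf q3) := by
        refine Finset.sum_le_sum fun q3 _ => ?_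
        have e : xf q1 + xf q2 - xf q3 - xf q2 = xf q1 - xf q3 := by ring
        rw [e]
        exact mul_le_mul_of_nonneg_right (Diag_Tj K J hK hJ q1 q2 q3 q2) (fej_nonneg X _)
    _ = (2 * J * (K : ℝ) ^ 2 * Wk K (nz (xf q1 - xf q2))) * ∑ q3 ∈ FR P, fej X (xf q1 - xf q3) := by
        rw [Finset.mul_sum]
    _ ≤ (2 * J * (K : ℝ) ^ 2 * Wk K (nz (xf q1 - xf q2))) * (100 * X) :=
        mul_le_mul_of_nonneg_left (spc_fej P X hP hX (xf q1)) hw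

private theorem Diag_Tj_nonneg (K J : ℕ) (q1 q2 q3 q4 : ℕ × ℕ) : 0 ≤ Tj K J q1 q2 q3 q4 := by
  unfold Tj
  refine Finset.sum_nonneg fun j _ => ?_
  exact mul_nonneg (mul_nonneg (mul_nonneg (fej_nonneg _ _) (fej_nonneg _ _)) (fej_nonneg _ _)) (fej_nonneg _ _)

theorem diag_le (P K J X : ℕ) (hP : 1 ≤ P) (hK : 1 ≤ K) (hJ : K ≤ J) (hKP : K ≤ P ^ 2) (hX : P ^ 2 ≤ X) :
    ∑ q1 ∈ FR P, ∑ q2 ∈ FR P, ∑ q3 ∈ FR P, ∑ q4 ∈ FR P,
      (if q1 = q3 ∨ q2 = q4 then Tj K J q1 q2 q3 q4 * fej X (xf q1 + xf q2 - xf q3 - xf q4) else 0) ≤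
    100000 * (K : ℝ) ^ 2 * J * P ^ 4 * X := by
  have hA := Diag_A P K J X hP hK hJ hKP hX
  have hB := Diag_B P K J X hP hK hJ hKP hX
  have hn : ∀ q1 q2 q3 q4 : ℕ × ℕ, 0 ≤ Tj K J q1 q2 q3 q4 * fej X (xf q1 + xf q2 - xf q3 - xf q4) :=
    fun q1 q2 q3 q4 => mul_nonneg (Diag_Tj_nonneg K J q1 q2 q3 q4) (fej_nonneg X _)
  have h1 : ∑ q1 ∈ FR P, ∑ q2 ∈ FR P, ∑ q3 ∈ FR P, ∑ q4 ∈ FR P,
      (if q1 = q3 ∨ q2 = q4 then Tj K J q1 q2 q3 q4 * fej X (xf q1 + xf q2 - xf q3 - xf q4) else 0) ≤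
      ∑ q1 ∈ FR P, ∑ q2 ∈ FR P, ∑ q3 ∈ FR P, ∑ q4 ∈ FR P,
      ((if q1 = q3 then Tj K J q1 q2 q3 q4 * fej X (xf q1 + xf q2 - xf q3 - xf q4) else 0) +
       (if q2 = q4 then Tj K J q1 q2 q3 q4 * fej X (xf q1 + xf q2 - xf q3 - xf q4) else 0)) := by
    refine Finset.sum_le_sum fun q1 _ => Finset.sum_le_sum fun q2 _ => Finset.sum_le_sum fun q3 _ =>
      Finset.sum_le_sum fun q4 _ => ?_
    have h0 := hn q1 q2 q3 q4
    by_cases c1 : q1 = q3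
    · by_cases c2 : q2 = q4
      · rw [if_pos (Or.inl c1), if_pos c1, if_pos c2]
        linarith
      · rw [if_pos (Or.inl c1), if_pos c1, if_neg c2]
        linarith
    · by_cases c2 : q2 = q4
      · rw [if_pos (Or.inr c2), if_neg c1, if_pos c2]
        linarith
      · rw [if_neg (by tauto), if_neg c1, if_neg c2]
        linarith
  have h2 : ∑ q1 ∈ FR P, ∑ q2 ∈ FR P, ∑ q3 ∈ FR P, ∑ q4 ∈ FR P,
      (if q1 = q3 then Tj K J q1 q2 q3 q4 * fej X (xf q1 + xf q2 - xf q3 - xf q4) else 0) =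
      ∑ q1 ∈ FR P, ∑ q2 ∈ FR P, ∑ q4 ∈ FR P, Tj K J q1 q2 q1 q4 * fej X (xf q1 + xf q2 - xf q1 - xf q4) := by
    refine Finset.sum_congr rfl fun q1 h1q => Finset.sum_congr rfl fun q2 _ => ?_
    rw [Finset.sum_eq_single q1]
    · exact Finset.sum_congr rfl fun q4 _ => by rw [if_pos rfl]
    · intro b _ hb
      exact Finset.sum_eq_zero fun q4 _ => by rw [if_neg (fun h => hb h.symm)]
    · intro h
      exact absurd h1q h
  have h3 : ∑ q1 ∈ FR P, ∑ q2 ∈ FR P, ∑ q3 ∈ FR P, ∑ q4 ∈ FR P,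
      (if q2 = q4 then Tj K J q1 q2 q3 q4 * fej X (xf q1 + xf q2 - xf q3 - xf q4) else 0) =
      ∑ q1 ∈ FR P, ∑ q2 ∈ FR P, ∑ q3 ∈ FR P, Tj K J q1 q2 q3 q2 * fej X (xf q1 + xf q2 - xf q3 - xf q2) := by
    refine Finset.sum_congr rfl fun q1 _ => Finset.sum_congr rfl fun q2 h2q =>
      Finset.sum_congr rfl fun q3 _ => ?_
    rw [Finset.sum_eq_single q2]
    · rw [if_pos rfl]
    · intro b _ hb
      rw [if_neg (fun h => hb h.symm)]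
    · intro h
      exact absurd h2q h
  have h4 : ∑ q1 ∈ FR P, ∑ q2 ∈ FR P, ∑ q3 ∈ FR P, ∑ q4 ∈ FR P,
      ((if q1 = q3 then Tj K J q1 q2 q3 q4 * fej X (xf q1 + xf q2 - xf q3 - xf q4) else 0) +
       (if q2 = q4 then Tj K J q1 q2 q3 q4 * fej X (xf q1 + xf q2 - xf q3 - xf q4) else 0)) =
      (∑ q1 ∈ FR P, ∑ q2 ∈ FR P, ∑ q3 ∈ FR P, ∑ q4 ∈ FR P,
      (if q1 = q3 then Tj K J q1 q2 q3 q4 * fej X (xf q1 + xf q2 - xf q3 - xf q4) else 0)) +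
      ∑ q1 ∈ FR P, ∑ q2 ∈ FR P, ∑ q3 ∈ FR P, ∑ q4 ∈ FR P,
       (if q2 = q4 then Tj K J q1 q2 q3 q4 * fej X (xf q1 + xf q2 - xf q3 - xf q4) else 0) := by
    simp only [Finset.sum_add_distrib]
  rw [h4, h2, h3] at h1
  have h5 : (0 : ℝ) ≤ (K : ℝ) ^ 2 * J * P ^ 4 * X := by positivity
  linarith

end Pool.Agent.H56.TI
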