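import Pool.Agent.H56.TI.Cnt

/-!
# TI Off: the off-diagonal part of `T4`

`q1 ≠ q3`, `q2 ≠ q4`: `Tj ≤ K² ∑_j fej(x1) fej(x3) ≤ 2 J K² Wk K (nz(x1 - x3))` (`fej_le` for `x2, x4`, `fej_grid2`), and `fej X (x1+x2-x3-x4) ≤ Wk X (nz((x1-x3) - (x4-x2)))` (`fej_le_W`).
`wk_dyad` for both: `Wk K (nz γ) ≤ ∑_{s' ≤ log K} 4K 4^(-s') 1[nz γ ≤ 2^s'/K]`, `Wk X (nz(γ-γ')) ≤ ∑_{s ≤ log X} 4X 4^(-s) 1[nz(γ-γ') ≤ 2^s/X]`; `cnt` with `G = 2^s'/K ≤ 1`, `ρ = 2^s/X ≤ 1`: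
`∑ ≤ 2 J K² · 16 K X · C P⁴ ∑_{s,s'} 4^(-s-s') (2^s'/K + 2^s/X)(1 + 2^s P⁴/X)`.
`∑_{s,s'} 4^(-s-s') (2^s'/K)(1 + 2^s P⁴/X) ≤ (2/K)(4/3 + 2P⁴/X)`; `∑_{s,s'} 4^(-s-s') (2^s/X)(1 + 2^s P⁴/X) ≤ (4/3)(1/X)(2 + (log₂ X + 1) P⁴/X)`, and `(log₂X + 1) K/X ≤ 10` for `K² ≤ X`.
Total `≤ C' J K² P⁴ (X + P⁴)`.
-/

set_option autoImplicit false

namespace Pool.Agent.H56.TI

open Finset
open Pool.Agent.H91.PK (ee)
open Pool.Agent.H35.W (pb)
open Pool.Agent.H53.MID (Bs nz)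

private theorem off_log (n : ℕ) : (n + 1) ^ 2 ≤ 3 * 2 ^ n := by
  induction n with
  | zero => norm_num
  | succ k ih =>
    rcases Nat.lt_or_ge k 2 with h | h
    · interval_cases k <;> norm_num
    · rw [pow_succ 2 k]
      nlinarith

private theorem off_geo2 (n : ℕ) : ∑ s ∈ range n, (1 / (2 : ℝ) ^ s) ≤ 2 := by
  have h : ∑ s ∈ range n, (1 / (2 : ℝ) ^ s) = 2 - 2 / 2 ^ n := by
    induction n with
    | zero => norm_num
    | succ k ih =>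
      rw [sum_range_succ, ih, pow_succ]
      have : (0 : ℝ) < 2 ^ k := by positivity
      field_simp
      ring
  rw [h]
  have : (0 : ℝ) < 2 / 2 ^ n := by positivity
  linarith

private theorem off_geo4 (n : ℕ) : ∑ s ∈ range n, (1 / (4 : ℝ) ^ s) ≤ 2 := by
  refine le_trans (sum_le_sum ?_) (off_geo2 n)
  intro s _
  apply one_div_le_one_div_of_le (by positivity)
  exact pow_le_pow_left₀ (by norm_num) (by norm_num) s

/-- the numerical double sum -/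
private theorem off_num (K X : ℕ) (hK : 1 ≤ K) (hX : K ^ 2 ≤ X) (Q : ℝ) (hQ : 0 ≤ Q) :
    ∑ s' ∈ range (Nat.log 2 K + 1), ∑ s ∈ range (Nat.log 2 X + 1),
      (16 * (K : ℝ) * X / 4 ^ (s' + s)) * (((2 : ℝ) ^ s' / K + 2 ^ s / X) * (1 + 2 ^ s / X * Q)) ≤
    16 * (8 * (X + Q)) := by
  have hK0 : (0 : ℝ) < K := by exact_mod_cast hK
  have hX1 : 1 ≤ X := le_trans (Nat.one_le_pow _ _ hK) hX
  have hX0 : (0 : ℝ) < X := by exact_mod_cast hX1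
  have hKX : (K : ℝ) ^ 2 ≤ X := by exact_mod_cast hX
  have hKX1 : (K : ℝ) ≤ X := by
    have h1 : (1 : ℝ) ≤ K := by exact_mod_cast hK
    nlinarith
  set L : ℕ := Nat.log 2 X + 1 with hL
  have hL2 : ((L : ℝ)) ^ 2 ≤ 3 * X := by
    have h1 := off_log (Nat.log 2 X)
    have h2 : 2 ^ Nat.log 2 X ≤ X := Nat.pow_log_le_self 2 (by omega)
    have h3 : L ^ 2 ≤ 3 * X := by
      rw [hL]
      omega
    exact_mod_cast h3
  have hKL : (K : ℝ) * L ≤ 2 * X := by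
    have h1 : ((K : ℝ) * L) ^ 2 ≤ (2 * X) ^ 2 := by
      have h2 : ((K : ℝ) * L) ^ 2 = K ^ 2 * L ^ 2 := by ring
      rw [h2]
      have h3 : (K : ℝ) ^ 2 * L ^ 2 ≤ X * (3 * X) := by
        apply mul_le_mul hKX hL2 (by positivity) (by positivity)
      nlinarith
    exact le_of_sq_le_sq h1 (by positivity)
  -- each term
  have hterm : ∀ s' s : ℕ, (16 * (K : ℝ) * X / 4 ^ (s' + s)) * (((2 : ℝ) ^ s' / K + 2 ^ s / X) * (1 + 2 ^ s / X * Q)) =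
      16 * ((1 / 2 ^ s') * (X * (1 / 4 ^ s) + Q * (1 / 2 ^ s)) + (1 / 4 ^ s') * (K * (1 / 2 ^ s) + K * Q / X)) := by
    intro s' s
    have h4 : ∀ n : ℕ, (4 : ℝ) ^ n = 2 ^ n * 2 ^ n := by
      intro n
      rw [← mul_pow]
      norm_num
    rw [pow_add, h4 s', h4 s]
    have ha : (0 : ℝ) < 2 ^ s' := by positivity
    have hb : (0 : ℝ) < 2 ^ s := by positivity
    field_simp
  simp_rw [hterm]
  have hsum : ∀ s' : ℕ, ∑ s ∈ range L, 16 * ((1 / (2 : ℝ) ^ s') * (X * (1 / 4 ^ s) + Q * (1 / 2 ^ s)) + (1 / 4 ^ s') * (K * (1 / 2 ^ s) + K * Q / X)) ≤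
      16 * ((1 / (2 : ℝ) ^ s') * (2 * X + 2 * Q) + (1 / 4 ^ s') * (2 * X + 2 * Q)) := by
    intro s'
    rw [← mul_sum]
    apply mul_le_mul_of_nonneg_left _ (by norm_num)
    rw [sum_add_distrib, ← mul_sum, ← mul_sum, sum_add_distrib, sum_add_distrib, ← mul_sum, ← mul_sum, ← mul_sum, sum_const, card_range, nsmul_eq_mul]
    have g2 := off_geo2 L
    have g4 := off_geo4 L
    have e1 : (X : ℝ) * ∑ s ∈ range L, (1 / (4 : ℝ) ^ s) ≤ X * 2 := mul_le_mul_of_nonneg_left g4 hX0.le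
    have e2 : Q * ∑ s ∈ range L, (1 / (2 : ℝ) ^ s) ≤ Q * 2 := mul_le_mul_of_nonneg_left g2 hQ
    have e3 : (K : ℝ) * ∑ s ∈ range L, (1 / (2 : ℝ) ^ s) ≤ K * 2 := mul_le_mul_of_nonneg_left g2 hK0.le
    have e4 : (L : ℝ) * (K * Q / X) ≤ 2 * Q := by
      have : (L : ℝ) * (K * Q / X) = (K * L) / X * Q := by ring
      rw [this]
      apply mul_le_mul_of_nonneg_right _ hQ
      rw [div_le_iff₀ hX0]
      exact hKL
    apply add_le_add
    · apply mul_le_mul_of_nonneg_left _ (by positivity)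
      linarith
    · apply mul_le_mul_of_nonneg_left _ (by positivity)
      linarith
  refine (sum_le_sum fun s' _ => hsum s').trans ?_
  rw [← mul_sum]
  apply mul_le_mul_of_nonneg_left _ (by norm_num)
  rw [sum_add_distrib, ← sum_mul, ← sum_mul]
  have g2 := off_geo2 (Nat.log 2 K + 1)
  have g4 := off_geo4 (Nat.log 2 K + 1)
  have hpos : (0 : ℝ) ≤ 2 * X + 2 * Q := by positivity
  nlinarith [mul_le_mul_of_nonneg_right g2 hpos, mul_le_mul_of_nonneg_right g4 hpos]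

private theorem off_Tj (K J : ℕ) (hK : 1 ≤ K) (hJ : K ≤ J) (q1 q2 q3 q4 : ℕ × ℕ) :
    Tj K J q1 q2 q3 q4 ≤ 2 * J * K ^ 2 * Wk K (nz (xf q1 - xf q3)) := by
  unfold Tj
  have h1 : ∑ j ∈ range J, fej K (xf q1 - j / J) * fej K (xf q2 - j / J) * fej K (xf q3 - j / J) * fej K (xf q4 - j / J) ≤
      ∑ j ∈ range J, (K : ℝ) ^ 2 * (fej K (xf q1 - j / J) * fej K (xf q3 - j / J)) := by
    apply sum_le_sum
    intro j _
    have a1 := fej_nonneg K (xf q1 - j / J)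
    have a2 := fej_nonneg K (xf q2 - j / J)
    have a3 := fej_nonneg K (xf q3 - j / J)
    have a4 := fej_nonneg K (xf q4 - j / J)
    have b2 := fej_le K (xf q2 - j / J)
    have b4 := fej_le K (xf q4 - j / J)
    have e1 : fej K (xf q1 - j / J) * fej K (xf q2 - j / J) * fej K (xf q3 - j / J) * fej K (xf q4 - j / J) =
        (fej K (xf q2 - j / J) * fej K (xf q4 - j / J)) * (fej K (xf q1 - j / J) * fej K (xf q3 - j / J)) := by ring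
    rw [e1]
    apply mul_le_mul_of_nonneg_right _ (mul_nonneg a1 a3)
    calc fej K (xf q2 - j / J) * fej K (xf q4 - j / J) ≤ K * K := mul_le_mul b2 b4 a4 (Nat.cast_nonneg K)
      _ = (K : ℝ) ^ 2 := by ring
  refine h1.trans ?_
  rw [← mul_sum]
  have h2 := fej_grid2 K J hK hJ (xf q1) (xf q3)
  have h3 := mul_le_mul_of_nonneg_left h2 (by positivity : (0 : ℝ) ≤ (K : ℝ) ^ 2)
  refine h3.trans (le_of_eq ?_)
  ring

open Classical in
private theorem off_pt (K J X : ℕ) (hK : 1 ≤ K) (hJ : K ≤ J) (hX : K ^ 2 ≤ X) (q1 q2 q3 q4 : ℕ × ℕ) :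
    (if q1 = q3 ∨ q2 = q4 then 0 else Tj K J q1 q2 q3 q4 * fej X (xf q1 + xf q2 - xf q3 - xf q4)) ≤
    2 * J * K ^ 2 * ∑ s' ∈ range (Nat.log 2 K + 1), ∑ s ∈ range (Nat.log 2 X + 1),
      if (q1 ≠ q3 ∧ q4 ≠ q2 ∧ nz (xf q1 - xf q3) ≤ 2 ^ s' / K ∧ nz ((xf q1 - xf q3) - (xf q4 - xf q2)) ≤ 2 ^ s / X)
        then 16 * (K : ℝ) * X / 4 ^ (s' + s) else 0 := by
  have hX1 : 1 ≤ X := le_trans (Nat.one_le_pow _ _ hK) hX
  by_cases h : q1 = q3 ∨ q2 = q4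
  · rw [if_pos h]
    apply mul_nonneg (by positivity)
    apply sum_nonneg
    intro s' _
    apply sum_nonneg
    intro s _
    split_ifs
    · positivity
    · exact le_refl _
  · rw [if_neg h]
    rw [not_or] at h
    obtain ⟨h13, h24⟩ := h
    have hT := off_Tj K J hK hJ q1 q2 q3 q4
    have hF := fej_le_W X hX1 (xf q1 + xf q2 - xf q3 - xf q4)
    have e : xf q1 + xf q2 - xf q3 - xf q4 = (xf q1 - xf q3) - (xf q4 - xf q2) := by ring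
    rw [e] at hF ⊢
    have hF0 := fej_nonneg X ((xf q1 - xf q3) - (xf q4 - xf q2))
    have hW1 := wk_dyad K hK (nz (xf q1 - xf q3)) (Pool.Agent.H53.MID.nz_nonneg _) (Pool.Agent.H53.MID.nz_le_half _)
    have hW2 := wk_dyad X hX1 (nz ((xf q1 - xf q3) - (xf q4 - xf q2))) (Pool.Agent.H53.MID.nz_nonneg _) (Pool.Agent.H53.MID.nz_le_half _)
    have hW10 := wk_nonneg K (nz (xf q1 - xf q3))
    have hW20 := wk_nonneg X (nz ((xf q1 - xf q3) - (xf q4 - xf q2)))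
    calc Tj K J q1 q2 q3 q4 * fej X ((xf q1 - xf q3) - (xf q4 - xf q2))
        ≤ (2 * J * K ^ 2 * Wk K (nz (xf q1 - xf q3))) * Wk X (nz ((xf q1 - xf q3) - (xf q4 - xf q2))) := by
          apply mul_le_mul hT hF hF0
          apply mul_nonneg (by positivity) hW10
      _ = 2 * J * K ^ 2 * (Wk K (nz (xf q1 - xf q3)) * Wk X (nz ((xf q1 - xf q3) - (xf q4 - xf q2)))) := by ring
      _ ≤ _ := by
          apply mul_le_mul_of_nonneg_left _ (by positivity)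
          refine (mul_le_mul hW1 hW2 hW20 (hW10.trans hW1)).trans (le_of_eq ?_)
          rw [sum_mul_sum]
          apply sum_congr rfl
          intro s' _
          apply sum_congr rfl
          intro s _
          have h42 : q4 ≠ q2 := fun h => h24 h.symm
          by_cases c1 : nz (xf q1 - xf q3) ≤ 2 ^ s' / K
          · by_cases c2 : nz ((xf q1 - xf q3) - (xf q4 - xf q2)) ≤ 2 ^ s / X
            · rw [if_pos c1, if_pos c2, if_pos ⟨h13, h42, c1, c2⟩, pow_add]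
              have ha : (0 : ℝ) < 4 ^ s' := by positivity
              have hb : (0 : ℝ) < 4 ^ s := by positivity
              field_simp
              ring
            · rw [if_neg c2, mul_zero, if_neg (fun hh => c2 hh.2.2.2)]
          · rw [if_neg c1, zero_mul, if_neg (fun hh => c1 hh.2.2.1)]

theorem off_le : ∃ C : ℝ, 0 < C ∧ ∀ (P K J X : ℕ), 20 ≤ P → 1 ≤ K → K ≤ J → K ^ 2 ≤ X →
    ∑ q1 ∈ FR P, ∑ q2 ∈ FR P, ∑ q3 ∈ FR P, ∑ q4 ∈ FR P,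
      (if q1 = q3 ∨ q2 = q4 then 0 else Tj K J q1 q2 q3 q4 * fej X (xf q1 + xf q2 - xf q3 - xf q4)) ≤
    C * (K : ℝ) ^ 2 * J * P ^ 4 * (X + (P : ℝ) ^ 4) := by
  classical
  obtain ⟨C, hC, hcnt⟩ := cnt
  refine ⟨256 * C, by positivity, ?_⟩
  intro P K J X hP hK hJ hX
  have hX1 : 1 ≤ X := le_trans (Nat.one_le_pow _ _ hK) hX
  have hK0 : (0 : ℝ) < K := by exact_mod_cast hK
  have hX0 : (0 : ℝ) < X := by exact_mod_cast hX1
  -- pointwise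
  have h1 : ∑ q1 ∈ FR P, ∑ q2 ∈ FR P, ∑ q3 ∈ FR P, ∑ q4 ∈ FR P,
      (if q1 = q3 ∨ q2 = q4 then 0 else Tj K J q1 q2 q3 q4 * fej X (xf q1 + xf q2 - xf q3 - xf q4)) ≤
      ∑ q1 ∈ FR P, ∑ q2 ∈ FR P, ∑ q3 ∈ FR P, ∑ q4 ∈ FR P,
      2 * J * K ^ 2 * ∑ s' ∈ range (Nat.log 2 K + 1), ∑ s ∈ range (Nat.log 2 X + 1),
      (if (q1 ≠ q3 ∧ q4 ≠ q2 ∧ nz (xf q1 - xf q3) ≤ 2 ^ s' / K ∧ nz ((xf q1 - xf q3) - (xf q4 - xf q2)) ≤ 2 ^ s / X)
        then 16 * (K : ℝ) * X / 4 ^ (s' + s) else 0) := by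
    apply sum_le_sum; intro q1 _
    apply sum_le_sum; intro q2 _
    apply sum_le_sum; intro q3 _
    apply sum_le_sum; intro q4 _
    exact off_pt K J X hK hJ hX q1 q2 q3 q4
  refine h1.trans ?_
  -- rearrange
  have h2 : ∑ q1 ∈ FR P, ∑ q2 ∈ FR P, ∑ q3 ∈ FR P, ∑ q4 ∈ FR P,
      2 * J * K ^ 2 * ∑ s' ∈ range (Nat.log 2 K + 1), ∑ s ∈ range (Nat.log 2 X + 1),
      (if (q1 ≠ q3 ∧ q4 ≠ q2 ∧ nz (xf q1 - xf q3) ≤ 2 ^ s' / K ∧ nz ((xf q1 - xf q3) - (xf q4 - xf q2)) ≤ 2 ^ s / X)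
        then 16 * (K : ℝ) * X / 4 ^ (s' + s) else 0) =
      ∑ t ∈ (FR P ×ˢ FR P) ×ˢ (FR P ×ˢ FR P),
      2 * J * K ^ 2 * ∑ s' ∈ range (Nat.log 2 K + 1), ∑ s ∈ range (Nat.log 2 X + 1),
      (if (t.1.1 ≠ t.1.2 ∧ t.2.1 ≠ t.2.2 ∧ nz (xf t.1.1 - xf t.1.2) ≤ 2 ^ s' / K ∧
          nz ((xf t.1.1 - xf t.1.2) - (xf t.2.1 - xf t.2.2)) ≤ 2 ^ s / X)
        then 16 * (K : ℝ) * X / 4 ^ (s' + s) else 0) := by
    rw [sum_product, sum_product]
    apply sum_congr rfl; intro q1 _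
    rw [sum_comm]
    apply sum_congr rfl; intro q3 _
    rw [sum_product, sum_comm]
  rw [h2, ← mul_sum]
  have h3 : ∑ t ∈ (FR P ×ˢ FR P) ×ˢ (FR P ×ˢ FR P),
      ∑ s' ∈ range (Nat.log 2 K + 1), ∑ s ∈ range (Nat.log 2 X + 1),
      (if (t.1.1 ≠ t.1.2 ∧ t.2.1 ≠ t.2.2 ∧ nz (xf t.1.1 - xf t.1.2) ≤ 2 ^ s' / K ∧
          nz ((xf t.1.1 - xf t.1.2) - (xf t.2.1 - xf t.2.2)) ≤ 2 ^ s / X)
        then 16 * (K : ℝ) * X / 4 ^ (s' + s) else 0) ≤ C * P ^ 4 * (16 * (8 * (X + (P : ℝ) ^ 4))) := by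
    rw [sum_comm]
    have h4 : ∀ s' ∈ range (Nat.log 2 K + 1), ∑ t ∈ (FR P ×ˢ FR P) ×ˢ (FR P ×ˢ FR P), ∑ s ∈ range (Nat.log 2 X + 1),
      (if (t.1.1 ≠ t.1.2 ∧ t.2.1 ≠ t.2.2 ∧ nz (xf t.1.1 - xf t.1.2) ≤ 2 ^ s' / K ∧
          nz ((xf t.1.1 - xf t.1.2) - (xf t.2.1 - xf t.2.2)) ≤ 2 ^ s / X)
        then 16 * (K : ℝ) * X / 4 ^ (s' + s) else 0) ≤
      ∑ s ∈ range (Nat.log 2 X + 1), C * P ^ 4 * ((16 * (K : ℝ) * X / 4 ^ (s' + s)) *
        (((2 : ℝ) ^ s' / K + 2 ^ s / X) * (1 + 2 ^ s / X * (P : ℝ) ^ 4))) := by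
      intro s' hs'
      rw [sum_comm]
      apply sum_le_sum
      intro s hs
      rw [← sum_filter, sum_const, nsmul_eq_mul]
      have hG1 : (2 : ℝ) ^ s' / K ≤ 1 := by
        rw [div_le_one hK0]
        have h5 : 2 ^ s' ≤ K := by
          have h6 : s' ≤ Nat.log 2 K := by
            have := mem_range.mp hs'
            omega
          exact (Nat.pow_le_pow_right (by norm_num) h6).trans (Nat.pow_log_le_self 2 (by omega))
        exact_mod_cast h5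
      have hR1 : (2 : ℝ) ^ s / X ≤ 1 := by
        rw [div_le_one hX0]
        have h5 : 2 ^ s ≤ X := by
          have h6 : s ≤ Nat.log 2 X := by
            have := mem_range.mp hs
            omega
          exact (Nat.pow_le_pow_right (by norm_num) h6).trans (Nat.pow_log_le_self 2 (by omega))
        exact_mod_cast h5
      have hc := hcnt P ((2 : ℝ) ^ s' / K) ((2 : ℝ) ^ s / X) hP (by positivity) hG1 (by positivity) hR1
      have hc2 := mul_le_mul_of_nonneg_right hc (by positivity : (0 : ℝ) ≤ 16 * (K : ℝ) * X / 4 ^ (s' + s))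
      refine hc2.trans (le_of_eq ?_)
      ring
    refine (sum_le_sum h4).trans ?_
    simp_rw [← mul_sum]
    apply mul_le_mul_of_nonneg_left _ (by positivity)
    exact off_num K X hK hX ((P : ℝ) ^ 4) (by positivity)
  refine (mul_le_mul_of_nonneg_left h3 (by positivity)).trans (le_of_eq ?_)
  ring

end Pool.Agent.H56.TI
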