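import Pool.Agent.H56.TI.Fej

/-!
# TI Pos: positive definite majorants

* `pos2`: expand the square: `∑_x (1 - |x|/X) ∑_{q,q'} c_q conj(c_q') ee(x(β_q - β_q')) = ∑_{q,q'} c_q conj(c_q') fej X (β_q - β_q')` (`fej_exp`), take absolute values (`fej ≥ 0`).
* `pos4`: `‖S‖^4 = ‖S²‖²`, `S² = ∑_{(q1,q2)} c_q1 c_q2 ee(x(β_q1 + β_q2))`: `pos2` for the pairs.
-/

set_option autoImplicit false

namespace Pool.Agent.H56.TI

open Finset
open Pool.Agent.H91.PK (ee)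
open Pool.Agent.H35.W (pb)
open Pool.Agent.H53.MID (Bs nz)

theorem pos_sq {ι : Type*} (s : Finset ι) (c : ι → ℂ) (β : ι → ℝ) (x : ℤ) :
    ((‖∑ q ∈ s, c q * ee (x * β q)‖ ^ 2 : ℝ) : ℂ) =
      ∑ q ∈ s, ∑ q' ∈ s, c q * (starRingEnd ℂ) (c q') * ee (x * (β q - β q')) := by
  rw [Complex.ofReal_pow, ← Complex.mul_conj', map_sum, Finset.sum_mul_sum]
  refine Finset.sum_congr rfl fun q _ => Finset.sum_congr rfl fun q' _ => ?_
  rw [map_mul, Pool.Agent.H91.PK.LSa_conj_ee]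
  have h : (x : ℝ) * (β q - β q') = x * β q + -(x * β q') := by ring
  rw [h, Pool.Agent.H91.PK.LSa_ee_add]
  ring

theorem pos2 {ι : Type*} (s : Finset ι) (c : ι → ℂ) (β : ι → ℝ) (X : ℕ) (hX : 1 ≤ X) :
    ∑ x ∈ Ioo (-(X : ℤ)) X, (1 - |(x : ℝ)| / X) * ‖∑ q ∈ s, c q * ee (x * β q)‖ ^ 2 ≤
      ∑ q ∈ s, ∑ q' ∈ s, ‖c q‖ * ‖c q'‖ * fej X (β q - β q') := by
  have hc : ((∑ x ∈ Ioo (-(X : ℤ)) X, (1 - |(x : ℝ)| / X) * ‖∑ q ∈ s, c q * ee (x * β q)‖ ^ 2 : ℝ) : ℂ) =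
      ∑ q ∈ s, ∑ q' ∈ s, c q * (starRingEnd ℂ) (c q') * ((fej X (β q - β q') : ℝ) : ℂ) := by
    rw [Complex.ofReal_sum]
    have h1 : ∀ x : ℤ, (((1 - |(x : ℝ)| / X) * ‖∑ q ∈ s, c q * ee (x * β q)‖ ^ 2 : ℝ) : ℂ) =
        ∑ q ∈ s, ∑ q' ∈ s, c q * (starRingEnd ℂ) (c q') *
          (((1 - |(x : ℝ)| / X : ℝ) : ℂ) * ee (x * (β q - β q'))) := by
      intro x
      rw [Complex.ofReal_mul, pos_sq, Finset.mul_sum]
      refine Finset.sum_congr rfl fun q _ => ?_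
      rw [Finset.mul_sum]
      refine Finset.sum_congr rfl fun q' _ => ?_
      ring
    rw [Finset.sum_congr rfl fun x _ => h1 x, Finset.sum_comm]
    refine Finset.sum_congr rfl fun q _ => ?_
    rw [Finset.sum_comm]
    refine Finset.sum_congr rfl fun q' _ => ?_
    rw [fej_exp X hX, Finset.mul_sum]
  refine (le_abs_self _).trans ?_
  rw [← Real.norm_eq_abs, ← Complex.norm_real, hc]
  refine (norm_sum_le _ _).trans (Finset.sum_le_sum fun q _ => ?_)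
  refine (norm_sum_le _ _).trans (Finset.sum_le_sum fun q' _ => ?_)
  rw [norm_mul, norm_mul, RCLike.norm_conj, Complex.norm_real, Real.norm_eq_abs, abs_of_nonneg (fej_nonneg _ _)]

theorem pos4 {ι : Type*} (s : Finset ι) (c : ι → ℂ) (β : ι → ℝ) (X : ℕ) (hX : 1 ≤ X) :
    ∑ x ∈ Ioo (-(X : ℤ)) X, (1 - |(x : ℝ)| / X) * ‖∑ q ∈ s, c q * ee (x * β q)‖ ^ 4 ≤
      ∑ q1 ∈ s, ∑ q2 ∈ s, ∑ q3 ∈ s, ∑ q4 ∈ s, ‖c q1‖ * ‖c q2‖ * ‖c q3‖ * ‖c q4‖ *
        fej X (β q1 + β q2 - β q3 - β q4) := by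
  have h0 := pos2 (s ×ˢ s) (fun r => c r.1 * c r.2) (fun r => β r.1 + β r.2) X hX
  have hl : ∀ x : ℤ, ‖∑ q ∈ s, c q * ee (x * β q)‖ ^ 4 =
      ‖∑ r ∈ s ×ˢ s, c r.1 * c r.2 * ee (x * (β r.1 + β r.2))‖ ^ 2 := by
    intro x
    have h1 : ∑ r ∈ s ×ˢ s, c r.1 * c r.2 * ee (x * (β r.1 + β r.2)) =
        (∑ q ∈ s, c q * ee (x * β q)) * (∑ q ∈ s, c q * ee (x * β q)) := by
      rw [Finset.sum_mul_sum, Finset.sum_product]
      refine Finset.sum_congr rfl fun q _ => Finset.sum_congr rfl fun q' _ => ?_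
      have h : (x : ℝ) * (β q + β q') = x * β q + x * β q' := by ring
      simp only []
      rw [h, Pool.Agent.H91.PK.LSa_ee_add]
      ring
    rw [h1, norm_mul]
    ring
  rw [Finset.sum_congr rfl fun x _ => by rw [hl x]]
  refine h0.trans (le_of_eq ?_)
  rw [Finset.sum_product]
  refine Finset.sum_congr rfl fun q1 _ => Finset.sum_congr rfl fun q2 _ => ?_
  rw [Finset.sum_product]
  refine Finset.sum_congr rfl fun q3 _ => Finset.sum_congr rfl fun q4 _ => ?_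
  simp only []
  rw [norm_mul, norm_mul, sub_add_eq_sub_sub]
  ring

/-- the fourth moment of `SF` is at most `P^(-4) T4` -/
theorem m4_le (P K J X : ℕ) (w : ℕ → ℝ) (hw : ∀ p, |w p| ≤ 1) (hP : 1 ≤ P) (hX : 1 ≤ X) :
    ∑ x ∈ Ioo (-(X : ℤ)) X, (1 - |(x : ℝ)| / X) * ∑ j ∈ range J, ‖SF P K w (j / J) x‖ ^ 4 ≤
      T4 P K J X / (P : ℝ) ^ 4 := by
  have hP0 : (0 : ℝ) < P := by exact_mod_cast hP
  have hq : ∀ (j : ℕ), ∀ q ∈ FR P, ‖((w q.1 / q.1 * fej K (xf q - j / J) : ℝ) : ℂ)‖ ≤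
      fej K (xf q - j / J) / P := by
    intro j q hq
    have h1 : q.1 ∈ pb P := by
      have := (Finset.mem_filter.1 hq).1
      exact (Finset.mem_product.1 this).1
    have h2 : P < q.1 := (Finset.mem_Ioc.1 (Finset.mem_filter.1 h1).1).1
    have h3 : (P : ℝ) ≤ q.1 := by exact_mod_cast h2.le
    have hf := fej_nonneg K (xf q - j / J)
    rw [Complex.norm_real, Real.norm_eq_abs, abs_mul, abs_div, abs_of_nonneg hf, Nat.abs_cast]
    have h4 : |w q.1| / q.1 ≤ 1 / P := div_le_div₀ zero_le_one (hw _) hP0 h3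
    calc |w q.1| / q.1 * fej K (xf q - j / J) ≤ 1 / P * fej K (xf q - j / J) :=
          mul_le_mul_of_nonneg_right h4 hf
      _ = _ := by ring
  have hj : ∀ j : ℕ, ∑ x ∈ Ioo (-(X : ℤ)) X, (1 - |(x : ℝ)| / X) * ‖SF P K w (j / J) x‖ ^ 4 ≤
      ∑ q1 ∈ FR P, ∑ q2 ∈ FR P, ∑ q3 ∈ FR P, ∑ q4 ∈ FR P,
        (fej K (xf q1 - j / J) / P) * (fej K (xf q2 - j / J) / P) * (fej K (xf q3 - j / J) / P) *
          (fej K (xf q4 - j / J) / P) * fej X (xf q1 + xf q2 - xf q3 - xf q4) := by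
    intro j
    refine (pos4 (FR P) (fun q => ((w q.1 / q.1 * fej K (xf q - j / J) : ℝ) : ℂ)) xf X hX).trans ?_
    refine Finset.sum_le_sum fun q1 h1 => Finset.sum_le_sum fun q2 h2 =>
      Finset.sum_le_sum fun q3 h3 => Finset.sum_le_sum fun q4 h4 => ?_
    refine mul_le_mul_of_nonneg_right ?_ (fej_nonneg _ _)
    have f1 := div_nonneg (fej_nonneg K (xf q1 - j / J)) hP0.le
    have f2 := div_nonneg (fej_nonneg K (xf q2 - j / J)) hP0.le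
    have f3 := div_nonneg (fej_nonneg K (xf q3 - j / J)) hP0.le
    have f4 := div_nonneg (fej_nonneg K (xf q4 - j / J)) hP0.le
    exact mul_le_mul (mul_le_mul (mul_le_mul (hq j q1 h1) (hq j q2 h2) (norm_nonneg _) f1) (hq j q3 h3)
      (norm_nonneg _) (mul_nonneg f1 f2)) (hq j q4 h4) (norm_nonneg _) (mul_nonneg (mul_nonneg f1 f2) f3)
  have hswap : ∑ x ∈ Ioo (-(X : ℤ)) X, (1 - |(x : ℝ)| / X) * ∑ j ∈ range J, ‖SF P K w (j / J) x‖ ^ 4 =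
      ∑ j ∈ range J, ∑ x ∈ Ioo (-(X : ℤ)) X, (1 - |(x : ℝ)| / X) * ‖SF P K w (j / J) x‖ ^ 4 := by
    rw [Finset.sum_comm]
    refine Finset.sum_congr rfl fun x _ => ?_
    rw [Finset.mul_sum]
  rw [hswap]
  refine (Finset.sum_le_sum fun j _ => hj j).trans (le_of_eq ?_)
  unfold T4 Tj
  rw [Finset.sum_comm, Finset.sum_div]
  refine Finset.sum_congr rfl fun q1 _ => ?_
  rw [Finset.sum_comm, Finset.sum_div]
  refine Finset.sum_congr rfl fun q2 _ => ?_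
  rw [Finset.sum_comm, Finset.sum_div]
  refine Finset.sum_congr rfl fun q3 _ => ?_
  rw [Finset.sum_comm, Finset.sum_div]
  refine Finset.sum_congr rfl fun q4 _ => ?_
  rw [Finset.sum_mul, Finset.sum_div]
  refine Finset.sum_congr rfl fun j _ => ?_
  field_simp

end Pool.Agent.H56.TI
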