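import Pool.Agent.H56.TI.Expand
import Pool.Agent.H56.TI.Pos
import Pool.Agent.H56.TI.Diag
import Pool.Agent.H56.TI.Off

/-!
# TI Bad: few bad centres `x`

`T4 = diag + off ≤ C K² J P⁴ (X + P⁴)` (`diag_le`, `off_le`), so `m4_le` (with `2X` for `X`) gives `∑_{|x| < 2X} (1 - |x|/(2X)) ∑_j ‖SF(j/J, x)‖^4 ≤ C K² J (2X + P⁴)`.
Let `K ≤ x < X`, `‖SF P K w α x‖ > η`.  `SF` is periodic in `α` with period 1 (`fej_int`), so let `0 ≤ α < 1`, `j = ⌊αJ⌋`, `|α - j/J| ≤ 1/J`.  By `sf_tri` and `|ee s - ee t| ≤ 2π|s - t|`, `|Phi| ≤ b` on `(x-K, x+K)`: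
`‖SF α x - SF (j/J) x‖ ≤ 2K · b · 2π K/J ≤ η/2` as `8π K² b ≤ η J` (hypothesis `26 K² b ≤ η J`).  So `‖SF (j/J) x‖ ≥ η/2` and `x` contributes `≥ (1/2)(η/2)^4` to the left hand side.
-/

set_option autoImplicit false

namespace Pool.Agent.H56.TI

open Finset
open Pool.Agent.H91.PK (ee)
open Pool.Agent.H35.W (pb)
open Pool.Agent.H53.MID (Bs nz)

open Classical in
/-- the bad centres -/
noncomputable def badx (P K : ℕ) (w : ℕ → ℝ) (η : ℝ) (X : ℕ) : Finset ℕ :=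
  (range X).filter (fun x => K ≤ x ∧ ∃ α : ℝ, η < ‖SF P K w α x‖)

/-- `T4` is at most the sum of the two parts -/
private theorem Bad_T4 {C : ℝ} {P K J X : ℕ}
    (h1 : ∑ q1 ∈ FR P, ∑ q2 ∈ FR P, ∑ q3 ∈ FR P, ∑ q4 ∈ FR P,
      (if q1 = q3 ∨ q2 = q4 then Tj K J q1 q2 q3 q4 * fej (2 * X) (xf q1 + xf q2 - xf q3 - xf q4)
        else 0) ≤ 100000 * (K : ℝ) ^ 2 * J * P ^ 4 * (2 * X : ℕ))
    (h2 : ∑ q1 ∈ FR P, ∑ q2 ∈ FR P, ∑ q3 ∈ FR P, ∑ q4 ∈ FR P,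
      (if q1 = q3 ∨ q2 = q4 then 0 else
        Tj K J q1 q2 q3 q4 * fej (2 * X) (xf q1 + xf q2 - xf q3 - xf q4)) ≤
      C * (K : ℝ) ^ 2 * J * P ^ 4 * ((2 * X : ℕ) + (P : ℝ) ^ 4)) (hC : 0 < C) :
    T4 P K J (2 * X) ≤ (200000 + 2 * C) * (K : ℝ) ^ 2 * J * P ^ 4 * (X + (P : ℝ) ^ 4) := by
  have h3 : T4 P K J (2 * X) =
      ∑ q1 ∈ FR P, ∑ q2 ∈ FR P, ∑ q3 ∈ FR P, ∑ q4 ∈ FR P,
      (if q1 = q3 ∨ q2 = q4 then Tj K J q1 q2 q3 q4 * fej (2 * X) (xf q1 + xf q2 - xf q3 - xf q4)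
        else 0) +
      ∑ q1 ∈ FR P, ∑ q2 ∈ FR P, ∑ q3 ∈ FR P, ∑ q4 ∈ FR P,
      (if q1 = q3 ∨ q2 = q4 then 0 else
        Tj K J q1 q2 q3 q4 * fej (2 * X) (xf q1 + xf q2 - xf q3 - xf q4)) := by
    unfold T4
    rw [← sum_add_distrib]
    refine sum_congr rfl fun q1 _ => ?_
    rw [← sum_add_distrib]
    refine sum_congr rfl fun q2 _ => ?_
    rw [← sum_add_distrib]
    refine sum_congr rfl fun q3 _ => ?_
    rw [← sum_add_distrib]
    refine sum_congr rfl fun q4 _ => ?_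
    by_cases h : q1 = q3 ∨ q2 = q4
    · rw [if_pos h, if_pos h, add_zero]
    · rw [if_neg h, if_neg h, zero_add]
  rw [h3]
  push_cast at h1 h2
  have h4 : (0 : ℝ) ≤ (K : ℝ) ^ 2 * J * P ^ 4 := by positivity
  have h5 : (0 : ℝ) ≤ (P : ℝ) ^ 4 := by positivity
  have h6 : (0 : ℝ) ≤ (K : ℝ) ^ 2 * J * P ^ 4 * (P : ℝ) ^ 4 := mul_nonneg h4 h5
  have h7 : (0 : ℝ) ≤ C * ((K : ℝ) ^ 2 * J * P ^ 4 * (P : ℝ) ^ 4) := mul_nonneg hC.le h6
  calc _ ≤ _ := add_le_add h1 h2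
    _ = (200000 + 2 * C) * (K : ℝ) ^ 2 * J * P ^ 4 * (X + (P : ℝ) ^ 4) -
        (200000 * ((K : ℝ) ^ 2 * J * P ^ 4 * (P : ℝ) ^ 4) +
          C * ((K : ℝ) ^ 2 * J * P ^ 4 * (P : ℝ) ^ 4)) := by ring
    _ ≤ _ := by linarith

private theorem Bad_ee_sub (s t : ℝ) : ‖ee s - ee t‖ ≤ 2 * Real.pi * |s - t| := by
  have h1 : ee s - ee t = ee t * (Complex.exp (Complex.I * ((2 * Real.pi * (s - t) : ℝ) : ℂ)) - 1) := by
    unfold Pool.Agent.H91.PK.ee
    rw [mul_sub, ← Complex.exp_add, mul_one]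
    congr 2
    push_cast
    ring
  have h2 : ‖ee t‖ = 1 := by
    unfold Pool.Agent.H91.PK.ee
    rw [show (2 * (Real.pi : ℂ) * (t : ℂ) * Complex.I) = ((2 * Real.pi * t : ℝ) : ℂ) * Complex.I by
      push_cast; ring]
    exact Complex.norm_exp_ofReal_mul_I _
  rw [h1, norm_mul, h2, one_mul]
  refine (Real.norm_exp_I_mul_ofReal_sub_one_le).trans ?_
  rw [Real.norm_eq_abs, abs_mul, abs_of_pos Real.two_pi_pos]

/-- periodicity -/
private theorem Bad_fract (P K : ℕ) (w : ℕ → ℝ) (α : ℝ) (x : ℤ) :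
    SF P K w (Int.fract α) x = SF P K w α x := by
  unfold SF
  refine sum_congr rfl fun q _ => ?_
  have h1 : xf q - Int.fract α = (xf q - α) + (⌊α⌋ : ℤ) := by
    unfold Int.fract
    ring
  rw [h1, fej_int]

/-- `SF` changes little with `α` -/
private theorem Bad_lip {P K X : ℕ} {w : ℕ → ℝ} {b : ℝ} (hK : 1 ≤ K) (hb : 0 ≤ b)
    (hm : ∀ m, 1 ≤ m → m ≤ 2 * X → |Phi P w m| ≤ b) {x : ℕ} (hKx : K ≤ x) (hxX : x < X)
    (α β : ℝ) :
    ‖SF P K w α x - SF P K w β x‖ ≤ 4 * Real.pi * K ^ 2 * b * |α - β| := by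
  rw [sf_tri P K w α x hK hKx, sf_tri P K w β x hK hKx, ← sum_sub_distrib]
  have hK0 : (0 : ℝ) < K := by exact_mod_cast hK
  have h1 : ∀ m ∈ Ioo (x - K) (x + K),
      ‖(((1 - |(m : ℝ) - x| / K) * Phi P w m : ℝ) : ℂ) * ee (-(((m : ℝ) - x) * α)) -
        (((1 - |(m : ℝ) - x| / K) * Phi P w m : ℝ) : ℂ) * ee (-(((m : ℝ) - x) * β))‖ ≤
        b * (2 * Real.pi * (K * |α - β|)) := by
    intro m hmm
    have hm1 := (mem_Ioo.1 hmm).1
    have hm2 := (mem_Ioo.1 hmm).2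
    have h2 : |(m : ℝ) - x| ≤ K := by
      rw [abs_le]
      have h3 : (m : ℝ) < x + K := by exact_mod_cast hm2
      have h4 : (x : ℝ) < m + K := by
        have : x < m + K := by omega
        exact_mod_cast this
      constructor <;> linarith
    have h3 : |1 - |(m : ℝ) - x| / K| ≤ 1 := by
      have h4 : |(m : ℝ) - x| / K ≤ 1 := (div_le_one hK0).2 h2
      have h5 : 0 ≤ |(m : ℝ) - x| / K := by positivity
      rw [abs_le]
      constructor <;> linarith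
    rw [← mul_sub, norm_mul, Complex.norm_real, Real.norm_eq_abs, abs_mul]
    refine mul_le_mul ?_ ?_ (norm_nonneg _) hb
    · calc |1 - |(m : ℝ) - x| / K| * |Phi P w m| ≤ 1 * b :=
            mul_le_mul h3 (hm m (by omega) (by omega)) (abs_nonneg _) zero_le_one
        _ = b := one_mul b
    · refine (Bad_ee_sub _ _).trans ?_
      refine mul_le_mul_of_nonneg_left ?_ Real.two_pi_pos.le
      have h4 : -(((m : ℝ) - x) * α) - -(((m : ℝ) - x) * β) = -(((m : ℝ) - x) * (α - β)) := by ring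
      rw [h4, abs_neg, abs_mul]
      exact mul_le_mul_of_nonneg_right h2 (abs_nonneg _)
  refine (norm_sum_le _ _).trans ((sum_le_card_nsmul _ _ _ h1).trans ?_)
  rw [nsmul_eq_mul, Nat.card_Ioo]
  have h5 : ((x + K - (x - K) - 1 : ℕ) : ℝ) ≤ 2 * K := by
    have : x + K - (x - K) - 1 ≤ 2 * K := by omega
    exact_mod_cast this
  have h6 : 0 ≤ b * (2 * Real.pi * (K * |α - β|)) := by positivity
  calc _ ≤ 2 * (K : ℝ) * (b * (2 * Real.pi * (K * |α - β|))) := mul_le_mul_of_nonneg_right h5 h6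
    _ = 4 * Real.pi * K ^ 2 * b * |α - β| := by ring

/-- a bad centre contributes -/
private theorem Bad_one {P K J X : ℕ} {w : ℕ → ℝ} {η b : ℝ} (hK : 1 ≤ K) (hJ : K ≤ J) (hη : 0 < η)
    (hb : 0 ≤ b) (hm : ∀ m, 1 ≤ m → m ≤ 2 * X → |Phi P w m| ≤ b)
    (hbJ : 26 * (K : ℝ) ^ 2 * b ≤ η * J) {x : ℕ} (hx : x ∈ badx P K w η X) :
    (η / 2) ^ 4 ≤ ∑ j ∈ range J, ‖SF P K w (j / J) (x : ℤ)‖ ^ 4 := by
  classical
  obtain ⟨hx1, hx2, α, hα⟩ := mem_filter.1 hx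
  have hxX := mem_range.1 hx1
  have hJ0 : (0 : ℝ) < J := by exact_mod_cast (show 0 < J by omega)
  rw [← Bad_fract] at hα
  have hf0 := Int.fract_nonneg α
  have hf1 := Int.fract_lt_one α
  generalize Int.fract α = β at hα hf0 hf1
  have hj : ⌊β * J⌋₊ < J := by
    rw [Nat.floor_lt (by positivity)]
    calc β * J < 1 * J := mul_lt_mul_of_pos_right hf1 hJ0
      _ = J := one_mul _
  have hd : |β - (⌊β * J⌋₊ : ℝ) / J| ≤ 1 / J := by
    have h1 := Nat.floor_le (show 0 ≤ β * J by positivity)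
    have h2 := Nat.lt_floor_add_one (β * J)
    have h3 : β - (⌊β * J⌋₊ : ℝ) / J = (β * J - ⌊β * J⌋₊) / J := by
      field_simp
    rw [h3, abs_div, abs_of_pos hJ0]
    refine div_le_div_of_nonneg_right ?_ hJ0.le
    rw [abs_le]
    constructor <;> linarith
  have h1 := Bad_lip (P := P) (w := w) hK hb hm hx2 hxX β ((⌊β * J⌋₊ : ℝ) / J)
  have h2 : 4 * Real.pi * K ^ 2 * b * |β - (⌊β * J⌋₊ : ℝ) / J| ≤ η / 2 := by
    have h3 : 0 ≤ (K : ℝ) ^ 2 * b := by positivity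
    calc 4 * Real.pi * K ^ 2 * b * |β - (⌊β * J⌋₊ : ℝ) / J|
        ≤ 4 * Real.pi * K ^ 2 * b * (1 / J) :=
          mul_le_mul_of_nonneg_left hd (by positivity)
      _ = (8 * Real.pi) * (K ^ 2 * b) / J / 2 := by ring
      _ ≤ 26 * (K ^ 2 * b) / J / 2 := by
          have h4 : 8 * Real.pi ≤ 26 := by
            have := Real.pi_lt_d2
            linarith
          gcongr
      _ ≤ η / 2 := by
          refine div_le_div_of_nonneg_right ?_ (by norm_num)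
          rw [div_le_iff₀ hJ0]
          linarith
  have h3 : η / 2 ≤ ‖SF P K w ((⌊β * J⌋₊ : ℝ) / J) (x : ℤ)‖ := by
    have h4 := norm_sub_norm_le (SF P K w β (x : ℤ)) (SF P K w ((⌊β * J⌋₊ : ℝ) / J) (x : ℤ))
    linarith
  calc (η / 2) ^ 4 ≤ ‖SF P K w ((⌊β * J⌋₊ : ℝ) / J) (x : ℤ)‖ ^ 4 :=
        pow_le_pow_left₀ (by positivity) h3 4
    _ ≤ _ := single_le_sum (f := fun j : ℕ => ‖SF P K w ((j : ℝ) / J) (x : ℤ)‖ ^ 4)
        (fun _ _ => by positivity) (mem_range.2 hj)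

theorem bad_le : ∃ C : ℝ, 0 < C ∧ ∀ (P K J X : ℕ) (w : ℕ → ℝ) (η b : ℝ), 20 ≤ P → 1 ≤ K → K ≤ J → K ≤ P ^ 2 →
    P ^ 2 ≤ X → K ^ 2 ≤ X → (∀ p, |w p| ≤ 1) → 0 < η → 0 ≤ b → (∀ m, 1 ≤ m → m ≤ 2 * X → |Phi P w m| ≤ b) →
    26 * (K : ℝ) ^ 2 * b ≤ η * J →
      ((badx P K w η X).card : ℝ) * η ^ 4 ≤ C * K ^ 2 * J * (X + (P : ℝ) ^ 4) := by
  classical
  obtain ⟨C, hC, hoff⟩ := off_le
  refine ⟨32 * (200000 + 2 * C), by positivity, ?_⟩
  intro P K J X w η b hP hK hJ hKP hPX hKX hw hη hb hm hbJ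
  have hX1 : 1 ≤ X := (Nat.one_le_pow _ _ (by omega)).trans hPX
  have hX0 : (0 : ℝ) < X := by exact_mod_cast hX1
  have hP0 : (0 : ℝ) < P := by exact_mod_cast (show 0 < P by omega)
  have h1 := diag_le P K J (2 * X) (by omega) hK hJ hKP (by omega)
  have h2 := hoff P K J (2 * X) hP hK hJ (by omega)
  have h3 := Bad_T4 h1 h2 hC
  have h4 := m4_le P K J (2 * X) w hw (by omega) (by omega)
  have h5 : T4 P K J (2 * X) / (P : ℝ) ^ 4 ≤
      (200000 + 2 * C) * (K : ℝ) ^ 2 * J * (X + (P : ℝ) ^ 4) := by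
    rw [div_le_iff₀ (by positivity)]
    refine h3.trans (le_of_eq ?_)
    ring
  have h6 : ((badx P K w η X).card : ℝ) * ((1 / 2) * (η / 2) ^ 4) ≤
      ∑ x ∈ Ioo (-((2 * X : ℕ) : ℤ)) (2 * X : ℕ), (1 - |(x : ℝ)| / (2 * X : ℕ)) *
        ∑ j ∈ range J, ‖SF P K w (j / J) x‖ ^ 4 := by
    rw [← nsmul_eq_mul, ← sum_const]
    have hinj : Set.InjOn (fun x : ℕ => (x : ℤ)) (badx P K w η X : Set ℕ) :=
      fun a _ b _ h => Int.ofNat_injective h
    have h7 : ∑ x ∈ badx P K w η X, ((1 : ℝ) / 2 * (η / 2) ^ 4) ≤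
        ∑ x ∈ (badx P K w η X).image (fun x : ℕ => (x : ℤ)), (1 - |(x : ℝ)| / (2 * X : ℕ)) *
        ∑ j ∈ range J, ‖SF P K w (j / J) x‖ ^ 4 := by
      rw [sum_image hinj]
      refine sum_le_sum fun x hx => ?_
      refine mul_le_mul ?_ (Bad_one hK hJ hη hb hm hbJ hx) (by positivity) ?_
      · have hx1 : (x : ℝ) < X := by exact_mod_cast mem_range.1 (mem_filter.1 hx).1
        have hx2 : |(((x : ℤ)) : ℝ)| / (2 * X : ℕ) ≤ 1 / 2 := by
          rw [div_le_iff₀ (by push_cast; positivity)]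
          push_cast
          rw [Nat.abs_cast]
          linarith
        linarith
      · have hx1 : (x : ℝ) < X := by exact_mod_cast mem_range.1 (mem_filter.1 hx).1
        have hx2 : |(((x : ℤ)) : ℝ)| / (2 * X : ℕ) ≤ 1 / 2 := by
          rw [div_le_iff₀ (by push_cast; positivity)]
          push_cast
          rw [Nat.abs_cast]
          linarith
        linarith
    refine h7.trans (sum_le_sum_of_subset_of_nonneg ?_ ?_)
    · intro y hy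
      obtain ⟨x, hx, rfl⟩ := mem_image.1 hy
      have hx1 := mem_range.1 (mem_filter.1 hx).1
      rw [mem_Ioo]
      constructor
      · have : (0 : ℤ) ≤ (x : ℤ) := Int.natCast_nonneg x
        push_cast
        omega
      · push_cast
        omega
    · intro y hy _
      have hy1 := mem_Ioo.1 hy
      refine mul_nonneg ?_ (sum_nonneg fun _ _ => by positivity)
      have h8 : |(y : ℝ)| ≤ (2 * X : ℕ) := by
        rw [abs_le]
        constructor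
        · have := hy1.1.le
          exact_mod_cast this
        · have := hy1.2.le
          exact_mod_cast this
      have h9 : |(y : ℝ)| / (2 * X : ℕ) ≤ 1 := (div_le_one (by push_cast; positivity)).2 h8
      linarith
  have h8 := h6.trans (h4.trans h5)
  calc ((badx P K w η X).card : ℝ) * η ^ 4
      = 32 * (((badx P K w η X).card : ℝ) * ((1 / 2) * (η / 2) ^ 4)) := by ring
    _ ≤ 32 * ((200000 + 2 * C) * (K : ℝ) ^ 2 * J * (X + (P : ℝ) ^ 4)) :=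
        mul_le_mul_of_nonneg_left h8 (by norm_num)
    _ = 32 * (200000 + 2 * C) * K ^ 2 * J * (X + (P : ℝ) ^ 4) := by ring

end Pool.Agent.H56.TI
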