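import Pool.Agent.H56.TI.Bad

/-!
# TI BlkTri: block sums are averages of triangular sums

For the block `I = [iH, (i+1)H)`, `i ≥ 1`, `K ≤ H`: with `tri(x) = ∑_{m ∈ Ioo (x-K) (x+K)} (1 - |m-x|/K) Phi(m) ee(-mα)` (`‖tri(x)‖ = ‖SF P K w α x‖` by `sf_tri`):
`(1/K) ∑_{x ∈ I} tri(x) = ∑_m Phi(m) ee(-mα) ω(m)`, `ω(m) = (1/K) ∑_{x ∈ I} max(0, 1 - |m-x|/K)`, `= 1` for `iH + K ≤ m < (i+1)H - K` (`∑_{|t|<K}(1 - |t|/K) = K`), in `[0,1]` always, `0` for `m ≤ iH - K` or
`m ≥ (i+1)H + K`.  So `‖Bs Phi H i α‖ ≤ (1/K) ∑_{x ∈ I} ‖SF P K w α x‖ + 4 K b` (`|Phi| ≤ b`), and `‖SF‖ ≤ K b` always, `≤ η` for `x ∉ badx`: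
`‖Bs Phi H i α‖ ≤ H η/K + b #(badx ∩ I) + 4 K b`.
-/

set_option autoImplicit false

namespace Pool.Agent.H56.TI

open Finset
open Pool.Agent.H91.PK (ee)
open Pool.Agent.H35.W (pb)
open Pool.Agent.H53.MID (Bs nz)

private noncomputable def blkTri_F (K : ℕ) (t : ℤ) : ℝ := max 0 (1 - |(t : ℝ)| / K)

private lemma blkTri_sumZ (K : ℕ) : ∑ t ∈ Ioo (-(K : ℤ)) K, ((K : ℝ) - |(t : ℝ)|) = (K : ℝ) ^ 2 := by
  induction K with
  | zero => simp
  | succ K ih =>
    rcases Nat.eq_zero_or_pos K with rfl | hK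
    · have h : Ioo (-((0 + 1 : ℕ) : ℤ)) ((0 + 1 : ℕ) : ℤ) = {0} := by
        ext t
        simp only [mem_Ioo, mem_singleton]
        push_cast
        omega
      rw [h, sum_singleton]
      norm_num
    · have h : Ioo (-((K + 1 : ℕ) : ℤ)) ((K + 1 : ℕ) : ℤ)
          = insert (-(K : ℤ)) (insert (K : ℤ) (Ioo (-(K : ℤ)) K)) := by
        ext t
        simp only [mem_insert, mem_Ioo]
        push_cast
        omega
      rw [h, sum_insert, sum_insert]
      · have h2 : ∑ t ∈ Ioo (-(K : ℤ)) K, (((K + 1 : ℕ) : ℝ) - |(t : ℝ)|)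
            = ∑ t ∈ Ioo (-(K : ℤ)) K, ((K : ℝ) - |(t : ℝ)|) + (2 * K - 1) := by
          have h3 : ∀ t ∈ Ioo (-(K : ℤ)) K, (((K + 1 : ℕ) : ℝ) - |(t : ℝ)|) = ((K : ℝ) - |(t : ℝ)|) + 1 := by
            intro t _
            push_cast
            ring
          rw [sum_congr rfl h3, sum_add_distrib, sum_const, Int.card_Ioo, nsmul_eq_mul, mul_one]
          congr 1
          have h4 : ((K : ℤ) - -(K : ℤ) - 1).toNat = 2 * K - 1 := by omega
          rw [h4, Nat.cast_sub (by omega)]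
          push_cast
          ring
        rw [h2, ih]
        have h5 : |(((-(K : ℤ)) : ℤ) : ℝ)| = K := by
          push_cast
          rw [abs_neg, abs_of_nonneg (Nat.cast_nonneg K)]
        have h6 : |(((K : ℤ)) : ℝ)| = K := by
          push_cast
          rw [abs_of_nonneg (Nat.cast_nonneg K)]
        rw [h5, h6]
        push_cast
        ring
      · simp
      · simp only [mem_insert, mem_Ioo]
        omega

private lemma blkTri_F_zero {K : ℕ} (hK : 1 ≤ K) {t : ℤ} (ht : t ∉ Ioo (-(K : ℤ)) K) : blkTri_F K t = 0 := by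
  have hK0 : (0 : ℝ) < K := by exact_mod_cast hK
  have h1 : (K : ℤ) ≤ |t| := by
    rw [mem_Ioo, not_and_or, not_lt, not_lt] at ht
    rcases ht with h | h
    · exact le_trans (by omega) (neg_le_abs t)
    · exact h.trans (le_abs_self t)
  have h2 : (K : ℝ) ≤ |(t : ℝ)| := by
    have h3 : ((K : ℤ) : ℝ) ≤ ((|t| : ℤ) : ℝ) := by exact_mod_cast h1
    rw [Int.cast_abs] at h3
    exact_mod_cast h3
  rw [blkTri_F, max_eq_left]
  rw [sub_nonpos, le_div_iff₀ hK0, one_mul]
  exact h2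

private lemma blkTri_F_of_mem {K : ℕ} (hK : 1 ≤ K) {t : ℤ} (ht : t ∈ Ioo (-(K : ℤ)) K) :
    blkTri_F K t = 1 - |(t : ℝ)| / K := by
  have hK0 : (0 : ℝ) < K := by exact_mod_cast hK
  rw [mem_Ioo] at ht
  have h1 : |t| < (K : ℤ) := abs_lt.2 ht
  have h2 : |(t : ℝ)| < (K : ℝ) := by
    have h3 : ((|t| : ℤ) : ℝ) < ((K : ℤ) : ℝ) := by exact_mod_cast h1
    rw [Int.cast_abs] at h3
    exact_mod_cast h3
  rw [blkTri_F, max_eq_right]
  rw [sub_nonneg, div_le_one hK0]
  exact h2.le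

private lemma blkTri_F_sum {K : ℕ} (hK : 1 ≤ K) : ∑ t ∈ Ioo (-(K : ℤ)) K, blkTri_F K t = K := by
  have hK0 : (0 : ℝ) < K := by exact_mod_cast hK
  have h1 : ∀ t ∈ Ioo (-(K : ℤ)) K, blkTri_F K t = (1 / (K : ℝ)) * ((K : ℝ) - |(t : ℝ)|) := by
    intro t ht
    rw [blkTri_F_of_mem hK ht]
    field_simp
  rw [sum_congr rfl h1, ← mul_sum, blkTri_sumZ]
  field_simp

private lemma blkTri_F_nonneg (K : ℕ) (t : ℤ) : 0 ≤ blkTri_F K t := le_max_left _ _

private lemma blkTri_F_neg (K : ℕ) (t : ℤ) : blkTri_F K (-t) = blkTri_F K t := by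
  rw [blkTri_F, blkTri_F]
  push_cast
  rw [abs_neg]

private lemma blkTri_sum_le {K : ℕ} (hK : 1 ≤ K) (s : Finset ℕ) (y : ℕ) :
    ∑ x ∈ s, blkTri_F K ((x : ℤ) - y) ≤ K := by
  classical
  have hinj : ∀ a ∈ s, ∀ b ∈ s, ((a : ℤ) - y) = ((b : ℤ) - y) → a = b := by
    intro a _ b _ h
    omega
  have h1 : ∑ x ∈ s, blkTri_F K ((x : ℤ) - y) = ∑ t ∈ s.image (fun x : ℕ => (x : ℤ) - y), blkTri_F K t :=
    (sum_image hinj).symm
  rw [h1]
  calc ∑ t ∈ s.image (fun x : ℕ => (x : ℤ) - y), blkTri_F K t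
      ≤ ∑ t ∈ s.image (fun x : ℕ => (x : ℤ) - y) ∪ Ioo (-(K : ℤ)) K, blkTri_F K t :=
        sum_le_sum_of_subset_of_nonneg subset_union_left fun t _ _ => blkTri_F_nonneg K t
    _ = ∑ t ∈ Ioo (-(K : ℤ)) K, blkTri_F K t := by
        symm
        apply sum_subset subset_union_right
        intro t _ ht
        exact blkTri_F_zero hK ht
    _ = K := blkTri_F_sum hK

private lemma blkTri_sum_eq {K : ℕ} (hK : 1 ≤ K) (a c y : ℕ) (h1 : a + K ≤ y) (h2 : y + K ≤ c) :
    ∑ x ∈ Ico a c, blkTri_F K ((x : ℤ) - y) = K := by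
  classical
  have hinj : ∀ u ∈ Ico a c, ∀ b ∈ Ico a c, ((u : ℤ) - y) = ((b : ℤ) - y) → u = b := by
    intro a _ b _ h
    omega
  have h3 : ∑ x ∈ Ico a c, blkTri_F K ((x : ℤ) - y)
      = ∑ t ∈ (Ico a c).image (fun x : ℕ => (x : ℤ) - y), blkTri_F K t := (sum_image hinj).symm
  rw [h3, ← blkTri_F_sum hK]
  symm
  apply sum_subset
  · intro t ht
    rw [mem_Ioo] at ht
    rw [mem_image]
    refine ⟨(t + y).toNat, ?_, ?_⟩
    · rw [mem_Ico]
      omega
    · omega
  · intro t _ ht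
    exact blkTri_F_zero hK ht

private lemma blkTri_norm_ee (t : ℝ) : ‖ee t‖ = 1 := by
  rw [ee]
  have h : 2 * (Real.pi : ℂ) * t * Complex.I = ((2 * Real.pi * t : ℝ) : ℂ) * Complex.I := by
    push_cast
    ring
  rw [h, Complex.norm_exp_ofReal_mul_I]

private lemma blkTri_ee_add (s t : ℝ) : ee (s + t) = ee s * ee t := by
  rw [ee, ee, ee, ← Complex.exp_add]
  congr 1
  push_cast
  ring

private lemma blkTri_sf (P K : ℕ) (w : ℕ → ℝ) (α : ℝ) (x M : ℕ) (hK : 1 ≤ K) (hx : K ≤ x) (hM : x + K ≤ M) :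
    ee (-(x * α)) * SF P K w α x
      = ∑ m ∈ range M, (blkTri_F K ((m : ℤ) - x) : ℂ) * ((Phi P w m : ℂ) * ee (-(m * α))) := by
  rw [sf_tri P K w α x hK hx, mul_sum]
  have hsub : Ioo (x - K) (x + K) ⊆ range M := by
    intro m hm
    rw [mem_Ioo] at hm
    rw [mem_range]
    omega
  rw [← sum_subset hsub]
  · refine sum_congr rfl fun m hm => ?_
    rw [mem_Ioo] at hm
    have h1 : ((m : ℤ) - x) ∈ Ioo (-(K : ℤ)) K := by
      rw [mem_Ioo]
      omega
    rw [blkTri_F_of_mem hK h1]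
    have h2 : ee (-(m * α)) = ee (-(x * α)) * ee (-(((m : ℝ) - x) * α)) := by
      rw [← blkTri_ee_add]
      congr 1
      ring
    rw [h2]
    push_cast
    ring
  · intro m _ hm
    have h1 : ((m : ℤ) - x) ∉ Ioo (-(K : ℤ)) K := by
      rw [mem_Ioo] at hm ⊢
      omega
    rw [blkTri_F_zero hK h1]
    simp

open Classical in
theorem blk_tri (P K H i X : ℕ) (w : ℕ → ℝ) (α η b : ℝ) (hK : 1 ≤ K) (hKH : K ≤ H) (hi : 1 ≤ i)
    (hX : (i + 1) * H + K ≤ X) (hη : 0 ≤ η) (hb : 0 ≤ b) (hphi : ∀ m, 1 ≤ m → m ≤ X → |Phi P w m| ≤ b) :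
    ‖Bs (Phi P w) H i α‖ ≤ H * η / K + b * ((badx P K w η X).filter (fun x => i * H ≤ x ∧ x < (i + 1) * H)).card
      + 4 * K * b := by
  have hK0 : (0 : ℝ) < K := by exact_mod_cast hK
  have hiH : H ≤ i * H := Nat.le_mul_of_pos_left H hi
  have hiH2 : (i + 1) * H = i * H + H := by ring
  set A : ℕ := i * H with hA
  set B : ℕ := (i + 1) * H with hB
  set M : ℕ := B + K with hM
  set g : ℕ → ℂ := fun m => (Phi P w m : ℂ) * ee (-(m * α)) with hg
  have hgn : ∀ m, ‖g m‖ = |Phi P w m| := by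
    intro m
    rw [hg]
    simp only
    rw [norm_mul, blkTri_norm_ee, mul_one, Complex.norm_real, Real.norm_eq_abs]
  have hS : ∀ x ∈ Ico A B, ee (-(x * α)) * SF P K w α x
      = ∑ m ∈ range M, (blkTri_F K ((m : ℤ) - x) : ℂ) * g m := by
    intro x hx
    rw [mem_Ico] at hx
    exact blkTri_sf P K w α x M hK (by omega) (by omega)
  -- bound of SF
  have hSF : ∀ x ∈ Ico A B, ‖SF P K w α x‖ ≤ K * b := by
    intro x hx
    have h1 : ‖SF P K w α x‖ = ‖ee (-(x * α)) * SF P K w α x‖ := by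
      rw [norm_mul, blkTri_norm_ee, one_mul]
    rw [h1, hS x hx]
    rw [mem_Ico] at hx
    calc ‖∑ m ∈ range M, (blkTri_F K ((m : ℤ) - x) : ℂ) * g m‖
        ≤ ∑ m ∈ range M, ‖(blkTri_F K ((m : ℤ) - x) : ℂ) * g m‖ := norm_sum_le _ _
      _ ≤ ∑ m ∈ range M, blkTri_F K ((m : ℤ) - x) * b := by
          refine sum_le_sum fun m hm => ?_
          rw [mem_range] at hm
          rw [norm_mul, Complex.norm_real, Real.norm_eq_abs, abs_of_nonneg (blkTri_F_nonneg K _), hgn]
          rcases Nat.eq_zero_or_pos m with rfl | hm0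
          · have h0 : (((0 : ℕ) : ℤ) - x) ∉ Ioo (-(K : ℤ)) K := by
              rw [mem_Ioo]
              omega
            rw [blkTri_F_zero hK h0, zero_mul, zero_mul]
          · exact mul_le_mul_of_nonneg_left (hphi m hm0 (by omega)) (blkTri_F_nonneg K _)
      _ = (∑ m ∈ range M, blkTri_F K ((m : ℤ) - x)) * b := by rw [sum_mul]
      _ ≤ K * b := mul_le_mul_of_nonneg_right (blkTri_sum_le hK _ _) hb
  -- sum of SF
  have hsum : ∑ x ∈ Ico A B, ‖SF P K w α x‖
      ≤ H * η + K * b * ((badx P K w η X).filter (fun x => A ≤ x ∧ x < B)).card := by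
    have h1 : ∀ x ∈ Ico A B, ‖SF P K w α x‖ ≤ η + (if x ∈ badx P K w η X then K * b else 0) := by
      intro x hx
      by_cases hbad : x ∈ badx P K w η X
      · rw [if_pos hbad]
        have := hSF x hx
        linarith
      · rw [if_neg hbad, add_zero]
        rw [mem_Ico] at hx
        by_contra hcon
        push Not at hcon
        apply hbad
        rw [badx, mem_filter, mem_range]
        exact ⟨by omega, by omega, α, hcon⟩
    refine (sum_le_sum h1).trans ?_
    rw [sum_add_distrib, sum_const, Nat.card_Ico, nsmul_eq_mul]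
    have h2 : ((B - A : ℕ) : ℝ) = H := by
      have : B - A = H := by omega
      rw [this]
    rw [h2, ← sum_filter, sum_const, nsmul_eq_mul]
    have h3 : (Ico A B).filter (fun x => x ∈ badx P K w η X) = (badx P K w η X).filter (fun x => A ≤ x ∧ x < B) := by
      ext x
      simp only [mem_filter, mem_Ico]
      tauto
    rw [h3]
    apply le_of_eq
    ring
  -- the difference
  have hBs : Bs (Phi P w) H i α = ∑ m ∈ range M, (if m ∈ Ico A B then (1 : ℂ) else 0) * g m := by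
    rw [Bs]
    have hsub : Ico A B ⊆ range M := by
      intro m hm
      rw [mem_Ico] at hm
      rw [mem_range]
      omega
    rw [← sum_subset hsub (f := fun m => (if m ∈ Ico A B then (1 : ℂ) else 0) * g m)]
    · refine sum_congr rfl fun m hm => ?_
      rw [if_pos hm, one_mul]
    · intro m _ hm
      rw [if_neg hm, zero_mul]
  set W : ℕ → ℝ := fun m => ∑ x ∈ Ico A B, blkTri_F K ((x : ℤ) - m) with hW
  have hW0 : ∀ m, 0 ≤ W m := fun m => sum_nonneg fun x _ => blkTri_F_nonneg K _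
  have hW1 : ∀ m, W m ≤ K := fun m => blkTri_sum_le hK _ m
  have hX1 : ∑ x ∈ Ico A B, ee (-(x * α)) * SF P K w α x = ∑ m ∈ range M, (W m : ℂ) * g m := by
    rw [sum_congr rfl hS, sum_comm]
    refine sum_congr rfl fun m _ => ?_
    rw [hW]
    simp only
    rw [Complex.ofReal_sum, sum_mul]
    refine sum_congr rfl fun x _ => ?_
    rw [← blkTri_F_neg K ((x : ℤ) - m), neg_sub]
  set E : Finset ℕ := Ioo (A - K) (A + K) ∪ Ioo (B - K) (B + K) with hE
  have hEc : (E.card : ℝ) ≤ 4 * K := by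
    have h1 : E.card ≤ 4 * K := by
      refine (card_union_le _ _).trans ?_
      rw [Nat.card_Ioo, Nat.card_Ioo]
      omega
    exact_mod_cast h1
  have hdiff : ‖(K : ℂ) * Bs (Phi P w) H i α - ∑ x ∈ Ico A B, ee (-(x * α)) * SF P K w α x‖ ≤ 4 * K * (K * b) := by
    rw [hBs, hX1, mul_sum, ← sum_sub_distrib]
    have hEsub : E ⊆ range M := by
      intro m hm
      rw [hE, mem_union, mem_Ioo, mem_Ioo] at hm
      rw [mem_range]
      omega
    rw [← sum_subset hEsub]
    · calc ‖∑ m ∈ E, ((K : ℂ) * ((if m ∈ Ico A B then (1 : ℂ) else 0) * g m) - (W m : ℂ) * g m)‖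
          ≤ ∑ m ∈ E, ‖((K : ℂ) * ((if m ∈ Ico A B then (1 : ℂ) else 0) * g m) - (W m : ℂ) * g m)‖ := norm_sum_le _ _
        _ ≤ ∑ m ∈ E, K * b := by
            refine sum_le_sum fun m hm => ?_
            rw [hE, mem_union, mem_Ioo, mem_Ioo] at hm
            have h1 : ((K : ℂ) * ((if m ∈ Ico A B then (1 : ℂ) else 0) * g m) - (W m : ℂ) * g m)
                = (((K : ℝ) * (if m ∈ Ico A B then (1 : ℝ) else 0) - W m : ℝ) : ℂ) * g m := by
              split_ifs <;> push_cast <;> ring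
            rw [h1, norm_mul, hgn, Complex.norm_real, Real.norm_eq_abs]
            have h2 : |(K : ℝ) * (if m ∈ Ico A B then (1 : ℝ) else 0) - W m| ≤ K := by
              have h3 := hW0 m
              have h4 := hW1 m
              rw [abs_le]
              split_ifs <;> constructor <;> linarith
            exact mul_le_mul h2 (hphi m (by omega) (by omega)) (abs_nonneg _) hK0.le
        _ = E.card * (K * b) := by rw [sum_const, nsmul_eq_mul]
        _ ≤ 4 * K * (K * b) := mul_le_mul_of_nonneg_right hEc (by positivity)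
    · intro m hm hmE
      rw [hE, mem_union, mem_Ioo, mem_Ioo] at hmE
      rw [mem_range] at hm
      by_cases hmI : m ∈ Ico A B
      · rw [if_pos hmI]
        rw [mem_Ico] at hmI
        have h1 : W m = K := blkTri_sum_eq hK A B m (by omega) (by omega)
        rw [h1]
        push_cast
        ring
      · rw [if_neg hmI]
        rw [mem_Ico] at hmI
        have h1 : W m = 0 := by
          apply sum_eq_zero
          intro x hx
          rw [mem_Ico] at hx
          apply blkTri_F_zero hK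
          rw [mem_Ioo]
          omega
        rw [h1]
        push_cast
        ring
  -- conclusion
  have hfin : (K : ℝ) * ‖Bs (Phi P w) H i α‖
      ≤ H * η + K * b * ((badx P K w η X).filter (fun x => A ≤ x ∧ x < B)).card + 4 * K * (K * b) := by
    have h1 : (K : ℝ) * ‖Bs (Phi P w) H i α‖ = ‖(K : ℂ) * Bs (Phi P w) H i α‖ := by
      rw [norm_mul, Complex.norm_natCast]
    rw [h1]
    have h2 : ‖(K : ℂ) * Bs (Phi P w) H i α‖
        ≤ ‖(K : ℂ) * Bs (Phi P w) H i α - ∑ x ∈ Ico A B, ee (-(x * α)) * SF P K w α x‖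
          + ‖∑ x ∈ Ico A B, ee (-(x * α)) * SF P K w α x‖ := by
      have := norm_add_le ((K : ℂ) * Bs (Phi P w) H i α - ∑ x ∈ Ico A B, ee (-(x * α)) * SF P K w α x)
        (∑ x ∈ Ico A B, ee (-(x * α)) * SF P K w α x)
      rwa [sub_add_cancel] at this
    have h3 : ‖∑ x ∈ Ico A B, ee (-(x * α)) * SF P K w α x‖ ≤ ∑ x ∈ Ico A B, ‖SF P K w α x‖ := by
      refine (norm_sum_le _ _).trans (le_of_eq ?_)
      refine sum_congr rfl fun x _ => ?_
      rw [norm_mul, blkTri_norm_ee, one_mul]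
    linarith
  have h9 : ‖Bs (Phi P w) H i α‖
      ≤ (H * η + K * b * ((badx P K w η X).filter (fun x => A ≤ x ∧ x < B)).card + 4 * K * (K * b)) / K := by
    rw [le_div_iff₀ hK0]
    linarith
  refine h9.trans (le_of_eq ?_)
  field_simp

end Pool.Agent.H56.TI
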