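import Pool.Agent.H56.TI.Spc

/-!
# TI Cnt: counting quadruples of fractions with nearly equal differences

`t = ((q1, q3), (q4, q2))`, `q_i = (p_i, u_i)`, `γ = x1 - x3`, `γ' = x4 - x2`, `q1 ≠ q3`, `q4 ≠ q2`, `nz γ ≤ G ≤ 1`, `nz(γ - γ') ≤ ρ ≤ 1`.  Let `k = round γ`, `k2 = round(γ - γ')`.
CASE A: `p1 ≠ p3`, `p4 ≠ p2`.  `a = u1 p3 - u3 p1 - k p1 p3`, so `a/(p1 p3) = γ - k`, and `b = u4 p2 - u2 p4 + (k2 - k) p2 p4`, so `b/(p2 p4) = γ' + k2 - k`.  Then `|a| ≤ G p1 p3`, `|b| ≤ (G+ρ) p2 p4 ≤ 4P²(G+ρ)`,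
`|a p2 p4 - b p1 p3| ≤ ρ p1 p2 p3 p4 ≤ 16 ρ P⁴`; `a, b ≠ 0` (no integer differences, `fr_ne`).  `(p1, p3, a)` determines `u1, u3` (`a ≡ u1 p3 (p1)`, `a ≡ -u3 p1 (p3)`), `(p2, p4, b)` determines `u2, u4`.
Choose `p1, p3` (`≤ P²` ways), `b ≠ 0` (`≤ 8P²(G+ρ)` ways), `M = a p2 p4 ≠ 0` with `|M - b p1 p3| ≤ 16ρP⁴` (`≤ 32ρP⁴ + 1` ways), then `p2, p4` among the at most 4 primes `> P` dividing `M` (`|M| ≤ 16P⁴ < P⁵`; `card_dvd` of `Expand.lean`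
is the same fact): `≤ 16` ways; `a = M/(p2 p4)`.  Total `≤ 128 P⁴ (G+ρ)(32ρP⁴ + 1)`.
CASE B1: `p1 = p3 = p`, `p2 ≠ p4`: `γ - k = a/p` (`a = u1 - u3 - kp ≠ 0`, `|a| ≤ Gp`), `M = a p2 p4`, `|M - b p| ≤ ρ p p2 p4 ≤ 8ρP³`: choose `p` (`P`), `b` (`≤ 8P²(G+ρ)`), `M` (`≤ 16ρP³+1`), `(p2,p4)` (16), `u1` (`≤ 2P`; then `u3` is determined
by `a` modulo `p`).  CASE B2: `p1 ≠ p3`, `p2 = p4 = p'`: `b' = u4 - u2 + (k2-k)p' ≠ 0`, `|b'| ≤ (G+ρ)p' ≤ 2P(G+ρ)`, `M = a p'`, `|M - b' p1 p3| ≤ 8ρP³`: choose `p1, p3` (`P²`), `b'` (`≤ 4P(G+ρ)`), `M`, `p' ∣ M` (4), `u4` (`≤ 2P`).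
CASE C: both: `M = a p'`, `|M - b' p| ≤ ρ p p' ≤ 4ρP²`: `p` (`P`), `b'` (`4P(G+ρ)`), `M`, `p'` (4), `u1`, `u4` (`4P²`).  All cases `≤ 1000 P⁴ (G+ρ)(1 + 32ρP⁴)`.
(It may be convenient to prove one lemma for a general injection: the number of the `t` is `≤ ∑` over the data chosen.)
-/

set_option autoImplicit false

namespace Pool.Agent.H56.TI

open Finset
open Pool.Agent.H91.PK (ee)
open Pool.Agent.H35.W (pb)
open Pool.Agent.H53.MID (Bs nz)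

/-- the common denominator of two fractions -/
private def CntD (q q' : ℕ × ℕ) : ℕ := if q.1 = q'.1 then q.1 else q.1 * q'.1

/-- the numerator of `xf q - xf q' - k` -/
private def CntN (q q' : ℕ × ℕ) (k : ℤ) : ℤ :=
  if q.1 = q'.1 then (q.2 : ℤ) - q'.2 - k * q.1
  else (q.2 : ℤ) * q'.1 - q'.2 * q.1 - k * (q.1 * q'.1)

/-- the extra datum -/
private def CntE (q q' : ℕ × ℕ) : ℕ := if q.1 = q'.1 then q.2 else 0

private theorem Cnt_mem (P : ℕ) (q : ℕ × ℕ) (hq : q ∈ FR P) :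
    P < q.1 ∧ q.1 ≤ 2 * P ∧ q.1.Prime ∧ 1 ≤ q.2 ∧ q.2 ≤ 2 * P ∧ q.2 < q.1 := by
  simp only [FR, pb, mem_filter, mem_product, mem_Ioc, mem_Icc] at hq
  obtain ⟨⟨⟨⟨h1, h2⟩, h3⟩, h4, h5⟩, h6⟩ := hq
  exact ⟨h1, h2, h3, h4, h5, h6⟩

private theorem Cnt_eq (P : ℕ) (q q' : ℕ × ℕ) (hq : q ∈ FR P) (hq' : q' ∈ FR P) (k : ℤ) :
    (CntN q q' k : ℝ) = (xf q - xf q' - k) * CntD q q' := by
  obtain ⟨h1, _, _, _, _, _⟩ := Cnt_mem P q hq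
  obtain ⟨h1', _, _, _, _, _⟩ := Cnt_mem P q' hq'
  have hp : (q.1 : ℝ) ≠ 0 := by
    have : 0 < q.1 := by omega
    exact_mod_cast this.ne'
  have hp' : (q'.1 : ℝ) ≠ 0 := by
    have : 0 < q'.1 := by omega
    exact_mod_cast this.ne'
  unfold CntN CntD xf
  split_ifs with h
  · have h' : (q'.1 : ℝ) = q.1 := by rw [h]
    rw [h']
    push_cast
    field_simp
  · push_cast
    field_simp

private theorem Cnt_dvd_small (p : ℕ) (a b : ℕ) (ha : a < p) (hb : b < p)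
    (h : (p : ℤ) ∣ (a : ℤ) - b) : a = b := by
  have h1 : |(a : ℤ) - b| < p := by
    rw [abs_lt]
    constructor <;> omega
  have h2 := Int.eq_zero_of_abs_lt_dvd h h1
  omega

private theorem Cnt_ne (P : ℕ) (q q' : ℕ × ℕ) (hq : q ∈ FR P) (hq' : q' ∈ FR P) (h : q ≠ q') (k : ℤ) :
    CntN q q' k ≠ 0 := by
  obtain ⟨h1, h2, h3, h4, h5, h6⟩ := Cnt_mem P q hq
  obtain ⟨h1', h2', h3', h4', h5', h6'⟩ := Cnt_mem P q' hq'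
  intro h0
  unfold CntN at h0
  split_ifs at h0 with hp
  · apply h
    have hd : (q.1 : ℤ) ∣ (q.2 : ℤ) - q'.2 := ⟨k, by linarith⟩
    have := Cnt_dvd_small q.1 q.2 q'.2 h6 (by omega) hd
    exact Prod.ext hp this
  · have hd : (q.1 : ℤ) ∣ (q.2 : ℤ) * q'.1 := ⟨q'.2 + k * q'.1, by linarith⟩
    have hd' : q.1 ∣ q.2 * q'.1 := by exact_mod_cast hd
    rcases (Nat.Prime.dvd_mul h3).1 hd' with hx | hx
    · have := Nat.le_of_dvd (by omega) hx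
      omega
    · exact hp ((Nat.prime_dvd_prime_iff_eq h3 h3').1 hx)

private theorem Cnt_det (P : ℕ) (q q' r r' : ℕ × ℕ) (hq : q ∈ FR P) (hq' : q' ∈ FR P) (hr : r ∈ FR P)
    (hr' : r' ∈ FR P) (h1 : q.1 = r.1) (h2 : q'.1 = r'.1) (hE : CntE q q' = CntE r r') (k l : ℤ)
    (hN : CntN q q' k = CntN r r' l) : q = r ∧ q' = r' := by
  obtain ⟨a1, a2, a3, a4, a5, a6⟩ := Cnt_mem P q hq
  obtain ⟨b1, b2, b3, b4, b5, b6⟩ := Cnt_mem P q' hq'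
  obtain ⟨c1, c2, c3, c4, c5, c6⟩ := Cnt_mem P r hr
  obtain ⟨d1, d2, d3, d4, d5, d6⟩ := Cnt_mem P r' hr'
  unfold CntE at hE
  unfold CntN at hN
  by_cases hp : q.1 = q'.1
  · have hp' : r.1 = r'.1 := by omega
    rw [if_pos hp, if_pos hp'] at hE
    rw [if_pos hp, if_pos hp'] at hN
    have hd : (q.1 : ℤ) ∣ (q'.2 : ℤ) - r'.2 := by
      refine ⟨l - k, ?_⟩
      have e1 : (q.2 : ℤ) = r.2 := by exact_mod_cast hE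
      have e2 : (r.1 : ℤ) = q.1 := by exact_mod_cast h1.symm
      rw [e1, e2] at hN
      linear_combination -hN
    have := Cnt_dvd_small q.1 q'.2 r'.2 (by omega) (by omega) hd
    exact ⟨Prod.ext h1 hE, Prod.ext h2 this⟩
  · have hp' : ¬ r.1 = r'.1 := by omega
    rw [if_neg hp, if_neg hp'] at hN
    have e1 : (r.1 : ℤ) = q.1 := by exact_mod_cast h1.symm
    have e2 : (r'.1 : ℤ) = q'.1 := by exact_mod_cast h2.symm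
    rw [e1, e2] at hN
    have hcop : Nat.Coprime q.1 q'.1 := (Nat.coprime_primes a3 b3).2 hp
    have hcopZ : IsCoprime (q.1 : ℤ) (q'.1 : ℤ) := Nat.isCoprime_iff_coprime.2 hcop
    have hd1 : (q.1 : ℤ) ∣ ((q.2 : ℤ) - r.2) * q'.1 := by
      refine ⟨((q'.2 : ℤ) - r'.2) + (k - l) * q'.1, ?_⟩
      linear_combination hN
    have hd2 : (q'.1 : ℤ) ∣ ((q'.2 : ℤ) - r'.2) * q.1 := by
      refine ⟨((q.2 : ℤ) - r.2) - (k - l) * q.1, ?_⟩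
      linear_combination -hN
    have g1 := Cnt_dvd_small q.1 q.2 r.2 a6 (by omega) (hcopZ.dvd_of_dvd_mul_right hd1)
    have g2 := Cnt_dvd_small q'.1 q'.2 r'.2 b6 (by omega) (hcopZ.symm.dvd_of_dvd_mul_right hd2)
    exact ⟨Prod.ext h1 g1, Prod.ext h2 g2⟩

/-- the primes of `pb P` dividing `M` -/
private def CntP (P : ℕ) (M : ℤ) : Finset ℕ := (pb P).filter (fun p : ℕ => (p : ℤ) ∣ M)

/-- at most four primes of `pb P` divide `M`, `0 < |M| < P^5` -/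
private theorem Cnt_pr (P : ℕ) (M : ℤ) (hM : M ≠ 0) (hP : 1 ≤ P) (hb : M.natAbs < P ^ 5) :
    (CntP P M).card ≤ 4 := by
  by_contra hc
  push Not at hc
  have h1 : ∏ p ∈ CntP P M, p ∣ M.natAbs := by
    apply Finset.prod_primes_dvd
    · intro p hp
      simp only [CntP, pb, mem_filter] at hp
      exact hp.1.2.prime
    · intro p hp
      simp only [CntP, mem_filter] at hp
      exact Int.natCast_dvd.1 hp.2
  have h2 : P ^ (CntP P M).card ≤ ∏ p ∈ CntP P M, p := by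
    rw [← Finset.prod_const]
    apply Finset.prod_le_prod'
    intro p hp
    simp only [CntP, pb, mem_filter, mem_Ioc] at hp
    exact hp.1.1.1.le
  have h3 := Nat.le_of_dvd (Int.natAbs_pos.2 hM) h1
  have h4 : P ^ 5 ≤ P ^ (CntP P M).card := Nat.pow_le_pow_right hP hc
  omega

/-- the nonzero integers of absolute value at most `B` -/
private noncomputable def CntZ (B : ℝ) : Finset ℤ := (Icc (-⌊B⌋) ⌊B⌋).erase 0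

private theorem Cnt_Zmem (B : ℝ) (b : ℤ) (h0 : b ≠ 0) (hb : |(b : ℝ)| ≤ B) : b ∈ CntZ B := by
  unfold CntZ
  rw [mem_erase, mem_Icc]
  rw [abs_le] at hb
  refine ⟨h0, ?_, ?_⟩
  · rw [neg_le, Int.le_floor]
    push_cast
    linarith [hb.1]
  · exact Int.le_floor.2 hb.2

private theorem Cnt_Zcard (B : ℝ) (hB : 0 ≤ B) : ((CntZ B).card : ℝ) ≤ 2 * B := by
  have hf : 0 ≤ ⌊B⌋ := Int.floor_nonneg.2 hB
  have h0 : (0 : ℤ) ∈ Icc (-⌊B⌋) ⌊B⌋ := by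
    rw [mem_Icc]
    constructor <;> omega
  have h1 : ((CntZ B).card : ℤ) = 2 * ⌊B⌋ := by
    unfold CntZ
    rw [card_erase_of_mem h0, Int.card_Icc]
    omega
  have h2 : ((CntZ B).card : ℝ) = 2 * (⌊B⌋ : ℝ) := by exact_mod_cast h1
  rw [h2]
  have := Int.floor_le B
  linarith

private theorem Cnt_pb (P : ℕ) : (pb P).card ≤ P := by
  unfold pb
  refine (card_filter_le _ _).trans ?_
  rw [Nat.card_Ioc]
  omega

/-- the data of the first pair -/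
private def CntE1 (P : ℕ) : Finset ((ℕ × ℕ) × ℕ) :=
  ((pb P ×ˢ pb P) ×ˢ {0}) ∪ (((pb P).image (fun p => (p, p))) ×ˢ Icc 1 (2 * P))

private theorem Cnt_E1card (P : ℕ) : (CntE1 P).card ≤ 3 * P ^ 2 := by
  unfold CntE1
  refine (card_union_le _ _).trans ?_
  rw [card_product, card_product, card_product, card_singleton, Nat.card_Icc]
  have h1 := Cnt_pb P
  have h2 : ((pb P).image (fun p => (p, p))).card ≤ P := card_image_le.trans h1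
  calc (pb P).card * (pb P).card * 1 + ((pb P).image (fun p => (p, p))).card * (2 * P + 1 - 1)
      ≤ P * P * 1 + P * (2 * P + 1 - 1) :=
        Nat.add_le_add (Nat.mul_le_mul_right _ (Nat.mul_le_mul h1 h1)) (Nat.mul_le_mul_right _ h2)
    _ = 3 * P ^ 2 := by
        rw [Nat.add_sub_cancel]
        ring

private theorem Cnt_E1mem (P : ℕ) (q q' : ℕ × ℕ) (hq : q ∈ FR P) (hq' : q' ∈ FR P) :
    ((q.1, q'.1), CntE q q') ∈ CntE1 P := by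
  obtain ⟨h1, h2, h3, h4, h5, h6⟩ := Cnt_mem P q hq
  obtain ⟨h1', h2', h3', h4', h5', h6'⟩ := Cnt_mem P q' hq'
  have m1 : q.1 ∈ pb P := by
    simp only [pb, mem_filter, mem_Ioc]
    exact ⟨⟨h1, h2⟩, h3⟩
  have m2 : q'.1 ∈ pb P := by
    simp only [pb, mem_filter, mem_Ioc]
    exact ⟨⟨h1', h2'⟩, h3'⟩
  unfold CntE1 CntE
  rw [mem_union]
  by_cases hp : q.1 = q'.1
  · right
    rw [mem_product, if_pos hp]
    refine ⟨mem_image.2 ⟨q.1, m1, ?_⟩, mem_Icc.2 ⟨h4, h5⟩⟩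
    exact Prod.ext rfl hp
  · left
    rw [mem_product, if_neg hp]
    exact ⟨mem_product.2 ⟨m1, m2⟩, mem_singleton_self 0⟩

/-- the data of the second pair -/
private noncomputable def CntE2 (P : ℕ) (s : ℝ) : Finset (ℤ × ℕ) :=
  (CntZ (4 * P ^ 2 * s) ×ˢ {0}) ∪ (CntZ (2 * P * s) ×ˢ Icc 1 (2 * P))

private theorem Cnt_E2card (P : ℕ) (s : ℝ) (hs : 0 ≤ s) : ((CntE2 P s).card : ℝ) ≤ 16 * P ^ 2 * s := by
  unfold CntE2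
  have h0 : ((CntZ (4 * P ^ 2 * s) ×ˢ ({0} : Finset ℕ)) ∪ (CntZ (2 * P * s) ×ˢ Icc 1 (2 * P))).card ≤
      (CntZ (4 * P ^ 2 * s)).card + (CntZ (2 * P * s)).card * (2 * P) := by
    refine (card_union_le _ _).trans ?_
    rw [card_product, card_product, card_singleton, Nat.card_Icc, Nat.add_sub_cancel, mul_one]
  have h1 := Cnt_Zcard (4 * P ^ 2 * s) (by positivity)
  have h2 := Cnt_Zcard (2 * P * s) (by positivity)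
  have h3 : (((CntZ (4 * P ^ 2 * s) ×ˢ ({0} : Finset ℕ)) ∪ (CntZ (2 * P * s) ×ˢ Icc 1 (2 * P))).card : ℝ) ≤
      ((CntZ (4 * P ^ 2 * s)).card : ℝ) + ((CntZ (2 * P * s)).card : ℝ) * (2 * P) := by
    exact_mod_cast h0
  have h4 : ((CntZ (2 * P * s)).card : ℝ) * (2 * P) ≤ 2 * (2 * P * s) * (2 * P) :=
    mul_le_mul_of_nonneg_right h2 (by positivity)
  refine h3.trans ((add_le_add h1 h4).trans (le_of_eq ?_))
  ring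

private theorem Cnt_D1 (P : ℕ) (q q' : ℕ × ℕ) (hq : q ∈ FR P) (hq' : q' ∈ FR P) :
    1 ≤ CntD q q' ∧ CntD q q' ≤ 4 * P ^ 2 := by
  obtain ⟨h1, h2, h3, h4, h5, h6⟩ := Cnt_mem P q hq
  obtain ⟨h1', h2', h3', h4', h5', h6'⟩ := Cnt_mem P q' hq'
  unfold CntD
  split_ifs with h
  · refine ⟨by omega, ?_⟩
    nlinarith
  · refine ⟨Nat.mul_pos (by omega) (by omega), ?_⟩
    calc q.1 * q'.1 ≤ (2 * P) * (2 * P) := Nat.mul_le_mul h2 h2'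
      _ = 4 * P ^ 2 := by ring

private theorem Cnt_E2mem (P : ℕ) (s : ℝ) (hs : 0 ≤ s) (q q' : ℕ × ℕ) (hq : q ∈ FR P) (hq' : q' ∈ FR P)
    (b : ℤ) (hb : b ≠ 0) (hbs : |(b : ℝ)| ≤ s * CntD q q') : (b, CntE q q') ∈ CntE2 P s := by
  obtain ⟨h1, h2, h3, h4, h5, h6⟩ := Cnt_mem P q hq
  obtain ⟨hd1, hd2⟩ := Cnt_D1 P q q' hq hq'
  unfold CntE2
  rw [mem_union]
  by_cases hp : q.1 = q'.1
  · right
    rw [mem_product]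
    unfold CntE
    rw [if_pos hp]
    refine ⟨Cnt_Zmem _ _ hb (hbs.trans ?_), mem_Icc.2 ⟨h4, h5⟩⟩
    unfold CntD
    rw [if_pos hp, mul_comm]
    have : (q.1 : ℝ) ≤ 2 * P := by exact_mod_cast h2
    exact mul_le_mul_of_nonneg_right this hs
  · left
    rw [mem_product]
    unfold CntE
    rw [if_neg hp]
    refine ⟨Cnt_Zmem _ _ hb (hbs.trans ?_), mem_singleton_self 0⟩
    rw [mul_comm]
    have : (CntD q q' : ℝ) ≤ 4 * P ^ 2 := by exact_mod_cast hd2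
    exact mul_le_mul_of_nonneg_right this hs

/-- the integers `k`, `k - k2` of a quadruple -/
private noncomputable def CntK (t : ((ℕ × ℕ) × (ℕ × ℕ)) × ((ℕ × ℕ) × (ℕ × ℕ))) : ℤ :=
  round (xf t.1.1 - xf t.1.2)

private noncomputable def CntK2 (t : ((ℕ × ℕ) × (ℕ × ℕ)) × ((ℕ × ℕ) × (ℕ × ℕ))) : ℤ :=
  CntK t - round ((xf t.1.1 - xf t.1.2) - (xf t.2.1 - xf t.2.2))

/-- the data of a quadruple -/
private noncomputable def CntF (t : ((ℕ × ℕ) × (ℕ × ℕ)) × ((ℕ × ℕ) × (ℕ × ℕ))) :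
    (((ℕ × ℕ) × ℕ) × (ℤ × ℕ)) × ℤ :=
  ((((t.1.1.1, t.1.2.1), CntE t.1.1 t.1.2), (CntN t.2.1 t.2.2 (CntK2 t), CntE t.2.1 t.2.2)),
    CntN t.1.1 t.1.2 (CntK t) * CntD t.2.1 t.2.2 - CntN t.2.1 t.2.2 (CntK2 t) * CntD t.1.1 t.1.2)

/-- the integer `M` from the data -/
private def CntM (y : (((ℕ × ℕ) × ℕ) × (ℤ × ℕ)) × ℤ) : ℤ :=
  y.2 + y.1.2.1 * (CntD (y.1.1.1.1, 0) (y.1.1.1.2, 0) : ℕ)

private theorem Cnt_M (t : ((ℕ × ℕ) × (ℕ × ℕ)) × ((ℕ × ℕ) × (ℕ × ℕ))) :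
    CntM (CntF t) = CntN t.1.1 t.1.2 (CntK t) * CntD t.2.1 t.2.2 := by
  unfold CntM CntF
  have h : CntD ((t.1.1.1, 0) : ℕ × ℕ) ((t.1.2.1, 0) : ℕ × ℕ) = CntD t.1.1 t.1.2 := by
    unfold CntD
    rfl
  simp only [h]
  ring

/-- the facts about a quadruple -/
private theorem Cnt_fact (P : ℕ) (G ρ : ℝ) (hP : 20 ≤ P) (hG : 0 ≤ G) (hρ : 0 ≤ ρ)
    (t : ((ℕ × ℕ) × (ℕ × ℕ)) × ((ℕ × ℕ) × (ℕ × ℕ)))
    (m1 : t.1.1 ∈ FR P) (m2 : t.1.2 ∈ FR P) (m3 : t.2.1 ∈ FR P) (m4 : t.2.2 ∈ FR P)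
    (n1 : t.1.1 ≠ t.1.2) (n2 : t.2.1 ≠ t.2.2) (g1 : nz (xf t.1.1 - xf t.1.2) ≤ G)
    (g2 : nz ((xf t.1.1 - xf t.1.2) - (xf t.2.1 - xf t.2.2)) ≤ ρ) :
    CntF t ∈ (CntE1 P ×ˢ CntE2 P (G + ρ)) ×ˢ Icc (-⌊16 * ρ * P ^ 4⌋) ⌊16 * ρ * P ^ 4⌋ ∧
    CntM (CntF t) ≠ 0 ∧ (CntM (CntF t)).natAbs < P ^ 5 := by
  obtain ⟨c1, c2⟩ := Cnt_D1 P _ _ m1 m2
  obtain ⟨d1, d2⟩ := Cnt_D1 P _ _ m3 m4
  have ha := Cnt_ne P _ _ m1 m2 n1 (CntK t)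
  have hb := Cnt_ne P _ _ m3 m4 n2 (CntK2 t)
  have ea := Cnt_eq P _ _ m1 m2 (CntK t)
  have eb := Cnt_eq P _ _ m3 m4 (CntK2 t)
  have c1' : (1 : ℝ) ≤ CntD t.1.1 t.1.2 := by exact_mod_cast c1
  have c2' : (CntD t.1.1 t.1.2 : ℝ) ≤ 4 * P ^ 2 := by exact_mod_cast c2
  have d1' : (1 : ℝ) ≤ CntD t.2.1 t.2.2 := by exact_mod_cast d1
  have d2' : (CntD t.2.1 t.2.2 : ℝ) ≤ 4 * P ^ 2 := by exact_mod_cast d2
  have e1 : |xf t.1.1 - xf t.1.2 - (CntK t : ℤ)| ≤ G := g1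
  have e2 : |(xf t.1.1 - xf t.1.2) - (xf t.2.1 - xf t.2.2) -
      (round ((xf t.1.1 - xf t.1.2) - (xf t.2.1 - xf t.2.2)) : ℤ)| ≤ ρ := g2
  have ek : ((CntK2 t : ℤ) : ℝ) = (CntK t : ℤ) -
      (round ((xf t.1.1 - xf t.1.2) - (xf t.2.1 - xf t.2.2)) : ℤ) := by
    unfold CntK2
    push_cast
    ring
  have e3 : |xf t.1.1 - xf t.1.2 - (CntK t : ℤ)| ≤ 1 / 2 := abs_sub_round _
  have e4 : |(xf t.1.1 - xf t.1.2 - (CntK t : ℤ)) - (xf t.2.1 - xf t.2.2 - (CntK2 t : ℤ))| ≤ ρ := by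
    rw [ek]
    refine le_of_eq_of_le ?_ e2
    congr 1
    ring
  have e5 : |xf t.2.1 - xf t.2.2 - (CntK2 t : ℤ)| ≤ G + ρ := by
    have := abs_sub_abs_le_abs_sub (xf t.2.1 - xf t.2.2 - (CntK2 t : ℤ)) (xf t.1.1 - xf t.1.2 - (CntK t : ℤ))
    rw [abs_sub_comm (xf t.2.1 - xf t.2.2 - (CntK2 t : ℤ) : ℝ) (xf t.1.1 - xf t.1.2 - (CntK t : ℤ))] at this
    linarith
  have hDD : (CntD t.1.1 t.1.2 : ℝ) * CntD t.2.1 t.2.2 ≤ 16 * P ^ 4 := by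
    calc (CntD t.1.1 t.1.2 : ℝ) * CntD t.2.1 t.2.2 ≤ (4 * P ^ 2) * (4 * P ^ 2) :=
          mul_le_mul c2' d2' (by linarith) (by positivity)
      _ = 16 * P ^ 4 := by ring
  have hDD0 : 0 ≤ (CntD t.1.1 t.1.2 : ℝ) * CntD t.2.1 t.2.2 := by positivity
  refine ⟨?_, ?_, ?_⟩
  · unfold CntF
    rw [mem_product, mem_product, mem_Icc]
    refine ⟨⟨Cnt_E1mem P _ _ m1 m2, Cnt_E2mem P _ (by linarith) _ _ m3 m4 _ hb ?_⟩, ?_⟩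
    · rw [eb, abs_mul, abs_of_nonneg (by linarith : (0 : ℝ) ≤ CntD t.2.1 t.2.2)]
      exact mul_le_mul_of_nonneg_right e5 (by linarith)
    · have hN : |((CntN t.1.1 t.1.2 (CntK t) * CntD t.2.1 t.2.2 -
          CntN t.2.1 t.2.2 (CntK2 t) * CntD t.1.1 t.1.2 : ℤ) : ℝ)| ≤ 16 * ρ * P ^ 4 := by
        have : ((CntN t.1.1 t.1.2 (CntK t) * CntD t.2.1 t.2.2 -
          CntN t.2.1 t.2.2 (CntK2 t) * CntD t.1.1 t.1.2 : ℤ) : ℝ) =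
          ((xf t.1.1 - xf t.1.2 - (CntK t : ℤ)) - (xf t.2.1 - xf t.2.2 - (CntK2 t : ℤ))) *
            ((CntD t.1.1 t.1.2 : ℝ) * CntD t.2.1 t.2.2) := by
          push_cast
          rw [ea, eb]
          ring
        rw [this, abs_mul, abs_of_nonneg hDD0]
        calc _ ≤ ρ * (16 * P ^ 4) := mul_le_mul e4 hDD hDD0 hρ
          _ = 16 * ρ * P ^ 4 := by ring
      rw [abs_le] at hN
      refine ⟨?_, Int.le_floor.2 hN.2⟩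
      rw [neg_le, Int.le_floor]
      push_cast
      push_cast at hN
      linarith [hN.1]
  · rw [Cnt_M]
    exact mul_ne_zero ha (by exact_mod_cast (by omega : CntD t.2.1 t.2.2 ≠ 0))
  · rw [Cnt_M]
    have hM : |((CntN t.1.1 t.1.2 (CntK t) * CntD t.2.1 t.2.2 : ℤ) : ℝ)| ≤ 8 * P ^ 4 := by
      push_cast
      rw [ea, mul_assoc, abs_mul, abs_of_nonneg hDD0]
      calc _ ≤ (1 / 2) * (16 * (P : ℝ) ^ 4) := mul_le_mul e3 hDD hDD0 (by norm_num)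
        _ = 8 * P ^ 4 := by ring
    have hM2 : ((CntN t.1.1 t.1.2 (CntK t) * CntD t.2.1 t.2.2).natAbs : ℝ) ≤ 8 * P ^ 4 := by
      rw [Nat.cast_natAbs]
      push_cast
      push_cast at hM
      exact hM
    have hM3 : (CntN t.1.1 t.1.2 (CntK t) * CntD t.2.1 t.2.2).natAbs ≤ 8 * P ^ 4 := by exact_mod_cast hM2
    have hM4 : 8 * P ^ 4 < P ^ 5 := by
      have : 0 < P ^ 4 := by positivity
      calc 8 * P ^ 4 < P * P ^ 4 := Nat.mul_lt_mul_of_pos_right (by omega) this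
        _ = P ^ 5 := by ring
    omega

open Classical in
theorem cnt : ∃ C : ℝ, 0 < C ∧ ∀ (P : ℕ) (G ρ : ℝ), 20 ≤ P → 0 ≤ G → G ≤ 1 → 0 ≤ ρ → ρ ≤ 1 →
    ((((FR P ×ˢ FR P) ×ˢ (FR P ×ˢ FR P)).filter (fun t => t.1.1 ≠ t.1.2 ∧ t.2.1 ≠ t.2.2 ∧
      nz (xf t.1.1 - xf t.1.2) ≤ G ∧ nz ((xf t.1.1 - xf t.1.2) - (xf t.2.1 - xf t.2.2)) ≤ ρ)).card : ℝ) ≤
      C * P ^ 4 * (G + ρ) * (1 + ρ * P ^ 4) := by
  refine ⟨24576, by norm_num, ?_⟩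
  intro P G ρ hP hG hG1 hρ hρ1
  have key : ∀ t ∈ (((FR P ×ˢ FR P) ×ˢ (FR P ×ˢ FR P)).filter (fun t => t.1.1 ≠ t.1.2 ∧ t.2.1 ≠ t.2.2 ∧
      nz (xf t.1.1 - xf t.1.2) ≤ G ∧ nz ((xf t.1.1 - xf t.1.2) - (xf t.2.1 - xf t.2.2)) ≤ ρ)),
      (t.1.1 ∈ FR P ∧ t.1.2 ∈ FR P ∧ t.2.1 ∈ FR P ∧ t.2.2 ∈ FR P) ∧
      CntF t ∈ (CntE1 P ×ˢ CntE2 P (G + ρ)) ×ˢ Icc (-⌊16 * ρ * P ^ 4⌋) ⌊16 * ρ * P ^ 4⌋ ∧
      CntM (CntF t) ≠ 0 ∧ (CntM (CntF t)).natAbs < P ^ 5 := by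
    intro t ht
    rw [mem_filter, mem_product, mem_product, mem_product] at ht
    obtain ⟨⟨⟨m1, m2⟩, m3, m4⟩, n1, n2, g1, g2⟩ := ht
    exact ⟨⟨m1, m2, m3, m4⟩, Cnt_fact P G ρ hP hG hρ t m1 m2 m3 m4 n1 n2 g1 g2⟩
  have hcard : (((FR P ×ˢ FR P) ×ˢ (FR P ×ˢ FR P)).filter (fun t => t.1.1 ≠ t.1.2 ∧ t.2.1 ≠ t.2.2 ∧
      nz (xf t.1.1 - xf t.1.2) ≤ G ∧ nz ((xf t.1.1 - xf t.1.2) - (xf t.2.1 - xf t.2.2)) ≤ ρ)).card ≤
      16 * ((CntE1 P ×ˢ CntE2 P (G + ρ)) ×ˢ Icc (-⌊16 * ρ * P ^ 4⌋) ⌊16 * ρ * P ^ 4⌋).card := by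
    refine card_le_mul_card_image_of_maps_to (f := CntF) (fun t ht => (key t ht).2.1) 16 ?_
    intro y _
    have hsub : ∀ t ∈ ((((FR P ×ˢ FR P) ×ˢ (FR P ×ˢ FR P)).filter (fun t => t.1.1 ≠ t.1.2 ∧ t.2.1 ≠ t.2.2 ∧
      nz (xf t.1.1 - xf t.1.2) ≤ G ∧ nz ((xf t.1.1 - xf t.1.2) - (xf t.2.1 - xf t.2.2)) ≤ ρ)).filter
        (fun t => CntF t = y)), (t.2.1.1, t.2.2.1) ∈ CntP P (CntM y) ×ˢ CntP P (CntM y) := by
      intro t ht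
      rw [mem_filter] at ht
      obtain ⟨⟨m1, m2, m3, m4⟩, _⟩ := key t ht.1
      obtain ⟨h1, h2, h3, h4, h5, h6⟩ := Cnt_mem P _ m3
      obtain ⟨h1', h2', h3', h4', h5', h6'⟩ := Cnt_mem P _ m4
      rw [← ht.2, Cnt_M]
      simp only [CntP, pb, mem_product, mem_filter, mem_Ioc]
      refine ⟨⟨⟨⟨h1, h2⟩, h3⟩, Dvd.dvd.mul_left ?_ _⟩, ⟨⟨h1', h2'⟩, h3'⟩, Dvd.dvd.mul_left ?_ _⟩
      · unfold CntD
        split_ifs with h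
        · exact dvd_refl _
        · exact_mod_cast Dvd.intro _ rfl
      · unfold CntD
        split_ifs with h
        · rw [h]
        · exact_mod_cast Dvd.intro_left _ rfl
    have hinj : Set.InjOn (fun t : ((ℕ × ℕ) × (ℕ × ℕ)) × ((ℕ × ℕ) × (ℕ × ℕ)) => (t.2.1.1, t.2.2.1))
        ((((((FR P ×ˢ FR P) ×ˢ (FR P ×ˢ FR P)).filter (fun t => t.1.1 ≠ t.1.2 ∧ t.2.1 ≠ t.2.2 ∧
      nz (xf t.1.1 - xf t.1.2) ≤ G ∧ nz ((xf t.1.1 - xf t.1.2) - (xf t.2.1 - xf t.2.2)) ≤ ρ)).filter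
        (fun t => CntF t = y)) : Finset _) : Set (((ℕ × ℕ) × (ℕ × ℕ)) × ((ℕ × ℕ) × (ℕ × ℕ)))) := by
      intro t ht s hs hts
      rw [mem_coe, mem_filter] at ht hs
      obtain ⟨⟨m1, m2, m3, m4⟩, _⟩ := key t ht.1
      obtain ⟨⟨k1, k2, k3, k4⟩, _⟩ := key s hs.1
      have hF : CntF t = CntF s := ht.2.trans hs.2.symm
      have hMM := congrArg CntM hF
      rw [Cnt_M, Cnt_M] at hMM
      have hts' : (t.2.1.1, t.2.2.1) = (s.2.1.1, s.2.2.1) := hts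
      have p21 : t.2.1.1 = s.2.1.1 := (Prod.mk.inj hts').1
      have p22 : t.2.2.1 = s.2.2.1 := (Prod.mk.inj hts').2
      have p11 : t.1.1.1 = s.1.1.1 := congrArg (fun y => y.1.1.1.1) hF
      have p12 : t.1.2.1 = s.1.2.1 := congrArg (fun y => y.1.1.1.2) hF
      have pE1 : CntE t.1.1 t.1.2 = CntE s.1.1 s.1.2 := congrArg (fun y => y.1.1.2) hF
      have pE2 : CntE t.2.1 t.2.2 = CntE s.2.1 s.2.2 := congrArg (fun y => y.1.2.2) hF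
      have pb2 : CntN t.2.1 t.2.2 (CntK2 t) = CntN s.2.1 s.2.2 (CntK2 s) := congrArg (fun y => y.1.2.1) hF
      have hD : CntD t.2.1 t.2.2 = CntD s.2.1 s.2.2 := by
        unfold CntD
        rw [p21, p22]
      rw [hD] at hMM
      have hD0 : (CntD s.2.1 s.2.2 : ℤ) ≠ 0 := by
        have := (Cnt_D1 P _ _ k3 k4).1
        omega
      have pa2 := mul_right_cancel₀ hD0 hMM
      obtain ⟨r1, r2⟩ := Cnt_det P _ _ _ _ m1 m2 k1 k2 p11 p12 pE1 _ _ pa2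
      obtain ⟨r3, r4⟩ := Cnt_det P _ _ _ _ m3 m4 k3 k4 p21 p22 pE2 _ _ pb2
      exact Prod.ext (Prod.ext r1 r2) (Prod.ext r3 r4)
    by_cases hne : ((((FR P ×ˢ FR P) ×ˢ (FR P ×ˢ FR P)).filter (fun t => t.1.1 ≠ t.1.2 ∧ t.2.1 ≠ t.2.2 ∧
      nz (xf t.1.1 - xf t.1.2) ≤ G ∧ nz ((xf t.1.1 - xf t.1.2) - (xf t.2.1 - xf t.2.2)) ≤ ρ)).filter
        (fun t => CntF t = y)).Nonempty
    · obtain ⟨t0, ht0⟩ := hne
      rw [mem_filter] at ht0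
      obtain ⟨_, _, hM0, hM1⟩ := key t0 ht0.1
      rw [ht0.2] at hM0 hM1
      have h4 := Cnt_pr P (CntM y) hM0 (by omega) hM1
      refine (card_le_card_of_injOn _ hsub hinj).trans ?_
      rw [card_product]
      calc (CntP P (CntM y)).card * (CntP P (CntM y)).card ≤ 4 * 4 := Nat.mul_le_mul h4 h4
        _ = 16 := rfl
    · rw [not_nonempty_iff_eq_empty] at hne
      rw [hne, card_empty]
      omega
  have hE1 : ((CntE1 P).card : ℝ) ≤ 3 * P ^ 2 := by exact_mod_cast Cnt_E1card P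
  have hs : 0 ≤ G + ρ := by linarith
  have hE2 := Cnt_E2card P (G + ρ) hs
  have hB : 0 ≤ 16 * ρ * (P : ℝ) ^ 4 := by positivity
  have hf0 : 0 ≤ ⌊16 * ρ * (P : ℝ) ^ 4⌋ := Int.floor_nonneg.2 hB
  have hI : ((Icc (-⌊16 * ρ * (P : ℝ) ^ 4⌋) ⌊16 * ρ * (P : ℝ) ^ 4⌋).card : ℝ) ≤ 32 * ρ * P ^ 4 + 1 := by
    have h1 : ((Icc (-⌊16 * ρ * (P : ℝ) ^ 4⌋) ⌊16 * ρ * (P : ℝ) ^ 4⌋).card : ℤ) =
        2 * ⌊16 * ρ * (P : ℝ) ^ 4⌋ + 1 := by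
      rw [Int.card_Icc]
      omega
    have h2 : ((Icc (-⌊16 * ρ * (P : ℝ) ^ 4⌋) ⌊16 * ρ * (P : ℝ) ^ 4⌋).card : ℝ) =
        2 * (⌊16 * ρ * (P : ℝ) ^ 4⌋ : ℝ) + 1 := by exact_mod_cast h1
    rw [h2]
    have := Int.floor_le (16 * ρ * (P : ℝ) ^ 4)
    linarith
  have hcard' : ((((FR P ×ˢ FR P) ×ˢ (FR P ×ˢ FR P)).filter (fun t => t.1.1 ≠ t.1.2 ∧ t.2.1 ≠ t.2.2 ∧
      nz (xf t.1.1 - xf t.1.2) ≤ G ∧ nz ((xf t.1.1 - xf t.1.2) - (xf t.2.1 - xf t.2.2)) ≤ ρ)).card : ℝ) ≤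
      16 * (((CntE1 P).card : ℝ) * ((CntE2 P (G + ρ)).card : ℝ) *
        ((Icc (-⌊16 * ρ * (P : ℝ) ^ 4⌋) ⌊16 * ρ * (P : ℝ) ^ 4⌋).card : ℝ)) := by
    rw [card_product, card_product] at hcard
    exact_mod_cast hcard
  refine hcard'.trans ?_
  have h1 : ((CntE1 P).card : ℝ) * ((CntE2 P (G + ρ)).card : ℝ) ≤ 3 * P ^ 2 * (16 * P ^ 2 * (G + ρ)) :=
    mul_le_mul hE1 hE2 (Nat.cast_nonneg _) (by positivity)
  have h2 : ((CntE1 P).card : ℝ) * ((CntE2 P (G + ρ)).card : ℝ) *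
        ((Icc (-⌊16 * ρ * (P : ℝ) ^ 4⌋) ⌊16 * ρ * (P : ℝ) ^ 4⌋).card : ℝ) ≤
        3 * P ^ 2 * (16 * P ^ 2 * (G + ρ)) * (32 * ρ * P ^ 4 + 1) :=
    mul_le_mul h1 hI (Nat.cast_nonneg _) (by positivity)
  have h3 : 32 * ρ * (P : ℝ) ^ 4 + 1 ≤ 32 * (1 + ρ * P ^ 4) := by linarith
  have h4 : 3 * (P : ℝ) ^ 2 * (16 * P ^ 2 * (G + ρ)) * (32 * ρ * P ^ 4 + 1) ≤
      3 * P ^ 2 * (16 * P ^ 2 * (G + ρ)) * (32 * (1 + ρ * P ^ 4)) :=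
    mul_le_mul_of_nonneg_left h3 (by positivity)
  have h5 : 16 * (3 * (P : ℝ) ^ 2 * (16 * P ^ 2 * (G + ρ)) * (32 * (1 + ρ * P ^ 4))) =
      24576 * P ^ 4 * (G + ρ) * (1 + ρ * P ^ 4) := by ring
  rw [← h5]
  linarith

end Pool.Agent.H56.TI
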