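import Pool.Agent.H53.MID.Defs

/-!
# PROJECT TI (MP_967f73_nt): type I sums beyond the length of the window: definitions

`Phi P w m = ∑_{p ∈ pb P} w(p) (1[p ∣ m] - 1/p)`, `|w| ≤ 1`.  Theorem (`Blk.lean`): if `P^4 N^e ≤ N H`, `H ≤ P^2`, `H^2 ≤ N`, then for all
but `N^(1-δ)/H` blocks `I = [iH, (i+1)H)`: `sup_α |∑_{m ∈ I} Phi(m) ee(-m α)| ≤ H N^(-δ)`.

* `FR P`: the pairs `(p, u)`, `p ∈ pb P`, `0 < u < p`; `xf (p, u) = u/p` (any two of these fractions are distinct modulo 1, with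
  distance `nz ≥ 1/(4P²)`);
* `fej K β = |∑_{t<K} ee(tβ)|²/K = ∑_{|t|<K} (1 - |t|/K) ee(tβ) ≥ 0`: the Fejér kernel;
* `SF P K w α x = ∑_{(p,u)} (w(p)/p) fej K (u/p - α) ee(x u/p) = ∑_{|t|<K} (1 - |t|/K) Phi(x+t) ee(-tα)`;
* `Wk K r = min(K, 1/(K r²))`;
* `T4 P K J X = ∑_{q1,q2,q3,q4 ∈ FR} (∑_{j<J} ∏_i fej K (x_i - j/J)) fej X (x1 + x2 - x3 - x4)`, `x_i = xf q_i`.
-/

set_option autoImplicit false

namespace Pool.Agent.H56.TI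

open Finset
open Pool.Agent.H91.PK (ee)
open Pool.Agent.H35.W (pb)
open Pool.Agent.H53.MID (Bs nz)

/-- `∑_{p ∈ pb P} w(p) (1[p ∣ m] - 1/p)` -/
noncomputable def Phi (P : ℕ) (w : ℕ → ℝ) (m : ℕ) : ℝ :=
  ∑ p ∈ pb P, w p * ((if p ∣ m then 1 else 0) - 1 / (p : ℝ))

/-- the pairs `(p, u)`, `p ∈ pb P`, `0 < u < p` -/
def FR (P : ℕ) : Finset (ℕ × ℕ) := ((pb P) ×ˢ (Icc 1 (2 * P))).filter (fun q => q.2 < q.1)

/-- the fraction `u/p` -/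
noncomputable def xf (q : ℕ × ℕ) : ℝ := (q.2 : ℝ) / (q.1 : ℝ)

/-- the Fejér kernel -/
noncomputable def fej (K : ℕ) (β : ℝ) : ℝ := ‖∑ t ∈ range K, ee (t * β)‖ ^ 2 / K

/-- the triangular sum around `x`, frequency representation -/
noncomputable def SF (P K : ℕ) (w : ℕ → ℝ) (α : ℝ) (x : ℤ) : ℂ :=
  ∑ q ∈ FR P, ((w q.1 / q.1 * fej K (xf q - α) : ℝ) : ℂ) * ee (x * xf q)

/-- `min(K, 1/(K r^2))` -/
noncomputable def Wk (K : ℕ) (r : ℝ) : ℝ := if K * r ≤ 1 then (K : ℝ) else 1 / (K * r ^ 2)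

/-- the product of the four kernels, summed over the grid -/
noncomputable def Tj (K J : ℕ) (q1 q2 q3 q4 : ℕ × ℕ) : ℝ :=
  ∑ j ∈ range J, fej K (xf q1 - j / J) * fej K (xf q2 - j / J) * fej K (xf q3 - j / J) * fej K (xf q4 - j / J)

/-- the majorant of the fourth moment -/
noncomputable def T4 (P K J X : ℕ) : ℝ :=
  ∑ q1 ∈ FR P, ∑ q2 ∈ FR P, ∑ q3 ∈ FR P, ∑ q4 ∈ FR P,
    Tj K J q1 q2 q3 q4 * fej X (xf q1 + xf q2 - xf q3 - xf q4)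

end Pool.Agent.H56.TI
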