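import Pool.Agent.H56.TI.Fej

/-!
# TI Expand: additive characters

* `phi_exp`: `1[p ∣ m] - 1/p = (1/p) ∑_{u=1}^{p-1} ee(m u/p)` (`∑_{u<p} ee(mu/p) = p 1[p ∣ m]`), for integers `m` (here natural); so
  `Phi P w m = ∑_{(p,u) ∈ FR P} (w(p)/p) ee(m u/p)`.
* `sf_tri`: `fej_exp` for `fej K (xf q - α)`, exchange the sums; `K ≤ x`, the integers `x + t`, `|t| < K`, are the naturals of `Ioo (x-K) (x+K)`.
* `phi_abs`: at most `log m/log P` primes `> P` divide `m ≥ 1` (`m < P^(k+1)`: at most `k`); `∑_{p ∈ pb P} 1/p ≤ 1`.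
-/

set_option autoImplicit false

namespace Pool.Agent.H56.TI

open Finset
open Pool.Agent.H91.PK (ee)
open Pool.Agent.H35.W (pb)
open Pool.Agent.H53.MID (Bs nz)

private theorem Expand_ee_add (a b : ℝ) : ee (a + b) = ee a * ee b := by
  unfold ee
  rw [← Complex.exp_add]
  congr 1
  push_cast
  ring

private theorem Expand_ee_int (n : ℤ) : ee (n : ℝ) = 1 := by
  unfold ee
  rw [Complex.exp_eq_one_iff]
  exact ⟨n, by push_cast; ring⟩

private theorem Expand_ee_nat_mul (t : ℝ) (b : ℕ) : ee ((b : ℝ) * t) = ee t ^ b := by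
  unfold ee
  rw [← Complex.exp_nat_mul]
  congr 1
  push_cast
  ring

private theorem Expand_full (p m : ℕ) (hp : 0 < p) :
    ∑ u ∈ range p, ee ((m : ℝ) * ((u : ℝ) / (p : ℝ))) = if p ∣ m then (p : ℂ) else 0 := by
  have hp0 : (p : ℝ) ≠ 0 := by exact_mod_cast hp.ne'
  have hterm : ∀ u : ℕ, ee ((m : ℝ) * ((u : ℝ) / (p : ℝ))) = ee ((m : ℝ) / p) ^ u := by
    intro u
    rw [← Expand_ee_nat_mul]
    congr 1
    ring
  simp_rw [hterm]
  split_ifs with h
  · obtain ⟨k, rfl⟩ := h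
    have h1 : ee (((p * k : ℕ) : ℝ) / p) = 1 := by
      have h2 : (((p * k : ℕ) : ℝ) / p) = ((k : ℤ) : ℝ) := by
        push_cast
        field_simp
      rw [h2, Expand_ee_int]
    rw [h1]
    simp
  · have hz1 : ee ((m : ℝ) / p) ≠ 1 := by
      intro h1
      unfold ee at h1
      rw [Complex.exp_eq_one_iff] at h1
      obtain ⟨n, hn⟩ := h1
      have h2 : (((m : ℝ) / p : ℝ) : ℂ) = ((n : ℝ) : ℂ) := by
        have hne : (2 * (Real.pi : ℂ) * Complex.I) ≠ 0 := Complex.two_pi_I_ne_zero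
        apply mul_right_cancel₀ hne
        push_cast at hn ⊢
        linear_combination hn
      have h3 : (m : ℝ) / p = (n : ℝ) := by exact_mod_cast h2
      have h4 : (m : ℝ) = (p : ℝ) * (n : ℝ) := by
        rw [← h3]
        field_simp
      have h5 : (m : ℤ) = (p : ℤ) * n := by exact_mod_cast h4
      apply h
      have h6 : (p : ℤ) ∣ (m : ℤ) := ⟨n, h5⟩
      exact_mod_cast h6
    have hzp : ee ((m : ℝ) / p) ^ p = 1 := by
      rw [← Expand_ee_nat_mul]
      have h2 : (p : ℝ) * ((m : ℝ) / p) = ((m : ℤ) : ℝ) := by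
        push_cast
        field_simp
      rw [h2, Expand_ee_int]
    rw [geom_sum_eq hz1, hzp, sub_self, zero_div]

private theorem Expand_mem_pb {P p : ℕ} (hp : p ∈ pb P) : P < p ∧ p ≤ 2 * P ∧ p.Prime := by
  unfold pb at hp
  rw [mem_filter, mem_Ioc] at hp
  exact ⟨hp.1.1, hp.1.2, hp.2⟩

theorem phi_exp (P : ℕ) (w : ℕ → ℝ) (m : ℕ) :
    ((Phi P w m : ℝ) : ℂ) = ∑ q ∈ FR P, ((w q.1 / q.1 : ℝ) : ℂ) * ee (m * xf q) := by
  unfold Phi FR xf
  rw [sum_filter, sum_product, Complex.ofReal_sum]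
  refine sum_congr rfl fun p hp => ?_
  obtain ⟨h1, h2, h3⟩ := Expand_mem_pb hp
  have hp0 : (p : ℂ) ≠ 0 := by exact_mod_cast h3.pos.ne'
  simp only
  rw [← sum_filter]
  have hset : (Icc 1 (2 * P)).filter (fun u => u < p) = (range p).erase 0 := by
    ext u
    simp only [mem_filter, mem_Icc, mem_erase, mem_range]
    omega
  rw [hset, ← mul_sum, sum_erase_eq_sub (mem_range.2 h3.pos), Expand_full p m h3.pos]
  have h0 : ee ((m : ℝ) * (((0 : ℕ) : ℝ) / (p : ℝ))) = 1 := by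
    have : (m : ℝ) * (((0 : ℕ) : ℝ) / (p : ℝ)) = ((0 : ℤ) : ℝ) := by push_cast; ring
    rw [this, Expand_ee_int]
  rw [h0]
  split_ifs with h
  · push_cast
    field_simp
  · push_cast
    field_simp
    ring

theorem sf_tri (P K : ℕ) (w : ℕ → ℝ) (α : ℝ) (x : ℕ) (hK : 1 ≤ K) (hx : K ≤ x) :
    SF P K w α x = ∑ m ∈ Ioo (x - K) (x + K),
      (((1 - |(m : ℝ) - x| / K) * Phi P w m : ℝ) : ℂ) * ee (-(((m : ℝ) - x) * α)) := by
  unfold SF
  have e1 : ∀ q ∈ FR P, ((w q.1 / q.1 * fej K (xf q - α) : ℝ) : ℂ) * ee (((x : ℤ) : ℝ) * xf q)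
      = ∑ m ∈ Ioo (x - K) (x + K), ((1 - |(m : ℝ) - x| / K : ℝ) : ℂ) * ee (-(((m : ℝ) - x) * α))
          * (((w q.1 / q.1 : ℝ) : ℂ) * ee (m * xf q)) := by
    intro q _
    have e2 : ((w q.1 / q.1 * fej K (xf q - α) : ℝ) : ℂ)
        = ((w q.1 / q.1 : ℝ) : ℂ) * ((fej K (xf q - α) : ℝ) : ℂ) := by push_cast; ring
    rw [e2, fej_exp K hK, mul_sum, sum_mul]
    symm
    refine sum_bij' (fun (m : ℕ) _ => (m : ℤ) - x) (fun (t : ℤ) _ => ((x : ℤ) + t).toNat) ?_ ?_ ?_ ?_ ?_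
    · intro m hm
      rw [mem_Ioo] at hm ⊢
      omega
    · intro t ht
      rw [mem_Ioo] at ht ⊢
      omega
    · intro m hm
      rw [mem_Ioo] at hm
      omega
    · intro t ht
      rw [mem_Ioo] at ht
      omega
    · intro m hm
      have e3 : (((m : ℤ) - (x : ℤ) : ℤ) : ℝ) = (m : ℝ) - x := by push_cast; ring
      rw [e3]
      have e4 : ee ((m : ℝ) * xf q) = ee (((m : ℝ) - x) * xf q) * ee (((x : ℤ) : ℝ) * xf q) := by
        rw [← Expand_ee_add]
        congr 1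
        push_cast
        ring
      have e5 : ee (((m : ℝ) - x) * (xf q - α)) = ee (((m : ℝ) - x) * xf q) * ee (-(((m : ℝ) - x) * α)) := by
        rw [← Expand_ee_add]
        congr 1
        ring
      rw [e4, e5]
      ring
  rw [sum_congr rfl e1, sum_comm]
  refine sum_congr rfl fun m _ => ?_
  rw [← mul_sum, ← phi_exp]
  push_cast
  ring

/-- at most `k` primes of `pb P` divide `m` if `0 < m < P^(k+1)` -/
theorem card_dvd (P k m : ℕ) (hP : 2 ≤ P) (hm : 1 ≤ m) (hk : m < P ^ (k + 1)) :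
    ((pb P).filter (fun p => p ∣ m)).card ≤ k := by
  by_contra hcon
  have hcon : k + 1 ≤ ((pb P).filter (fun p => p ∣ m)).card := by omega
  have h1 : ∏ p ∈ (pb P).filter (fun p => p ∣ m), p ∣ m := by
    refine Finset.prod_primes_dvd m ?_ ?_
    · intro p hp
      rw [mem_filter] at hp
      exact (Expand_mem_pb hp.1).2.2.prime
    · intro p hp
      rw [mem_filter] at hp
      exact hp.2
  have h2 : ∏ p ∈ (pb P).filter (fun p => p ∣ m), P ≤ ∏ p ∈ (pb P).filter (fun p => p ∣ m), p := by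
    refine prod_le_prod (fun _ _ => Nat.zero_le _) ?_
    intro p hp
    rw [mem_filter] at hp
    exact (Expand_mem_pb hp.1).1.le
  rw [prod_const] at h2
  have h3 := Nat.le_of_dvd (by omega) h1
  have h4 : P ^ (k + 1) ≤ P ^ ((pb P).filter (fun p => p ∣ m)).card :=
    Nat.pow_le_pow_right (by omega) hcon
  omega

theorem phi_abs (P k m : ℕ) (w : ℕ → ℝ) (hw : ∀ p, |w p| ≤ 1) (hP : 2 ≤ P) (hm : 1 ≤ m) (hk : m < P ^ (k + 1)) :
    |Phi P w m| ≤ k + 1 := by
  have h1 : |Phi P w m| ≤ ∑ p ∈ pb P, ((if p ∣ m then (1 : ℝ) else 0) + 1 / (P : ℝ)) := by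
    unfold Phi
    refine (abs_sum_le_sum_abs _ _).trans (sum_le_sum fun p hp => ?_)
    obtain ⟨h1, h2, h3⟩ := Expand_mem_pb hp
    have hP0 : (0 : ℝ) < P := by exact_mod_cast (by omega : 0 < P)
    have hpP : (P : ℝ) ≤ p := by exact_mod_cast h1.le
    have h4 : 1 / (p : ℝ) ≤ 1 / (P : ℝ) := one_div_le_one_div_of_le hP0 hpP
    have h5 : 0 ≤ 1 / (p : ℝ) := by positivity
    rw [abs_mul]
    have h6 : |(if p ∣ m then (1 : ℝ) else 0) - 1 / (p : ℝ)| ≤ (if p ∣ m then (1 : ℝ) else 0) + 1 / (P : ℝ) := by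
      rw [abs_le]
      split_ifs <;> constructor <;> linarith
    calc |w p| * |(if p ∣ m then (1 : ℝ) else 0) - 1 / (p : ℝ)|
        ≤ 1 * |(if p ∣ m then (1 : ℝ) else 0) - 1 / (p : ℝ)| :=
          mul_le_mul_of_nonneg_right (hw p) (abs_nonneg _)
      _ ≤ _ := by rw [one_mul]; exact h6
  have h2 : ∑ p ∈ pb P, (if p ∣ m then (1 : ℝ) else 0) ≤ k := by
    rw [← sum_filter, sum_const, nsmul_eq_mul, mul_one]
    exact_mod_cast card_dvd P k m hP hm hk
  have h3 : ∑ p ∈ pb P, 1 / (P : ℝ) ≤ 1 := by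
    rw [sum_const, nsmul_eq_mul]
    have hP0 : (0 : ℝ) < P := by exact_mod_cast (by omega : 0 < P)
    have h4 : (pb P).card ≤ P := by
      unfold pb
      refine (card_filter_le _ _).trans ?_
      rw [Nat.card_Ioc]
      omega
    have h5 : ((pb P).card : ℝ) ≤ P := by exact_mod_cast h4
    rw [mul_one_div, div_le_one hP0]
    exact h5
  rw [sum_add_distrib] at h1
  linarith

end Pool.Agent.H56.TI
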