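import Pool.Agent.H56.TI.Defs

set_option autoImplicit false

namespace Pool.Agent.H56.TI

open Finset
open Pool.Agent.H91.PK (ee)
open Pool.Agent.H35.W (pb)
open Pool.Agent.H53.MID (Bs nz)

private theorem ee_add' (s t : ℝ) : ee (s + t) = ee s * ee t := by
  unfold ee
  rw [← Complex.exp_add]
  congr 1
  push_cast
  ring

private theorem ee_intc (j : ℤ) : ee j = 1 := by
  unfold ee
  rw [Complex.exp_eq_one_iff]
  exact ⟨j, by push_cast; ring⟩

private theorem norm_ee' (t : ℝ) : ‖ee t‖ = 1 := by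
  unfold ee
  have h : (2 * (Real.pi : ℂ) * (t : ℂ) * Complex.I) = ((2 * Real.pi * t : ℝ) : ℂ) * Complex.I := by
    push_cast; ring
  rw [h]
  exact Complex.norm_exp_ofReal_mul_I _

private theorem conj_ee (t : ℝ) : (starRingEnd ℂ) (ee t) = ee (-t) := by
  unfold ee
  rw [← Complex.exp_conj]
  congr 1
  simp only [map_mul, Complex.conj_ofReal, Complex.conj_I, map_ofNat]
  push_cast
  ring

theorem fej_nonneg (K : ℕ) (β : ℝ) : 0 ≤ fej K β := by
  unfold fej
  positivity

private theorem norm_S_le (K : ℕ) (β : ℝ) : ‖∑ t ∈ range K, ee (t * β)‖ ≤ K := by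
  refine (norm_sum_le _ _).trans ?_
  simp [norm_ee']

theorem fej_le (K : ℕ) (β : ℝ) : fej K β ≤ K := by
  unfold fej
  rcases Nat.eq_zero_or_pos K with hK | hK
  · subst hK; simp
  · have hK' : (0 : ℝ) < K := by exact_mod_cast hK
    rw [div_le_iff₀ hK']
    have h := norm_S_le K β
    nlinarith [norm_nonneg (∑ t ∈ range K, ee (t * β))]

theorem fej_even (K : ℕ) (β : ℝ) : fej K (-β) = fej K β := by
  unfold fej
  congr 2
  have h : ∑ t ∈ range K, ee (t * -β) = (starRingEnd ℂ) (∑ t ∈ range K, ee (t * β)) := by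
    rw [map_sum]
    refine sum_congr rfl fun t _ => ?_
    rw [conj_ee]
    congr 1
    ring
  rw [h]
  exact RCLike.norm_conj _

theorem fej_int (K : ℕ) (β : ℝ) (n : ℤ) : fej K (β + n) = fej K β := by
  unfold fej
  congr 3
  refine sum_congr rfl fun t _ => ?_
  have h : (t : ℝ) * (β + n) = t * β + ((t * n : ℤ) : ℝ) := by push_cast; ring
  rw [h, ee_add', ee_intc, mul_one]

private theorem ee_sub_one_ge (β : ℝ) : 4 * nz β ≤ ‖ee β - 1‖ := by
  have h0 : ee β = ee (β - round β) := by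
    have := ee_add' (β - round β) (round β)
    rw [ee_intc, mul_one] at this
    rw [← this]
    congr 1
    ring
  rw [h0]
  have h1 : ee (β - round β) = Complex.exp (Complex.I * ((2 * Real.pi * (β - round β) : ℝ) : ℂ)) := by
    unfold ee
    congr 1
    push_cast
    ring
  rw [h1, Complex.norm_exp_I_mul_ofReal_sub_one]
  have h2 : 2 * Real.pi * (β - round β) / 2 = Real.pi * (β - round β) := by ring
  rw [h2, norm_mul, Real.norm_eq_abs, Real.norm_eq_abs]
  have hpi := Real.pi_pos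
  have h3 : |Real.pi * (β - round β)| = Real.pi * nz β := by
    unfold nz
    rw [abs_mul, abs_of_pos hpi]
  have h4 : |Real.pi * (β - round β)| ≤ Real.pi / 2 := by
    rw [h3]
    have := abs_sub_round β
    unfold nz
    nlinarith
  have h5 := Real.mul_abs_le_abs_sin h4
  rw [h3] at h5
  have h6 : 2 / Real.pi * (Real.pi * nz β) = 2 * nz β := by
    field_simp
  rw [h6] at h5
  rw [abs_of_pos (by norm_num : (0 : ℝ) < 2)]
  linarith

private theorem geo (K : ℕ) (β : ℝ) : (∑ t ∈ range K, ee (t * β)) * (ee β - 1) = ee (K * β) - 1 := by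
  have h : ∀ t : ℕ, ee (t * β) = ee β ^ t := by
    intro t
    unfold ee
    rw [← Complex.exp_nat_mul]
    congr 1
    push_cast
    ring
  rw [sum_congr rfl fun t _ => h t, h K]
  exact geom_sum_mul _ _

theorem fej_nz (K : ℕ) (hK : 1 ≤ K) (β : ℝ) : 4 * K * nz β ^ 2 * fej K β ≤ 1 := by
  have hK' : (0 : ℝ) < K := by exact_mod_cast hK
  unfold fej
  set S := ∑ t ∈ range K, ee (t * β) with hS
  have h1 : ‖S‖ * ‖ee β - 1‖ ≤ 2 := by
    rw [← norm_mul, hS, geo]
    refine (norm_sub_le _ _).trans ?_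
    rw [norm_ee', norm_one]
    norm_num
  have h2 := ee_sub_one_ge β
  have h0 : 0 ≤ nz β := abs_nonneg _
  have h3 : ‖S‖ * (4 * nz β) ≤ 2 := le_trans (mul_le_mul_of_nonneg_left h2 (norm_nonneg _)) h1
  have h4 : 2 * nz β * ‖S‖ ≤ 1 := by linarith
  have h5 : 0 ≤ 2 * nz β * ‖S‖ := by positivity
  have h6 : 4 * K * nz β ^ 2 * (‖S‖ ^ 2 / K) = (2 * nz β * ‖S‖) ^ 2 := by
    field_simp
    ring
  rw [h6]
  nlinarith

theorem wk_nonneg (K : ℕ) (r : ℝ) : 0 ≤ Wk K r := by
  unfold Wk
  split_ifs <;> positivity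

theorem wk_le (K : ℕ) (hK : 1 ≤ K) (r : ℝ) (hr : 0 ≤ r) : Wk K r ≤ K := by
  have hK' : (1 : ℝ) ≤ K := by exact_mod_cast hK
  unfold Wk
  split_ifs with h
  · exact le_rfl
  · push Not at h
    have h1 : 0 < r := by
      rcases hr.eq_or_lt with h0 | h0
      · subst h0; linarith
      · exact h0
    rw [div_le_iff₀ (by positivity)]
    nlinarith

theorem fej_le_W (K : ℕ) (hK : 1 ≤ K) (β : ℝ) : fej K β ≤ Wk K (nz β) := by
  unfold Wk
  split_ifs with h
  · exact fej_le K β
  · push Not at h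
    have hK' : (1 : ℝ) ≤ K := by exact_mod_cast hK
    have hn : 0 ≤ nz β := abs_nonneg _
    have h1 : 0 < nz β := by
      rcases hn.eq_or_lt with h0 | h0
      · rw [← h0] at h; linarith
      · exact h0
    rw [le_div_iff₀ (by positivity)]
    have h2 := fej_nz K hK β
    have h3 := fej_nonneg K β
    have h4 : 0 ≤ fej K β * (K * nz β ^ 2) := by positivity
    nlinarith

/-- the number of pairs with a given difference -/
private theorem card_diff (K : ℕ) (d : ℤ) (hd : d ∈ Ioo (-(K : ℤ)) K) :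
    (((range K ×ˢ range K).filter (fun q : ℕ × ℕ => (q.1 : ℤ) - q.2 = d)).card : ℤ) = K - |d| := by
  rw [mem_Ioo] at hd
  have h : ((range K ×ˢ range K).filter (fun q : ℕ × ℕ => (q.1 : ℤ) - q.2 = d)) =
      (range (K - d.natAbs)).image (fun t => (t + d.toNat, t + (-d).toNat)) := by
    ext ⟨a, b⟩
    simp only [mem_filter, mem_product, mem_range, mem_image, Prod.mk.injEq]
    constructor
    · rintro ⟨⟨ha, hb⟩, hab⟩
      refine ⟨min a b, ?_, ?_, ?_⟩ <;> omega
    · rintro ⟨t, ht, h1, h2⟩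
      omega
  rw [h, card_image_of_injective, card_range]
  · rw [Int.abs_eq_natAbs]
    omega
  · intro s t hst
    simp only [Prod.mk.injEq] at hst
    omega

private theorem sum_diff (K : ℕ) (f : ℤ → ℂ) :
    ∑ s ∈ range K, ∑ t ∈ range K, f ((s : ℤ) - t) =
      ∑ d ∈ Ioo (-(K : ℤ)) K, ((K : ℂ) - ((|d| : ℤ) : ℂ)) * f d := by
  rw [← sum_product' (f := fun s t : ℕ => f ((s : ℤ) - t))]
  have hm : ∀ q ∈ range K ×ˢ range K, (fun q : ℕ × ℕ => (q.1 : ℤ) - q.2) q ∈ Ioo (-(K : ℤ)) K := by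
    rintro ⟨a, b⟩ hq
    simp only [mem_product, mem_range] at hq
    simp only [mem_Ioo]
    omega
  rw [← sum_fiberwise_of_maps_to hm]
  refine sum_congr rfl fun d hd => ?_
  have h1 : ∀ q ∈ (range K ×ˢ range K).filter (fun q : ℕ × ℕ => (q.1 : ℤ) - q.2 = d),
      f ((q.1 : ℤ) - q.2) = f d := by
    intro q hq
    rw [(mem_filter.1 hq).2]
  rw [sum_congr rfl h1, sum_const, nsmul_eq_mul]
  congr 1
  have := card_diff K d hd
  exact_mod_cast this

private theorem fej_sq (K : ℕ) (β : ℝ) :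
    ((‖∑ t ∈ range K, ee (t * β)‖ ^ 2 : ℝ) : ℂ) =
      ∑ s ∈ range K, ∑ t ∈ range K, ee ((((s : ℤ) - t : ℤ) : ℝ) * β) := by
  have h : ((‖∑ t ∈ range K, ee (t * β)‖ ^ 2 : ℝ) : ℂ) =
      (∑ t ∈ range K, ee (t * β)) * (starRingEnd ℂ) (∑ t ∈ range K, ee (t * β)) := by
    rw [Complex.mul_conj, Complex.normSq_eq_norm_sq]
  rw [h, map_sum, sum_mul_sum]
  refine sum_congr rfl fun s _ => sum_congr rfl fun t _ => ?_
  rw [conj_ee, ← ee_add']
  congr 1
  push_cast
  ring

theorem fej_exp (K : ℕ) (hK : 1 ≤ K) (β : ℝ) :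
    ((fej K β : ℝ) : ℂ) = ∑ t ∈ Ioo (-(K : ℤ)) K, ((1 - |(t : ℝ)| / K : ℝ) : ℂ) * ee (t * β) := by
  have hK' : (K : ℂ) ≠ 0 := by
    have : K ≠ 0 := by omega
    exact_mod_cast this
  unfold fej
  rw [Complex.ofReal_div, fej_sq, sum_diff K (fun d => ee ((d : ℝ) * β)), Complex.ofReal_natCast,
    sum_div]
  refine sum_congr rfl fun d _ => ?_
  have e : ((|d| : ℤ) : ℂ) = ((|(d : ℝ)| : ℝ) : ℂ) := by
    rw [← Int.cast_abs, Complex.ofReal_intCast]
  rw [e, Complex.ofReal_sub, Complex.ofReal_div, Complex.ofReal_one, Complex.ofReal_natCast]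
  field_simp

private theorem grid_char (J : ℕ) (d : ℤ) (hd : |d| < J) :
    ∑ j ∈ range J, ee (-(d * (j / J : ℝ))) = if d = 0 then (J : ℂ) else 0 := by
  split_ifs with h0
  · subst h0
    simp [ee]
  · have hJ0 : 0 < J := by
      have := abs_nonneg d
      omega
    have hJ : (J : ℝ) ≠ 0 := by
      have : J ≠ 0 := by omega
      exact_mod_cast this
    have h1 := geo J (-((d : ℝ) / J))
    have h2 : (J : ℝ) * (-((d : ℝ) / J)) = ((-d : ℤ) : ℝ) := by
      push_cast
      field_simp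
    rw [h2, ee_intc, sub_self] at h1
    have h3 : ee (-((d : ℝ) / J)) - 1 ≠ 0 := by
      intro h
      have h4 := ee_sub_one_ge (-((d : ℝ) / J))
      rw [h, norm_zero, Pool.Agent.H53.MID.nz_neg] at h4
      have h5 := Pool.Agent.H53.MID.nz_frac_ge d J hJ0 (by
        intro hdv
        have := Int.le_of_dvd (abs_pos.2 h0) ((dvd_abs _ _).2 hdv)
        omega)
      have h6 : (0 : ℝ) < 1 / (J : ℝ) := by positivity
      linarith
    have h4 := (mul_eq_zero.1 h1).resolve_right h3
    rw [← h4]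
    refine sum_congr rfl fun j _ => ?_
    congr 1
    ring

theorem fej_grid (K J : ℕ) (hK : 1 ≤ K) (hJ : K ≤ J) (β : ℝ) :
    ∑ j ∈ range J, fej K (β - j / J) = J := by
  have hK' : (K : ℂ) ≠ 0 := by
    have : K ≠ 0 := by omega
    exact_mod_cast this
  have h : ((∑ j ∈ range J, fej K (β - j / J) : ℝ) : ℂ) = ((J : ℝ) : ℂ) := by
    rw [Complex.ofReal_sum]
    simp_rw [fej_exp K hK]
    rw [sum_comm]
    have h1 : ∀ d ∈ Ioo (-(K : ℤ)) K,
        ∑ j ∈ range J, ((1 - |(d : ℝ)| / K : ℝ) : ℂ) * ee (d * (β - j / J)) =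
          if d = 0 then (J : ℂ) else 0 := by
      intro d hd
      rw [mem_Ioo] at hd
      have hd' : |d| < J := by
        rw [abs_lt]
        omega
      rw [← mul_sum]
      have h2 : ∀ j ∈ range J, ee (d * (β - j / J)) = ee (d * β) * ee (-(d * (j / J : ℝ))) := by
        intro j _
        rw [← ee_add']
        congr 1
        ring
      rw [sum_congr rfl h2, ← mul_sum, grid_char J d hd']
      split_ifs with h0
      · subst h0
        simp [ee]
      · simp
    rw [sum_congr rfl h1, sum_ite_eq', if_pos]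
    · simp
    · rw [mem_Ioo]; omega
  exact_mod_cast h

theorem fej_grid2 (K J : ℕ) (hK : 1 ≤ K) (hJ : K ≤ J) (β β' : ℝ) :
    ∑ j ∈ range J, fej K (β - j / J) * fej K (β' - j / J) ≤ 2 * J * Wk K (nz (β - β')) := by
  have hK' : (1 : ℝ) ≤ K := by exact_mod_cast hK
  set r := nz (β - β') with hr
  have hr0 : 0 ≤ r := abs_nonneg _
  have hfar : ∀ γ : ℝ, r / 2 ≤ nz γ → fej K γ ≤ Wk K r := by
    intro γ hγ
    unfold Wk
    split_ifs with h
    · exact fej_le K γ
    · push Not at h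
      have h1 : 0 < r := by
        rcases hr0.eq_or_lt with h0 | h0
        · rw [← h0] at h; linarith
        · exact h0
      rw [le_div_iff₀ (by positivity)]
      have h2 := fej_nz K hK γ
      have h3 := fej_nonneg K γ
      have h4 : r ^ 2 ≤ 4 * nz γ ^ 2 := by nlinarith
      calc fej K γ * (K * r ^ 2) ≤ fej K γ * (K * (4 * nz γ ^ 2)) := by
            apply mul_le_mul_of_nonneg_left _ h3
            apply mul_le_mul_of_nonneg_left h4 (by linarith)
        _ = 4 * K * nz γ ^ 2 * fej K γ := by ring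
        _ ≤ 1 := h2
  have hW := wk_nonneg K r
  have hterm : ∀ j ∈ range J, fej K (β - j / J) * fej K (β' - j / J) ≤
      Wk K r * fej K (β - j / J) + Wk K r * fej K (β' - j / J) := by
    intro j _
    have h1 := fej_nonneg K (β - j / J)
    have h2 := fej_nonneg K (β' - j / J)
    have h3 : r ≤ nz (β - j / J) + nz (β' - j / J) := by
      have := Pool.Agent.H53.MID.nz_sub (β - j / J) (β' - j / J)
      have e : β - (j : ℝ) / J - (β' - j / J) = β - β' := by ring
      rw [e] at this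
      exact this
    rcases le_total (r / 2) (nz (β - j / J)) with h | h
    · have h4 := hfar _ h
      have h5 := mul_le_mul_of_nonneg_right h4 h2
      have h6 : 0 ≤ Wk K r * fej K (β - j / J) := mul_nonneg hW h1
      linarith
    · have h4 := hfar (β' - j / J) (by linarith)
      have h5 := mul_le_mul_of_nonneg_left h4 h1
      have h6 : 0 ≤ Wk K r * fej K (β' - j / J) := mul_nonneg hW h2
      linarith
  refine (sum_le_sum hterm).trans (le_of_eq ?_)
  rw [sum_add_distrib, ← mul_sum, ← mul_sum, fej_grid K J hK hJ, fej_grid K J hK hJ]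
  ring

end Pool.Agent.H56.TI
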