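import Pool.Agent.H56.TI.Fej

/-!
# TI Spc: the fractions `u/p` are well spaced

* `fr_ne`: for `q ≠ q'` in `FR P`: `xf q - xf q' = (u p' - u' p)/(p p')` is not an integer (if `p ≠ p'`: `p ∤ u p'`; if `p = p'`: `0 < |u - u'| < p`), so `nz (xf q - xf q') ≥ 1/(p p') ≥ 1/(4P²)`.
* hence for every real `β` and `r ≥ 0`: `#{q ∈ FR P : nz(β - xf q) ≤ r} ≤ 8 P² r + 2` (points on the circle; see the sums over well spaced points in `H53/MID/OmW.lean`).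
* `spc_wk`: dyadically: `∑_q Wk K (nz(β - xf q)) ≤ ∑_{s ≥ 0} 4 K 4^(-s) #{q : nz ≤ 2^s/K} ≤ ∑_s 4 K 4^(-s) (8 P² 2^s/K + 2) ≤ 64 P² + 11 K ≤ 100 P²` for `K ≤ P²`.
* `spc_fej`: the same with `K = X`: `≤ 64 P² + 11 X ≤ 100 X` for `P² ≤ X` (`fej_le_W`).
-/

set_option autoImplicit false

namespace Pool.Agent.H56.TI

open Finset
open Pool.Agent.H91.PK (ee)
open Pool.Agent.H35.W (pb)
open Pool.Agent.H53.MID (Bs nz)

theorem fr_card (P : ℕ) : (FR P).card ≤ 2 * P ^ 2 := by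
  have h1 : (FR P).card ≤ ((pb P) ×ˢ (Icc 1 (2 * P))).card := Finset.card_filter_le _ _
  have h2 : (pb P).card ≤ (Ioc P (2 * P)).card := Finset.card_filter_le _ _
  rw [Finset.card_product, Nat.card_Icc] at h1
  rw [Nat.card_Ioc] at h2
  have h3 : 2 * P - P = P := by omega
  have h4 : 2 * P + 1 - 1 = 2 * P := by omega
  rw [h3] at h2
  rw [h4] at h1
  calc (FR P).card ≤ (pb P).card * (2 * P) := h1
    _ ≤ P * (2 * P) := Nat.mul_le_mul_right _ h2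
    _ = 2 * P ^ 2 := by ring

theorem fr_ne (P : ℕ) (q q' : ℕ × ℕ) (hq : q ∈ FR P) (hq' : q' ∈ FR P) (h : q ≠ q') :
    1 / (4 * (P : ℝ) ^ 2) ≤ nz (xf q - xf q') := by
  obtain ⟨p, u⟩ := q
  obtain ⟨p', u'⟩ := q'
  simp only [FR, pb, Finset.mem_filter, Finset.mem_product, Finset.mem_Icc, Finset.mem_Ioc] at hq hq'
  obtain ⟨⟨⟨⟨hp1, hp2⟩, hp⟩, hu1, -⟩, hup⟩ := hq
  obtain ⟨⟨⟨⟨hp1', hp2'⟩, hp'⟩, hu1', -⟩, hup'⟩ := hq'
  have hp0 : 0 < p := hp.pos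
  have hp0' : 0 < p' := hp'.pos
  have hpR : (0 : ℝ) < p := by exact_mod_cast hp0
  have hpR' : (0 : ℝ) < p' := by exact_mod_cast hp0'
  have hx : xf (p, u) - xf (p', u') = (((u : ℤ) * p' - u' * p : ℤ) : ℝ) / ((p * p' : ℕ) : ℝ) := by
    unfold xf
    push_cast
    field_simp
  have hnd : ¬ ((p * p' : ℕ) : ℤ) ∣ (u : ℤ) * p' - u' * p := by
    intro hd
    by_cases hpp : p = p'
    · subst hpp
      have h1 : ((p * p : ℕ) : ℤ) = (p : ℤ) * p := by push_cast; ring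
      have h2 : (u : ℤ) * p - u' * p = ((u : ℤ) - u') * p := by ring
      rw [h1, h2] at hd
      have h3 : (p : ℤ) ∣ (u : ℤ) - u' := Int.dvd_of_mul_dvd_mul_right (by exact_mod_cast hp0.ne') hd
      have h4 : (u : ℤ) - u' = 0 := by
        apply Int.eq_zero_of_abs_lt_dvd h3
        rw [abs_lt]
        constructor <;> omega
      apply h
      have h5 : u = u' := by omega
      rw [h5]
    · have h1 : (p : ℤ) ∣ (u : ℤ) * p' - u' * p :=
        dvd_trans ⟨(p' : ℤ), by push_cast; ring⟩ hd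
      have h2 : (p : ℤ) ∣ (u : ℤ) * p' := by
        have h3 : (p : ℤ) ∣ (u' : ℤ) * p := Dvd.intro_left _ rfl
        have h4 := dvd_add h1 h3
        have h5 : (u : ℤ) * p' - u' * p + u' * p = (u : ℤ) * p' := by ring
        rwa [h5] at h4
      have h3 : p ∣ u * p' := by exact_mod_cast h2
      rcases (Nat.Prime.dvd_mul hp).1 h3 with h4 | h4
      · exact absurd (Nat.le_of_dvd hu1 h4) (by omega)
      · exact hpp ((Nat.prime_dvd_prime_iff_eq hp hp').1 h4)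
  rw [hx]
  refine le_trans ?_ (Pool.Agent.H53.MID.nz_frac_ge _ (p * p') (Nat.mul_pos hp0 hp0') hnd)
  have h6 : ((p * p' : ℕ) : ℝ) ≤ 4 * (P : ℝ) ^ 2 := by
    have h7 : p * p' ≤ (2 * P) * (2 * P) := Nat.mul_le_mul hp2 hp2'
    have h8 : ((p * p' : ℕ) : ℝ) ≤ (((2 * P) * (2 * P) : ℕ) : ℝ) := by exact_mod_cast h7
    refine h8.trans (le_of_eq ?_)
    push_cast
    ring
  exact one_div_le_one_div_of_le (by exact_mod_cast Nat.mul_pos hp0 hp0') h6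

theorem fr_cnt (P : ℕ) (hP : 1 ≤ P) (β r : ℝ) (hr : 0 ≤ r) :
    (((FR P).filter (fun q => nz (β - xf q) ≤ r)).card : ℝ) ≤ 8 * P ^ 2 * r + 2 := by
  have hP0 : (0 : ℝ) < P := by exact_mod_cast hP
  have hM : (0 : ℝ) < 4 * (P : ℝ) ^ 2 := by positivity
  set S := (FR P).filter (fun q => nz (β - xf q) ≤ r) with hS
  let δ : ℕ × ℕ → ℝ := fun q => (β - xf q) - round (β - xf q)
  have hδ : ∀ q ∈ S, |δ q| ≤ r := by
    intro q hq
    exact (Finset.mem_filter.1 hq).2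
  let g : ℕ × ℕ → ℕ := fun q => ⌊4 * (P : ℝ) ^ 2 * (δ q + r)⌋₊
  have hmem : ∀ q ∈ S, g q ∈ range (⌊8 * (P : ℝ) ^ 2 * r⌋₊ + 1) := by
    intro q hq
    rw [Finset.mem_range, Nat.lt_succ_iff]
    apply Nat.floor_le_floor
    have h1 := (abs_le.1 (hδ q hq)).2
    have h2 : 4 * (P : ℝ) ^ 2 * (δ q + r) ≤ 4 * (P : ℝ) ^ 2 * (2 * r) :=
      mul_le_mul_of_nonneg_left (by linarith) hM.le
    linarith
  have hinj : Set.InjOn g S := by
    intro q hq q' hq' hgg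
    by_contra hne
    have hq1 : q ∈ S := hq
    have hq1' : q' ∈ S := hq'
    have h1 := fr_ne P q q' (Finset.mem_filter.1 hq1).1 (Finset.mem_filter.1 hq1').1 hne
    have ha : 0 ≤ 4 * (P : ℝ) ^ 2 * (δ q + r) :=
      mul_nonneg hM.le (by linarith [(abs_le.1 (hδ q hq1)).1])
    have hb : 0 ≤ 4 * (P : ℝ) ^ 2 * (δ q' + r) :=
      mul_nonneg hM.le (by linarith [(abs_le.1 (hδ q' hq1')).1])
    have h2 := Nat.floor_le ha
    have h3 := Nat.lt_floor_add_one (4 * (P : ℝ) ^ 2 * (δ q + r))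
    have h4 := Nat.floor_le hb
    have h5 := Nat.lt_floor_add_one (4 * (P : ℝ) ^ 2 * (δ q' + r))
    have h6 : ((⌊4 * (P : ℝ) ^ 2 * (δ q + r)⌋₊ : ℕ) : ℝ) = ((⌊4 * (P : ℝ) ^ 2 * (δ q' + r)⌋₊ : ℕ) : ℝ) :=
      congrArg Nat.cast hgg
    rw [h6] at h2 h3
    have h7 : |4 * (P : ℝ) ^ 2 * (δ q + r) - 4 * (P : ℝ) ^ 2 * (δ q' + r)| < 1 := by
      rw [abs_lt]
      constructor <;> linarith
    have h8 : 4 * (P : ℝ) ^ 2 * (δ q + r) - 4 * (P : ℝ) ^ 2 * (δ q' + r) = 4 * (P : ℝ) ^ 2 * (δ q - δ q') := by ring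
    rw [h8, abs_mul, abs_of_pos hM] at h7
    have h9 : nz (xf q - xf q') ≤ |δ q - δ q'| := by
      have h10 : xf q - xf q' = -((δ q - δ q') + ((round (β - xf q) - round (β - xf q') : ℤ) : ℝ)) := by
        simp only [δ]
        push_cast
        ring
      rw [h10, Pool.Agent.H53.MID.nz_neg, Pool.Agent.H53.MID.nz_add_int]
      exact Pool.Agent.H53.MID.nz_le_abs _
    have h11 : 1 / (4 * (P : ℝ) ^ 2) ≤ |δ q - δ q'| := h1.trans h9
    rw [div_le_iff₀ hM] at h11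
    linarith
  have hcard : S.card ≤ ⌊8 * (P : ℝ) ^ 2 * r⌋₊ + 1 := by
    have h1 := Finset.card_le_card_of_injOn g hmem hinj
    rwa [Finset.card_range] at h1
  have h1 : (S.card : ℝ) ≤ ((⌊8 * (P : ℝ) ^ 2 * r⌋₊ + 1 : ℕ) : ℝ) := by exact_mod_cast hcard
  push_cast at h1
  have h2 := Nat.floor_le (show 0 ≤ 8 * (P : ℝ) ^ 2 * r by positivity)
  linarith

private theorem Spc_dyad (K : ℕ) (hK : 1 ≤ K) (r : ℝ) (_hr : 0 ≤ r) (hr2 : r ≤ 1 / 2) :
    Wk K r ≤ ∑ s ∈ range (Nat.log 2 K + 1), if r ≤ 2 ^ s / K then 4 * K / (4 : ℝ) ^ s else 0 := by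
  have hK0 : (0 : ℝ) < K := by exact_mod_cast hK
  have hnn : ∀ s ∈ range (Nat.log 2 K + 1), (0 : ℝ) ≤ if r ≤ 2 ^ s / K then 4 * K / (4 : ℝ) ^ s else 0 := by
    intro s _
    split_ifs
    · positivity
    · exact le_refl _
  have hlog : (K : ℝ) * r ≤ 2 ^ (Nat.log 2 K) := by
    have h1 : K < 2 ^ (Nat.log 2 K + 1) := Nat.lt_pow_succ_log_self (by norm_num) K
    have h2 : (K : ℝ) < 2 ^ (Nat.log 2 K + 1) := by exact_mod_cast h1
    rw [pow_succ] at h2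
    have h3 : (K : ℝ) * r ≤ K * (1 / 2) := mul_le_mul_of_nonneg_left hr2 hK0.le
    linarith
  by_cases h0 : (K : ℝ) * r ≤ 1
  · have h1 : Wk K r = K := by
      unfold Wk
      rw [if_pos h0]
    rw [h1]
    refine le_trans ?_ (Finset.single_le_sum hnn (Finset.mem_range.2 (Nat.succ_pos _)))
    have h2 : r ≤ 2 ^ 0 / (K : ℝ) := by
      rw [le_div_iff₀ hK0]
      rw [pow_zero]
      linarith
    rw [if_pos h2]
    rw [pow_zero]
    linarith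
  · have h1 : Wk K r = 1 / (K * r ^ 2) := by
      unfold Wk
      rw [if_neg h0]
    rw [h1]
    push Not at h0
    have hex : ∃ s : ℕ, (K : ℝ) * r ≤ 2 ^ s := ⟨_, hlog⟩
    classical
    set s := Nat.find hex with hs
    have hs1 : (K : ℝ) * r ≤ 2 ^ s := Nat.find_spec hex
    have hs2 : s ≤ Nat.log 2 K := Nat.find_min' hex hlog
    have hs0 : s ≠ 0 := by
      intro h
      rw [h, pow_zero] at hs1
      linarith
    obtain ⟨t, ht⟩ := Nat.exists_eq_succ_of_ne_zero hs0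
    have hs3 : (2 : ℝ) ^ t < K * r := by
      by_contra hcon
      push Not at hcon
      have := Nat.find_min' hex hcon
      omega
    refine le_trans ?_ (Finset.single_le_sum hnn (Finset.mem_range.2 (Nat.lt_succ_of_le hs2)))
    have h2 : r ≤ 2 ^ s / (K : ℝ) := by
      rw [le_div_iff₀ hK0]
      linarith
    rw [if_pos h2]
    have hr0 : 0 < r := by
      by_contra hcon
      push Not at hcon
      have : (K : ℝ) * r ≤ 0 := mul_nonpos_of_nonneg_of_nonpos hK0.le hcon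
      linarith
    rw [ht, div_le_div_iff₀ (by positivity) (by positivity)]
    have h3 : (4 : ℝ) ^ (t + 1) = 4 * (2 ^ t * 2 ^ t) := by
      rw [pow_succ, ← mul_pow]
      norm_num
      ring
    have h4 : (2 : ℝ) ^ t * 2 ^ t ≤ (K * r) * (K * r) :=
      mul_le_mul hs3.le hs3.le (by positivity) (by positivity)
    have h5 : Nat.succ t = t + 1 := rfl
    rw [h5, h3]
    nlinarith

private theorem Spc_g2 (n : ℕ) : ∑ s ∈ range n, (1 : ℝ) / 2 ^ s ≤ 2 := by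
  have h : ∀ n : ℕ, ∑ s ∈ range n, (1 : ℝ) / 2 ^ s = 2 - 2 / 2 ^ n := by
    intro n
    induction n with
    | zero => simp
    | succ n ih =>
      rw [Finset.sum_range_succ, ih, pow_succ]
      field_simp
      ring
  rw [h n]
  have : (0 : ℝ) < 2 / 2 ^ n := by positivity
  linarith

private theorem Spc_g4 (n : ℕ) : ∑ s ∈ range n, (1 : ℝ) / 4 ^ s ≤ 4 / 3 := by
  have h : ∀ n : ℕ, ∑ s ∈ range n, (1 : ℝ) / 4 ^ s = 4 / 3 - 4 / 3 / 4 ^ n := by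
    intro n
    induction n with
    | zero => simp
    | succ n ih =>
      rw [Finset.sum_range_succ, ih, pow_succ]
      field_simp
      ring
  rw [h n]
  have : (0 : ℝ) < 4 / 3 / 4 ^ n := by positivity
  linarith

private theorem Spc_gen (P K : ℕ) (hP : 1 ≤ P) (hK : 1 ≤ K) (β : ℝ) :
    ∑ q ∈ FR P, Wk K (nz (β - xf q)) ≤ 64 * P ^ 2 + 11 * K := by
  have hK0 : (0 : ℝ) < K := by exact_mod_cast hK
  have h1 : ∑ q ∈ FR P, Wk K (nz (β - xf q)) ≤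
      ∑ q ∈ FR P, ∑ s ∈ range (Nat.log 2 K + 1), if nz (β - xf q) ≤ 2 ^ s / K then 4 * K / (4 : ℝ) ^ s else 0 :=
    Finset.sum_le_sum fun q _ => Spc_dyad K hK _ (Pool.Agent.H53.MID.nz_nonneg _) (Pool.Agent.H53.MID.nz_le_half _)
  refine h1.trans ?_
  rw [Finset.sum_comm]
  have h2 : ∀ s ∈ range (Nat.log 2 K + 1),
      (∑ q ∈ FR P, if nz (β - xf q) ≤ 2 ^ s / K then 4 * K / (4 : ℝ) ^ s else 0) ≤
        32 * P ^ 2 * (1 / 2 ^ s) + 8 * K * (1 / 4 ^ s) := by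
    intro s _
    rw [← Finset.sum_filter, Finset.sum_const, nsmul_eq_mul]
    have h3 := fr_cnt P hP β (2 ^ s / K) (by positivity)
    have h4 : (0 : ℝ) ≤ 4 * K / (4 : ℝ) ^ s := by positivity
    refine (mul_le_mul_of_nonneg_right h3 h4).trans (le_of_eq ?_)
    have h5 : (4 : ℝ) ^ s = 2 ^ s * 2 ^ s := by
      rw [← mul_pow]
      norm_num
    rw [h5]
    field_simp
    ring
  refine (Finset.sum_le_sum h2).trans ?_
  rw [Finset.sum_add_distrib, ← Finset.mul_sum, ← Finset.mul_sum]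
  have h3 := Spc_g2 (Nat.log 2 K + 1)
  have h4 := Spc_g4 (Nat.log 2 K + 1)
  have h5 : 32 * (P : ℝ) ^ 2 * ∑ s ∈ range (Nat.log 2 K + 1), (1 : ℝ) / 2 ^ s ≤ 32 * P ^ 2 * 2 :=
    mul_le_mul_of_nonneg_left h3 (by positivity)
  have h6 : 8 * (K : ℝ) * ∑ s ∈ range (Nat.log 2 K + 1), (1 : ℝ) / 4 ^ s ≤ 8 * K * (4 / 3) :=
    mul_le_mul_of_nonneg_left h4 (by positivity)
  linarith

theorem spc_wk (P K : ℕ) (hP : 1 ≤ P) (hK : 1 ≤ K) (hKP : K ≤ P ^ 2) (β : ℝ) :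
    ∑ q ∈ FR P, Wk K (nz (β - xf q)) ≤ 100 * P ^ 2 := by
  have h1 := Spc_gen P K hP hK β
  have h2 : (K : ℝ) ≤ (P : ℝ) ^ 2 := by exact_mod_cast hKP
  linarith

theorem spc_fej (P X : ℕ) (hP : 1 ≤ P) (hX : P ^ 2 ≤ X) (β : ℝ) :
    ∑ q ∈ FR P, fej X (β - xf q) ≤ 100 * X := by
  have hX1 : 1 ≤ X := le_trans (Nat.one_le_pow _ _ hP) hX
  have h1 := Spc_gen P X hP hX1 β
  have h2 : (P : ℝ) ^ 2 ≤ (X : ℝ) := by exact_mod_cast hX
  have h3 : ∑ q ∈ FR P, fej X (β - xf q) ≤ ∑ q ∈ FR P, Wk X (nz (β - xf q)) :=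
    Finset.sum_le_sum fun q _ => fej_le_W X hX1 (β - xf q)
  have h4 : (0 : ℝ) ≤ X := Nat.cast_nonneg X
  linarith

/-- dyadic majorant of `Wk` -/
theorem wk_dyad (K : ℕ) (hK : 1 ≤ K) (r : ℝ) (hr : 0 ≤ r) (hr2 : r ≤ 1 / 2) :
    Wk K r ≤ ∑ s ∈ range (Nat.log 2 K + 1), if r ≤ 2 ^ s / K then 4 * K / (4 : ℝ) ^ s else 0 := by
  exact Spc_dyad K hK r hr hr2

end Pool.Agent.H56.TI
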